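import Mathlib
import Pool.Agent.TH864.ZO.ZL
import Pool.Agent.TH433.APW

/-!
# The zero-one law for `P (z ^ n) / Q (z ^ n)` with an explicit number of exceptional exponents
-/

set_option autoImplicit false

open Set Filter Topology

namespace Pool.Agent.X88.ZeroOne

open Pool.Agent.H762R2.Rt Pool.Agent.H462R2.AP Pool.Agent.TH864.ZO

variable {P Q : Polynomial ℂ} {D : ℕ}

theorem VS_card (hc : IsCoprime P Q) (hD : D = max P.natDegree Q.natDegree) (hD1 : 1 ≤ D)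
    (hne : ∃ u : ℂ, ‖u‖ = 1 ∧ ‖P.eval u‖ ≠ ‖Q.eval u‖) :
    (VS P Q D).ncard ≤ 4 * D + 1 := by
  have hE : (eqSet P Q).Finite := eqSet_finite hne
  have hM : (marks' P Q D).Finite := marks'_finite hc (hD ▸ hD1)
  have hsub : VS P Q D ⊆ (fun x : ℂ × ℂ => x.1 / x.2) '' (marks' P Q D) ∪
      (fun u => P.eval u / Q.eval u) '' (eqSet P Q) := by
    rintro x ⟨h1, -, h | ⟨u, hu, rfl⟩⟩
    · left
      rcases h with ⟨-, rfl⟩ | ⟨-, rfl⟩ | ⟨y, hy, -, rfl⟩
      · exact ⟨(P.eval 0, Q.eval 0), Or.inl (Or.inl rfl), rfl⟩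
      · exact ⟨(P.coeff D, Q.coeff D), Or.inl (Or.inr rfl), rfl⟩
      · exact ⟨(P.eval y, Q.eval y), Or.inr ⟨y, hy, rfl⟩, rfl⟩
    · exact Or.inr ⟨u, mem_eqSet_of hu.norm h1, rfl⟩
  have h1 := Set.ncard_le_ncard hsub ((hM.image _).union (hE.image _))
  have h2 := Set.ncard_union_le ((fun x : ℂ × ℂ => x.1 / x.2) '' (marks' P Q D))
    ((fun u => P.eval u / Q.eval u) '' (eqSet P Q))
  have h3 := Set.ncard_image_le (f := fun x : ℂ × ℂ => x.1 / x.2) hM
  have h4 := Set.ncard_image_le (f := fun u => P.eval u / Q.eval u) hE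
  have h5 := Pool.Agent.TH433.APW.marks'_card hc hD hD1
  have h6 := Pool.Agent.TH433.APW.eqSet_card hne
  rw [← hD] at h6
  omega

/-- In long windows far out there are at most `2 D (4 D + 1)` exceptional exponents. -/
theorem exc_window' (hc : IsCoprime P Q) (hD : D = max P.natDegree Q.natDegree) (hD1 : 1 ≤ D)
    (hne : ∃ u : ℂ, ‖u‖ = 1 ∧ ‖P.eval u‖ ≠ ‖Q.eval u‖) :
    ∀ (C : ℝ) (L : ℕ), ∃ N₀ : ℕ, ∀ N, N₀ ≤ N →
      ({n : ℕ | Exc P Q D (C * (Real.log n / n)) n} ∩ Set.Ico N (N + L)).ncard ≤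
        (4 * D + 1) * (2 * D) := by
  classical
  have hE : (eqSet P Q).Finite := eqSet_finite hne
  have hV : (VS P Q D).Finite := VS_finite hc (hD ▸ hD1) hE
  set J : Finset (ℂ × ℂ) := hV.toFinset ×ˢ hE.toFinset with hJ
  intro C L
  obtain ⟨δ, hδ, hgap⟩ := exists_gap hV (fun v hv => hv.1) (fun v hv => hv.2.1) L
  obtain ⟨m, hm, hmin⟩ := exists_min P Q hδ
  have hlim : Tendsto (fun n : ℕ => C * (Real.log n / n)) atTop (𝓝 0) := by
    have h1 : Tendsto (fun x : ℝ => Real.log x / x) atTop (𝓝 0) := by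
      simpa using Real.isLittleO_log_id_atTop.tendsto_div_nhds_zero
    have h2 := (h1.comp tendsto_natCast_atTop_atTop).const_mul C
    rw [mul_zero] at h2
    exact h2
  obtain ⟨N₀, hN₀⟩ := eventually_atTop.1 (hlim.eventually (gt_mem_nhds hm))
  refine ⟨N₀, fun N hN => ?_⟩
  have hkey : ∀ n ∈ {n : ℕ | Exc P Q D (C * (Real.log n / n)) n} ∩ Set.Ico N (N + L),
      ∃ j ∈ J, ‖j.1 ^ n - j.2‖ < δ := by
    rintro n ⟨h1, h2⟩
    obtain ⟨v, hv, h3⟩ := exc_mem h1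
    have h4 := hN₀ n (hN.trans h2.1)
    by_contra hcon
    push Not at hcon
    have h5 := hmin (v ^ n) (by rw [norm_pow, hv.1, one_pow]) fun w hw =>
      hcon (v, w) (Finset.mem_product.2 ⟨hV.mem_toFinset.2 hv, hE.mem_toFinset.2 hw⟩)
    linarith
  choose! g hg1 hg2 using hkey
  have hJc : J.card ≤ (4 * D + 1) * (2 * D) := by
    rw [hJ, Finset.card_product, ← Set.ncard_eq_toFinset_card _ hV, ← Set.ncard_eq_toFinset_card _ hE]
    have h6 := Pool.Agent.TH433.APW.eqSet_card hne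
    rw [← hD] at h6
    exact Nat.mul_le_mul (VS_card hc hD hD1 hne) h6
  refine le_trans ?_ hJc
  rw [← Set.ncard_coe_finset]
  refine Set.ncard_le_ncard_of_injOn g (fun n hn => hg1 n hn) ?_ (Finset.finite_toSet _)
  intro a ha b hb hab
  have hva : (g a).1 ∈ VS P Q D := hV.mem_toFinset.1 (Finset.mem_product.1 (hg1 a ha)).1
  have h1 := hg2 a ha
  have h2 := hg2 b hb
  rw [← hab] at h2
  rcases lt_trichotomy a b with h | h | h
  · have := hgap _ hva _ a b h1 h2 h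
    have := ha.2.1
    have := hb.2.2
    omega
  · exact h
  · have := hgap _ hva _ b a h2 h1 h
    have := hb.2.1
    have := ha.2.2
    omega

/-- The zero-one law. -/
theorem zero_one' (hc : IsCoprime P Q) (hD : D = max P.natDegree Q.natDegree) (hD1 : 1 ≤ D)
    (hne : ∃ u : ℂ, ‖u‖ = 1 ∧ ‖P.eval u‖ ≠ ‖Q.eval u‖) :
    ∃ M : ℕ, 0 < M ∧
      (∀ n m : ℕ, n ≡ m [MOD M] → (Res P Q D n ↔ Res P Q D m)) ∧
      (∃ n₀ : ℕ, ∀ n, n₀ ≤ n → Res P Q D n →
        ¬ Hyp (Polynomial.expand ℂ n P) (Polynomial.expand ℂ n Q)) ∧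
      (∀ L : ℕ, ∃ N₀ : ℕ, ∀ N, N₀ ≤ N →
        {n : ℕ | N ≤ n ∧ n < N + L ∧ ¬ Res P Q D n ∧
          ¬ Hyp (Polynomial.expand ℂ n P) (Polynomial.expand ℂ n Q)}.ncard ≤
            (4 * D + 1) * (2 * D)) ∧
      Tendsto (fun N : ℕ => ({n : ℕ | n < N ∧ Hyp (Polynomial.expand ℂ n P)
        (Polynomial.expand ℂ n Q)}.ncard : ℝ) / N) atTop
        (𝓝 (({a | a < M ∧ ¬ Res P Q D a}.ncard : ℝ) / M)) := by
  obtain ⟨M, hM, C, hC, n₀, hn₀, h1, h2, h3, -⟩ := Pool.Agent.TH864.ZO.main hc hD hD1 hne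
  have hK := exc_window' (D := D) hc hD hD1 hne
  refine ⟨M, hM, h1, ⟨n₀, h2⟩, ?_, ?_⟩
  · intro L
    obtain ⟨N₀, hN₀⟩ := hK C L
    refine ⟨max N₀ n₀, fun N hN => ?_⟩
    refine le_trans (Set.ncard_le_ncard ?_ ((Set.finite_Ico N (N + L)).subset
      Set.inter_subset_right)) (hN₀ N (le_of_max_le_left hN))
    rintro n ⟨h5, h6, h7, h8⟩
    refine ⟨?_, h5, h6⟩
    by_contra h9
    exact h8 (h3 n ((le_of_max_le_right hN).trans h5) h7 h9)
  · have h := density_periodic hM (p := fun n => ¬ Res P Q D n)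
      (S := {n : ℕ | Exc P Q D (C * (Real.log n / n)) n})
      (H := {n : ℕ | Hyp (Polynomial.expand ℂ n P) (Polynomial.expand ℂ n Q)}) (n₀ := n₀)
      (fun n m h => not_congr (h1 n m h)) (density_of_window (hK C)) (by
        intro n hn hS
        constructor
        · intro h4 h5
          exact h2 n hn h5 h4
        · intro h4
          exact h3 n hn h4 hS)
    refine h.congr fun N => ?_
    congr 2
    apply congrArg
    ext n
    simp only [Set.mem_inter_iff, Set.mem_ofPred_eq, Set.mem_Iio]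
    exact and_comm

end Pool.Agent.X88.ZeroOne
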