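import Mathlib

/-!
Colliding orbits for families `f + λ` where `f` commutes with a translation, in characteristic `p`.
-/

set_option autoImplicit false

open Polynomial

namespace Pool.Agent.X88.Collide

universe u

variable {K : Type u} [Field K]

/-- the map `x ↦ f x + l` -/
def step (f : K[X]) (l x : K) : K := f.eval x + l

/-- `f_λ^n (t)` as a polynomial in `λ`. -/
noncomputable def P (f : K[X]) (t : K) : ℕ → K[X]
  | 0 => C t
  | n + 1 => f.comp (P f t n) + X

lemma eval_P (f : K[X]) (t l : K) (n : ℕ) : (P f t n).eval l = (step f l)^[n] t := by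
  induction n with
  | zero => simp [P]
  | succ n ih =>
    rw [Function.iterate_succ_apply', ← ih]
    simp [P, step, eval_comp]

lemma natDegree_P (f : K[X]) (hf : 2 ≤ f.natDegree) (t : K) (n : ℕ) :
    (P f t (n + 1)).natDegree = f.natDegree ^ n := by
  induction n with
  | zero =>
    have : P f t 1 = X + C (f.eval t) := by
      simp [P, comp_C, add_comm]
    rw [this]
    exact natDegree_X_add_C (f.eval t)
  | succ n ih =>
    have h1 : (f.comp (P f t (n + 1))).natDegree = f.natDegree ^ (n + 1) := by
      rw [natDegree_comp, ih]; ring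
    have h2 : 1 < (f.comp (P f t (n + 1))).natDegree := by
      rw [h1]
      calc 1 < 2 := by norm_num
        _ ≤ f.natDegree := hf
        _ = f.natDegree ^ 1 := (pow_one _).symm
        _ ≤ f.natDegree ^ (n + 1) := Nat.pow_le_pow_right (by omega) (by omega)
    rw [show P f t (n + 1 + 1) = f.comp (P f t (n + 1)) + X from rfl,
      natDegree_add_eq_left_of_natDegree_lt (by rwa [natDegree_X]), h1]

section trans

variable {f : K[X]} {c : K} (hc : ∀ x, f.eval (x + c) = f.eval x + c)

include hc

lemma step_add (l x : K) : step f l (x + c) = step f l x + c := by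
  unfold step; rw [hc]; ring

lemma iter_add (l x : K) (k : ℕ) : (step f l)^[k] (x + c) = (step f l)^[k] x + c := by
  induction k generalizing x with
  | zero => rfl
  | succ k ih => rw [Function.iterate_succ_apply, step_add hc, ih, ← Function.iterate_succ_apply]

lemma iter_add_int (l x : K) (k : ℕ) (j : ℤ) :
    (step f l)^[k] (x + j * c) = (step f l)^[k] x + j * c := by
  induction j using Int.induction_on with
  | zero => simp
  | succ j ih =>
    have : x + ((j + 1 : ℤ) : K) * c = (x + (j : ℤ) * c) + c := by push_cast; ring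
    push_cast at this ih ⊢
    rw [this, iter_add hc, ih]; ring
  | pred j ih =>
    have h := iter_add hc l (x + ((-(j:ℤ) - 1 : ℤ) : K) * c) k
    have e : x + ((-(j:ℤ) - 1 : ℤ) : K) * c + c = x + ((-(j:ℤ) : ℤ) : K) * c := by
      push_cast; ring
    rw [e, ih] at h
    have := sub_eq_iff_eq_add.mpr h
    rw [← this]; push_cast; ring

lemma iter_mul (l t : K) (k m : ℕ) (j : ℤ) (h : (step f l)^[k] t = t + j * c) :
    (step f l)^[k * m] t = t + ((j * m : ℤ) : K) * c := by
  induction m with
  | zero => simp
  | succ m ih =>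
    rw [Nat.mul_succ, Nat.add_comm, Function.iterate_add_apply, ih, iter_add_int hc, h]
    push_cast; ring

omit hc in
lemma comp_eq [Infinite K] (hc : ∀ x, f.eval (x + c) = f.eval x + c) :
    f.comp (X + C c) = f + C c := by
  apply Polynomial.funext
  intro x
  simp [eval_comp, hc]

lemma deriv_add [Infinite K] (x : K) :
    (derivative f).eval (x + c) = (derivative f).eval x := by
  have h := congrArg derivative (comp_eq hc)
  rw [derivative_comp] at h
  have h2 := congrArg (Polynomial.eval x) h
  simpa [eval_comp] using h2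

lemma deriv_add_int [Infinite K] (x : K) (j : ℤ) :
    (derivative f).eval (x + j * c) = (derivative f).eval x := by
  induction j using Int.induction_on with
  | zero => simp
  | succ j ih =>
    have : x + ((j + 1 : ℤ) : K) * c = (x + (j : ℤ) * c) + c := by push_cast; ring
    push_cast at this ih ⊢
    rw [this, deriv_add hc, ih]
  | pred j ih =>
    have h := deriv_add hc (x + ((-(j:ℤ) - 1 : ℤ) : K) * c)
    have e : x + ((-(j:ℤ) - 1 : ℤ) : K) * c + c = x + ((-(j:ℤ) : ℤ) : K) * c := by
      push_cast; ring
    rw [e, ih] at h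
    exact h.symm

/-- derivative in the parameter at a parameter for which `t` moves by a translation -/
lemma deriv_P [Infinite K] (t l : K) (j : ℤ) (h : step f l t = t + j * c) (n : ℕ) :
    (derivative (P f t n)).eval l = ∑ i ∈ Finset.range n, ((derivative f).eval t) ^ i := by
  induction n with
  | zero => simp [P]
  | succ n ih =>
    have hit : (step f l)^[n] t = t + ((j * n : ℤ) : K) * c := by
      have := iter_mul hc l t 1 n j (by simpa using h)
      simpa using this
    have h1 : derivative (P f t (n + 1)) = (derivative f).comp (P f t n) * derivative (P f t n) + 1 := by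
      simp only [P, derivative_add, derivative_comp, derivative_X]
      ring
    rw [h1, eval_add, eval_mul, eval_comp, eval_P, hit, deriv_add_int hc, ih, eval_one,
      Finset.sum_range_succ']
    rw [Finset.mul_sum]
    simp [pow_succ, mul_comm]

end trans

/-- a polynomial of degree at least two all whose roots are equal has vanishing derivative there -/
lemma deriv_of_single [IsAlgClosed K] {Q : K[X]} (hQ : 2 ≤ Q.natDegree) {r : K}
    (h : ∀ x, Q.eval x = 0 → x = r) : (derivative Q).eval r = 0 := by
  classical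
  have hQ0 : Q ≠ 0 := by rintro rfl; simp at hQ
  have hcard : Q.roots.card = Q.natDegree := (splits_iff_card_roots.mp (IsAlgClosed.splits Q))
  have hrep : Q.roots = Multiset.replicate Q.natDegree r := by
    rw [Multiset.eq_replicate]
    refine ⟨hcard, fun b hb => h b ?_⟩
    exact (mem_roots hQ0).mp hb
  have hm : Q.rootMultiplicity r = Q.natDegree := by
    rw [← count_roots, hrep, Multiset.count_replicate_self]
  have : 1 < Q.rootMultiplicity r := by omega
  exact ((one_lt_rootMultiplicity_iff_isRoot hQ0).mp this).2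

/-- The parameters `l` such that some iterate of `t` is `t - c`. -/
def S (f : K[X]) (c t : K) : Set K := {l | ∃ n : ℕ, 1 ≤ n ∧ (step f l)^[n] t = t - c}

theorem S_infinite [IsAlgClosed K] (p : ℕ) [Fact p.Prime] [CharP K p] {f : K[X]}
    (hf : 2 ≤ f.natDegree) {c : K} (hc0 : c ≠ 0) (hc : ∀ x, f.eval (x + c) = f.eval x + c) (t : K) :
    (S f c t).Infinite := by
  classical
  have : Infinite K := IsAlgClosed.instInfinite
  by_contra hfin
  rw [Set.not_infinite] at hfin
  -- minimal return times
  have hex : ∀ l ∈ S f c t, ∃ k : ℕ, 1 ≤ k ∧ (∃ j : ℤ, (step f l)^[k] t = t + j * c) ∧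
      ∀ k' : ℕ, 1 ≤ k' → (∃ j : ℤ, (step f l)^[k'] t = t + j * c) → k ≤ k' := by
    intro l hl
    obtain ⟨n, hn, hn2⟩ := hl
    have hex0 : ∃ k : ℕ, 1 ≤ k ∧ (∃ j : ℤ, (step f l)^[k] t = t + j * c) :=
      ⟨n, hn, -1, by rw [hn2]; push_cast; ring⟩
    refine ⟨Nat.find hex0, (Nat.find_spec hex0).1, (Nat.find_spec hex0).2, ?_⟩
    intro k' h1 h2
    exact Nat.find_min' hex0 ⟨h1, h2⟩
  choose! κ hκ using hex
  obtain ⟨B, hB⟩ : ∃ B : ℕ, ∀ l ∈ S f c t, κ l ≤ B := by
    obtain ⟨B, hB⟩ := (hfin.image κ).bddAbove
    exact ⟨B, fun l hl => hB ⟨l, hl, rfl⟩⟩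
  -- the derivative sum vanishes for every large prime
  have key : ∀ ℓ : ℕ, ℓ.Prime → B < ℓ → p < ℓ →
      ∑ i ∈ Finset.range ℓ, ((derivative f).eval t) ^ i = 0 := by
    intro ℓ hℓ hℓB hℓp
    have hℓK : (ℓ : K) ≠ 0 := by
      intro h0
      rw [CharP.cast_eq_zero_iff K p] at h0
      have := (Nat.prime_dvd_prime_iff_eq Fact.out hℓ).mp h0
      omega
    obtain ⟨m, rfl⟩ : ∃ m, ℓ = m + 1 := ⟨ℓ - 1, by have := hℓ.pos; omega⟩
    set Q : K[X] := P f t (m + 1) - C (t - c) with hQdef
    have hm : 1 ≤ m := by have := hℓ.two_le; omega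
    have hdegP : 2 ≤ (P f t (m + 1)).natDegree := by
      rw [natDegree_P f hf]
      calc 2 ≤ f.natDegree := hf
        _ = f.natDegree ^ 1 := (pow_one _).symm
        _ ≤ f.natDegree ^ m := Nat.pow_le_pow_right (by omega) hm
    have hdegQ : 2 ≤ Q.natDegree := by
      rw [hQdef, natDegree_sub_C]; exact hdegP
    -- all roots
    have hroots : ∀ x, Q.eval x = 0 → ∃ j : ℤ, step f x t = t + j * c ∧
        ((m + 1 : ℕ) : K) * j = -1 := by
      intro x hx
      have hx1 : (step f x)^[m + 1] t = t - c := by
        rw [hQdef, eval_sub, eval_C, eval_P, sub_eq_zero] at hx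
        exact hx
      have hxS : x ∈ S f c t := ⟨m + 1, by omega, hx1⟩
      obtain ⟨h1, ⟨j, h2⟩, h3⟩ := hκ x hxS
      have hdvd : κ x ∣ (m + 1) := by
        set k := κ x
        by_contra hnd
        have hr : 1 ≤ (m + 1) % k := by
          rcases Nat.eq_zero_or_pos ((m + 1) % k) with h | h
          · exact absurd (Nat.dvd_of_mod_eq_zero h) hnd
          · exact h
        have hrk : (m + 1) % k < k := Nat.mod_lt _ (by omega)
        have hdec : m + 1 = (m + 1) % k + k * ((m + 1) / k) := (Nat.mod_add_div _ _).symm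
        have h4 := hx1
        rw [hdec, Function.iterate_add_apply, iter_mul hc x t k _ j h2, iter_add_int hc] at h4
        have h5 : (step f x)^[(m + 1) % k] t = t + ((-1 - j * ((m + 1) / k : ℕ) : ℤ) : K) * c := by
          have := eq_sub_of_add_eq h4
          rw [this]; push_cast; ring
        exact absurd (h3 _ hr ⟨_, h5⟩) (by omega)
      have hk1 : κ x = 1 := by
        rcases (Nat.dvd_prime hℓ).mp hdvd with h | h
        · exact h
        · have := hB x hxS; omega
      rw [hk1] at h2
      have h2' : step f x t = t + j * c := by simpa using h2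
      refine ⟨j, h2', ?_⟩
      have h6 := iter_mul hc x t 1 (m + 1) j h2
      rw [one_mul, hx1] at h6
      have h7 : (((m + 1 : ℕ) : K) * j + 1) * c = 0 := by
        push_cast at h6 ⊢
        linear_combination -h6
      have h8 := (mul_eq_zero.mp h7).resolve_right hc0
      linear_combination h8
    -- there is a root
    obtain ⟨r, hr⟩ := IsAlgClosed.exists_root Q (by
      intro h0
      have h00 : Q.natDegree = 0 := natDegree_eq_of_degree_eq_some h0
      omega)
    obtain ⟨j, hj1, hj2⟩ := hroots r hr
    have huniq : ∀ x, Q.eval x = 0 → x = r := by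
      intro x hx
      obtain ⟨j', hj1', hj2'⟩ := hroots x hx
      have hjj : (j' : K) = j := mul_left_cancel₀ hℓK (hj2'.trans hj2.symm)
      unfold step at hj1 hj1'
      rw [hjj] at hj1'
      exact add_left_cancel (hj1'.trans hj1.symm)
    have hd := deriv_of_single hdegQ huniq
    rw [hQdef, derivative_sub, derivative_C, sub_zero, deriv_P hc t r j hj1] at hd
    exact hd
  obtain ⟨ℓ₁, h1, h1p⟩ := Nat.exists_infinite_primes (B + p + 1)
  obtain ⟨ℓ₂, h2, h2p⟩ := Nat.exists_infinite_primes (ℓ₁ + 1)
  have e1 := key ℓ₁ h1p (by omega) (by omega)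
  have e2 := key ℓ₂ h2p (by omega) (by omega)
  set F := (derivative f).eval t
  have g1 : F ^ ℓ₁ = 1 := by
    have := geom_sum_mul F ℓ₁
    rw [e1, zero_mul] at this
    exact (sub_eq_zero.mp this.symm)
  have g2 : F ^ ℓ₂ = 1 := by
    have := geom_sum_mul F ℓ₂
    rw [e2, zero_mul] at this
    exact (sub_eq_zero.mp this.symm)
  have hcop : Nat.Coprime ℓ₁ ℓ₂ := (Nat.coprime_primes h1p h2p).mpr (by omega)
  have hF1 : F = 1 := by
    have d1 := orderOf_dvd_of_pow_eq_one g1
    have d2 := orderOf_dvd_of_pow_eq_one g2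
    have d3 : orderOf F ∣ 1 := by
      rw [← hcop.gcd_eq_one]
      exact Nat.dvd_gcd d1 d2
    have := Nat.dvd_one.mp d3
    exact orderOf_eq_one_iff.mp this
  rw [hF1] at e1
  simp at e1
  rw [CharP.cast_eq_zero_iff K p] at e1
  have := (Nat.prime_dvd_prime_iff_eq Fact.out h1p).mp e1
  omega

end Pool.Agent.X88.Collide
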