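import Mathlib
import Pool.Agent.X88.Collide

/-!
Polynomials commuting with two independent translations: orbits which never meet.
-/

set_option autoImplicit false

open Polynomial

namespace Pool.Agent.X88.Collide

universe u

variable {K : Type u} [Field K]

theorem no_collision {f : K[X]} {a b : K} (ha : ∀ x, f.eval (x + a) = f.eval x + a)
    (hb : ∀ x, f.eval (x + b) = f.eval x + b)
    (hind : ∀ i j : ℤ, (i : K) * a + j * b = 0 → (i : K) = 0 ∧ (j : K) = 0) (l t : K) (m n : ℕ)
    (hm : 1 ≤ m) (hn : 1 ≤ n) (h1 : (step f l)^[m] t = t + b)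
    (h2 : (step f l)^[n] (t + a) = t + b) : False := by
  classical
  have hab : ∀ (x : K) (k : ℕ) (i j : ℤ),
      (step f l)^[k] (x + (i * a + j * b)) = (step f l)^[k] x + (i * a + j * b) := by
    intro x k i j
    rw [← add_assoc, iter_add_int hb, iter_add_int ha]; ring
  have h2' : (step f l)^[n] t = t + (((-1 : ℤ) : K) * a + ((1 : ℤ) : K) * b) := by
    rw [iter_add ha] at h2
    push_cast
    linear_combination h2
  have h1' : (step f l)^[m] t = t + (((0 : ℤ) : K) * a + ((1 : ℤ) : K) * b) := by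
    rw [h1]; push_cast; ring
  have hex : ∃ k : ℕ, 1 ≤ k ∧ ∃ i j : ℤ, (step f l)^[k] t = t + (i * a + j * b) :=
    ⟨m, hm, 0, 1, h1'⟩
  set k := Nat.find hex with hk
  obtain ⟨hk1, i₀, j₀, hk2⟩ := Nat.find_spec hex
  have hmin : ∀ k' : ℕ, 1 ≤ k' → (∃ i j : ℤ, (step f l)^[k'] t = t + (i * a + j * b)) → k ≤ k' :=
    fun k' h h' => Nat.find_min' hex ⟨h, h'⟩
  rw [← hk] at hk1 hk2
  set v : K := i₀ * a + j₀ * b with hv
  have hmul : ∀ q : ℕ, (step f l)^[k * q] t = t + q * v := by
    intro q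
    induction q with
    | zero => simp
    | succ q ih =>
      rw [Nat.mul_succ, Nat.add_comm, Function.iterate_add_apply, ih]
      have := hab t k (q * i₀) (q * j₀)
      rw [show ((q * i₀ : ℤ) : K) * a + ((q * j₀ : ℤ) : K) * b = q * v by
        rw [hv]; push_cast; ring] at this
      rw [this, hk2]; push_cast; ring
  have hall : ∀ k' : ℕ, ∀ i j : ℤ, (step f l)^[k'] t = t + (i * a + j * b) →
      ∃ q : ℕ, (i : K) * a + j * b = q * v := by
    intro k' i j h
    by_cases hr : k' % k = 0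
    · obtain ⟨q, rfl⟩ := Nat.dvd_of_mod_eq_zero hr
      exact ⟨q, by rw [hmul] at h; exact (add_left_cancel h).symm⟩
    · exfalso
      have hrk : k' % k < k := Nat.mod_lt _ (by omega)
      have hdec : k' = k' % k + k * (k' / k) := (Nat.mod_add_div _ _).symm
      rw [hdec, Function.iterate_add_apply, hmul] at h
      generalize hQ : k' / k = Q at h
      have h3 := hab t (k' % k) ((Q : ℤ) * i₀) ((Q : ℤ) * j₀)
      rw [show (((Q : ℤ) * i₀ : ℤ) : K) * a + (((Q : ℤ) * j₀ : ℤ) : K) * b =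
        (Q : K) * v by rw [hv]; push_cast; ring] at h3
      rw [h3] at h
      have h4 : (step f l)^[k' % k] t = t + (((i - (Q : ℤ) * i₀ : ℤ) : K) * a +
          ((j - (Q : ℤ) * j₀ : ℤ) : K) * b) := by
        rw [eq_sub_of_add_eq h, hv]; push_cast; ring
      have := hmin (k' % k) (by omega) ⟨_, _, h4⟩
      omega
  obtain ⟨q₁, e1⟩ := hall m _ _ h1'
  obtain ⟨q₂, e2⟩ := hall n _ _ h2'
  push_cast at e1 e2
  -- `b = q₁ v`, `a = (q₁ - q₂) v`
  have eb : b = q₁ * v := by linear_combination e1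
  have ea : a = ((q₁ : K) - q₂) * v := by linear_combination e1 - e2
  have hz := hind q₁ (-(q₁ - q₂)) (by
    push_cast
    rw [ea, eb]; ring)
  push_cast at hz
  have hb0 : b = 0 := by rw [eb, hz.1, zero_mul]
  have := hind 0 1 (by rw [hb0]; simp)
  simp at this

/-- a root of `x ^ p - x = u` with `u ^ p = - u`, `u ≠ 0` -/
theorem exists_quadratic [IsAlgClosed K] (p : ℕ) [Fact p.Prime] [CharP K p] :
    ∃ x : K, x ^ p ^ 2 = x ∧ x ^ p ≠ x := by
  have hp2 := (Fact.out : p.Prime).two_le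
  have hpp := (Fact.out : p.Prime)
  obtain ⟨u, hu⟩ : ∃ u : K, u ^ (p - 1) = -1 := by
    obtain ⟨u, hu⟩ := IsAlgClosed.exists_pow_nat_eq (-1 : K) (show 0 < p - 1 by omega)
    exact ⟨u, hu⟩
  have hu0 : u ≠ 0 := by
    rintro rfl
    rw [zero_pow (by omega)] at hu
    exact one_ne_zero (neg_eq_zero.mp hu.symm)
  have hup : u ^ p = -u := by
    obtain ⟨r, hr⟩ : ∃ r, p = r + 1 := ⟨p - 1, by omega⟩
    have : u ^ p = u ^ (p - 1) * u := by
      rw [← pow_succ]; congr 1; omega
    rw [this, hu]; ring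
  obtain ⟨x, hx⟩ : ∃ x : K, x ^ p - x = u := by
    have hA : (X ^ p - X : K[X]).natDegree = p := by
      have h1 : (X : K[X]).natDegree < (X ^ p : K[X]).natDegree := by
        rw [natDegree_X, natDegree_X_pow]; omega
      rw [natDegree_sub_eq_left_of_natDegree_lt h1, natDegree_X_pow]
    have hd : (X ^ p - X - C u : K[X]).degree ≠ 0 := by
      intro h0
      have h00 : (X ^ p - X - C u : K[X]).natDegree = 0 := natDegree_eq_of_degree_eq_some h0
      rw [natDegree_sub_C, hA] at h00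
      omega
    obtain ⟨x, hx⟩ := IsAlgClosed.exists_root _ hd
    refine ⟨x, ?_⟩
    simp only [IsRoot, eval_sub, eval_pow, eval_X, eval_C] at hx
    exact sub_eq_zero.mp hx
  refine ⟨x, ?_, ?_⟩
  · have h1 : x ^ p = x + u := by linear_combination hx
    rw [pow_two, pow_mul, h1, add_pow_char, h1, hup]; ring
  · intro h
    apply hu0
    rw [← hx, h, sub_self]

end Pool.Agent.X88.Collide
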