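import Mathlib

set_option autoImplicit false

namespace Pool.Agent.X88.Bessel

/-- auxiliary series -/
noncomputable def G (ν Y : ℝ) : ℝ :=
  ∑' n : ℕ, Y ^ n / ((n.factorial : ℝ) * Real.Gamma (n + ν + 1))

lemma gam_pos {ν : ℝ} (hν : -1 < ν) (n : ℕ) : 0 < Real.Gamma (n + ν + 1) := by
  apply Real.Gamma_pos_of_pos
  have : (0:ℝ) ≤ n := Nat.cast_nonneg n
  linarith

lemma gam_bound {ν : ℝ} (hν : -1 < ν) :
    ∃ K : ℝ, 0 < K ∧ ∀ n : ℕ, (Real.Gamma (n + ν + 1))⁻¹ ≤ K := by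
  have h0 : 0 < (Real.Gamma (ν + 1))⁻¹ := inv_pos.2 (Real.Gamma_pos_of_pos (by linarith))
  have h1 : 0 < (Real.Gamma (1 + ν + 1))⁻¹ := inv_pos.2 (Real.Gamma_pos_of_pos (by linarith))
  refine ⟨(Real.Gamma (ν + 1))⁻¹ + (Real.Gamma (1 + ν + 1))⁻¹, by positivity, ?_⟩
  have key : ∀ n : ℕ, (Real.Gamma ((n + 1 : ℕ) + ν + 1))⁻¹ ≤ (Real.Gamma (1 + ν + 1))⁻¹ := by
    intro n
    induction n with
    | zero => simp
    | succ n ih =>
      refine le_trans ?_ ih
      have e : Real.Gamma (((n + 1 + 1 : ℕ) : ℝ) + ν + 1)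
          = (((n + 1 : ℕ) : ℝ) + ν + 1) * Real.Gamma (((n + 1 : ℕ) : ℝ) + ν + 1) := by
        rw [← Real.Gamma_add_one]
        · congr 1; push_cast; ring
        · have : (0:ℝ) ≤ n := Nat.cast_nonneg n
          push_cast; linarith
      rw [e]
      have hp := gam_pos hν (n + 1)
      apply inv_anti₀ hp
      have : (0:ℝ) ≤ n := Nat.cast_nonneg n
      have h2 : (1:ℝ) ≤ ((n + 1 : ℕ) : ℝ) + ν + 1 := by push_cast; linarith
      nlinarith
  intro n
  rcases n with _ | n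
  · simp only [Nat.cast_zero, zero_add]; linarith
  · have := key n
    linarith

lemma term_bound {ν : ℝ} (hν : -1 < ν) {K : ℝ}
    (hK : ∀ n : ℕ, (Real.Gamma (n + ν + 1))⁻¹ ≤ K) (n : ℕ) (Y R : ℝ) (h : |Y| ≤ R) :
    ‖Y ^ n / ((n.factorial : ℝ) * Real.Gamma (n + ν + 1))‖ ≤ K * (R ^ n / n.factorial) := by
  have hg := gam_pos hν n
  have hf : (0:ℝ) < n.factorial := by exact_mod_cast Nat.factorial_pos n
  have hd : 0 < (n.factorial : ℝ) * Real.Gamma (n + ν + 1) := mul_pos hf hg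
  rw [norm_div, norm_pow, Real.norm_eq_abs, Real.norm_eq_abs, abs_of_pos hd]
  calc |Y| ^ n / (n.factorial * Real.Gamma (n + ν + 1))
      = (Real.Gamma (n + ν + 1))⁻¹ * (|Y| ^ n / n.factorial) := by field_simp
    _ ≤ K * (R ^ n / n.factorial) := by
        apply mul_le_mul (hK n) _ (by positivity) (le_trans (by positivity) (hK n))
        gcongr

lemma G_summable {ν : ℝ} (hν : -1 < ν) (Y : ℝ) :
    Summable (fun n : ℕ => Y ^ n / ((n.factorial : ℝ) * Real.Gamma (n + ν + 1))) := by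
  obtain ⟨K, _, hK⟩ := gam_bound hν
  exact Summable.of_norm_bounded ((Real.summable_pow_div_factorial |Y|).mul_left K)
    (fun n => term_bound hν hK n Y |Y| le_rfl)

lemma term_shift {ν : ℝ} (hν : -1 < ν) (n : ℕ) (Y : ℝ) :
    ((n + 1 : ℕ) : ℝ) * Y ^ (n + 1 - 1) /
        (((n + 1).factorial : ℝ) * Real.Gamma (((n + 1 : ℕ) : ℝ) + ν + 1))
      = Y ^ n / ((n.factorial : ℝ) * Real.Gamma (n + (ν + 1) + 1)) := by
  rw [Nat.factorial_succ, Nat.add_sub_cancel]
  have e : (((n + 1 : ℕ) : ℝ) + ν + 1) = n + (ν + 1) + 1 := by push_cast; ring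
  rw [e]
  have h1 : ((n : ℝ) + 1) ≠ 0 := by exact_mod_cast Nat.succ_ne_zero n
  have h2 : ((n.factorial : ℕ) : ℝ) ≠ 0 := by exact_mod_cast Nat.factorial_ne_zero n
  have h3 := (gam_pos (ν := ν + 1) (by linarith) n).ne'
  push_cast
  field_simp

lemma G_hasDerivAt {ν : ℝ} (hν : -1 < ν) (Y : ℝ) : HasDerivAt (G ν) (G (ν + 1) Y) Y := by
  obtain ⟨K, hK0, hK⟩ := gam_bound (ν := ν + 1) (by linarith)
  set R : ℝ := |Y| + 1 with hR
  have hR0 : 0 ≤ R := by positivity
  have hYR : Y ∈ Metric.ball (0:ℝ) R := by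
    rw [Metric.mem_ball, dist_zero_right, hR, Real.norm_eq_abs]; linarith
  have key : HasDerivAt
      (fun z => ∑' n : ℕ, z ^ n / ((n.factorial : ℝ) * Real.Gamma (n + ν + 1)))
      (∑' n : ℕ, (n : ℝ) * Y ^ (n - 1) / ((n.factorial : ℝ) * Real.Gamma (n + ν + 1))) Y := by
    refine hasDerivAt_tsum_of_isPreconnected
      (g := fun (n : ℕ) (z : ℝ) => z ^ n / ((n.factorial : ℝ) * Real.Gamma (n + ν + 1)))
      (g' := fun (n : ℕ) (z : ℝ) =>
        (n : ℝ) * z ^ (n - 1) / ((n.factorial : ℝ) * Real.Gamma (n + ν + 1)))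
      (u := fun n : ℕ => K * (R ^ (n - 1) / ((n - 1).factorial : ℝ))) (t := Metric.ball 0 R)
      (y₀ := Y) (y := Y) ?_ Metric.isOpen_ball (convex_ball _ _).isPreconnected ?_ ?_ hYR
      (G_summable hν Y) hYR
    · rw [← summable_nat_add_iff 1]
      simpa using (Real.summable_pow_div_factorial R).mul_left K
    · intro n y _
      exact (hasDerivAt_pow n y).div_const _
    · intro n y hy
      have hy' : |y| ≤ R := by
        have := Metric.mem_ball.1 hy
        rw [dist_zero_right, Real.norm_eq_abs] at this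
        exact this.le
      rcases n with _ | n
      · simp; positivity
      · rw [term_shift hν]
        simpa using term_bound (ν := ν + 1) (by linarith) hK n y R hy'
  have e2 : (∑' n : ℕ, (n : ℝ) * Y ^ (n - 1) / ((n.factorial : ℝ) * Real.Gamma (n + ν + 1)))
      = G (ν + 1) Y := by
    have hs : Summable (fun n : ℕ =>
        (n : ℝ) * Y ^ (n - 1) / ((n.factorial : ℝ) * Real.Gamma (n + ν + 1))) := by
      rw [← summable_nat_add_iff 1]
      refine (G_summable (ν := ν + 1) (by linarith) Y).congr ?_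
      intro n
      rw [term_shift hν]
    rw [hs.tsum_eq_zero_add]
    unfold G
    simp only [Nat.cast_zero, zero_mul, zero_div, zero_add]
    refine tsum_congr ?_
    intro n
    rw [term_shift hν]
  rw [e2] at key
  exact key

lemma G_rec {ν : ℝ} (hν : 0 < ν) (Y : ℝ) :
    G (ν - 1) Y = ν * G ν Y + Y * G (ν + 1) Y := by
  have h0 := G_summable (ν := ν - 1) (by linarith) Y
  have h1 := G_summable (ν := ν) (by linarith) Y
  have h2 := G_summable (ν := ν + 1) (by linarith) Y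
  have e0 : G (ν - 1) Y = _ := h0.tsum_eq_zero_add
  have e1 : ν * G ν Y = ∑' n : ℕ, ν * (Y ^ n / ((n.factorial : ℝ) * Real.Gamma (n + ν + 1))) :=
    (tsum_mul_left).symm
  rw [(h1.mul_left ν).tsum_eq_zero_add] at e1
  have e2 : Y * G (ν + 1) Y
      = ∑' n : ℕ, Y * (Y ^ n / ((n.factorial : ℝ) * Real.Gamma (n + (ν + 1) + 1))) :=
    (tsum_mul_left).symm
  have s1 := (summable_nat_add_iff 1).2 (h1.mul_left ν)
  have s2 := h2.mul_left Y
  have e3 := s1.tsum_add s2
  rw [e0, e1, e2, add_assoc (ν * _), ← e3]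
  congr 1
  · simp only [pow_zero, Nat.cast_zero, zero_add, Nat.factorial_zero, Nat.cast_one, one_mul]
    have e : Real.Gamma (ν + 1) = ν * Real.Gamma ν := Real.Gamma_add_one hν.ne'
    have hg : 0 < Real.Gamma ν := Real.Gamma_pos_of_pos hν
    rw [e, show ν - 1 + 1 = ν by ring]
    field_simp
  · refine tsum_congr ?_
    intro n
    have hn : (0:ℝ) ≤ n := Nat.cast_nonneg n
    have h1 : ((n : ℝ) + 1) ≠ 0 := by exact_mod_cast Nat.succ_ne_zero n
    have h2 : ((n.factorial : ℕ) : ℝ) ≠ 0 := by exact_mod_cast Nat.factorial_ne_zero n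
    have a1 : (((n + 1 : ℕ) : ℝ) + (ν - 1) + 1) = n + ν + 1 := by push_cast; ring
    have a2 : (((n + 1 : ℕ) : ℝ) + ν + 1) = (n + ν + 1) + 1 := by push_cast; ring
    have a3 : ((n : ℝ) + (ν + 1) + 1) = (n + ν + 1) + 1 := by ring
    have hg := gam_pos (ν := ν) (by linarith) n
    have e : Real.Gamma ((n + ν + 1 : ℝ) + 1) = (n + ν + 1) * Real.Gamma (n + ν + 1) :=
      Real.Gamma_add_one (by positivity)
    rw [a1, a2, a3, e, Nat.factorial_succ]
    have h4 : (n + ν + 1 : ℝ) ≠ 0 := by positivity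
    have hg' := hg.ne'
    push_cast
    field_simp
    ring

/-- The Bessel function of the first kind of real order, by its power series. -/
noncomputable def besselJ (ν x : ℝ) : ℝ :=
  ∑' n : ℕ, (-1) ^ n / ((n.factorial : ℝ) * Real.Gamma (n + ν + 1)) * (x / 2) ^ (2 * (n : ℝ) + ν)

lemma besselJ_eq (ν : ℝ) {x : ℝ} (hx : 0 < x) :
    besselJ ν x = (x / 2) ^ ν * G ν (-(x ^ 2 / 4)) := by
  unfold besselJ G
  rw [← tsum_mul_left]
  refine tsum_congr ?_
  intro n
  have h1 : (x / 2) ^ (2 * (n : ℝ) + ν) = (x / 2) ^ ν * ((x / 2) ^ 2) ^ n := by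
    rw [Real.rpow_add (by positivity), ← pow_mul]
    rw [show (2 * (n:ℝ)) = ((2 * n : ℕ) : ℝ) by push_cast; ring, Real.rpow_natCast]
    ring
  have h2 : (-(x ^ 2 / 4)) ^ n = (-1 : ℝ) ^ n * ((x / 2) ^ 2) ^ n := by
    rw [← mul_pow]; congr 1; ring
  rw [h1, h2]
  ring

end Pool.Agent.X88.Bessel
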