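import Pool.Agent.X88.BesselA

set_option autoImplicit false

namespace Pool.Agent.X88.Bessel

open Set Filter Topology

/-- the even part of the Bessel function, in the variable `t = x ^ 2 / 4` -/
noncomputable def A (ν t : ℝ) : ℝ := G ν (-t)

lemma A_der {ν : ℝ} (hν : -1 < ν) (t : ℝ) : HasDerivAt (A ν) (-A (ν + 1) t) t := by
  have h := (G_hasDerivAt hν (-t)).comp t (hasDerivAt_neg t)
  have e : A ν = fun x => G ν (-x) := rfl
  rw [e]
  refine h.congr_deriv ?_
  simp [A]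

lemma A_cont {ν : ℝ} (hν : -1 < ν) : Continuous (A ν) :=
  continuous_iff_continuousAt.2 fun t => (A_der hν t).continuousAt

lemma A_rec {ν : ℝ} (hν : 0 < ν) (t : ℝ) :
    A (ν - 1) t = ν * A ν t - t * A (ν + 1) t := by
  unfold A
  rw [G_rec hν]; ring

lemma A_zero (ν : ℝ) : A ν 0 = (Real.Gamma (ν + 1))⁻¹ := by
  unfold A G
  rw [tsum_eq_single 0]
  · simp
  · intro n hn
    simp [hn]

lemma A_zero_pos {ν : ℝ} (hν : -1 < ν) : 0 < A ν 0 := by
  rw [A_zero ν]
  exact inv_pos.2 (Real.Gamma_pos_of_pos (by linarith))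

lemma A_zero_succ {ν : ℝ} (hν : -1 < ν) : A ν 0 = (ν + 1) * A (ν + 1) 0 := by
  rw [A_zero, A_zero, Real.Gamma_add_one (by linarith : ν + 1 ≠ 0)]
  have : 0 < Real.Gamma (ν + 1) := Real.Gamma_pos_of_pos (by linarith)
  have h2 : ν + 1 ≠ 0 := by linarith
  field_simp

lemma B_der {ν : ℝ} (hν : -1 < ν) {t : ℝ} (ht : 0 < t) :
    HasDerivAt (A (ν + 1)) ((A ν t - (ν + 1) * A (ν + 1) t) / t) t := by
  have h := A_der (ν := ν + 1) (by linarith) t
  have hr := A_rec (ν := ν + 1) (by linarith) t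
  rw [show ν + 1 - 1 = ν by ring] at hr
  convert h using 1
  rw [hr]
  field_simp
  ring

/-- energy bound -/
lemma A_le {ν : ℝ} (hν : -1 / 2 ≤ ν) {t : ℝ} (ht : 0 ≤ t) : |A ν t| ≤ A ν 0 := by
  have hν1 : -1 < ν := by linarith
  have hcont : Continuous (fun t => A ν t ^ 2 + t * A (ν + 1) t ^ 2) :=
    ((A_cont hν1).pow 2).add (continuous_id.mul ((A_cont (by linarith)).pow 2))
  have hanti : AntitoneOn (fun t => A ν t ^ 2 + t * A (ν + 1) t ^ 2) (Ici 0) := by
    apply antitoneOn_of_deriv_nonpos (convex_Ici 0) hcont.continuousOn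
    · intro x hx
      rw [interior_Ici] at hx
      exact ((((A_der hν1 x).pow 2).add ((hasDerivAt_id x).mul
        ((B_der hν1 hx).pow 2))).differentiableAt).differentiableWithinAt
    · intro x hx
      rw [interior_Ici] at hx
      have hx' : (0:ℝ) < x := hx
      have h := ((A_der hν1 x).pow 2).add ((hasDerivAt_id x).mul ((B_der hν1 hx).pow 2))
      have e : (fun t => A ν t ^ 2 + t * A (ν + 1) t ^ 2)
        = ((A ν) ^ 2 + id * (A (ν + 1)) ^ 2) := by
        funext s; simp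
      rw [e, h.deriv]
      simp only [id, Pi.pow_apply]
      have : (↑(2:ℕ) * A ν x ^ (2 - 1) * -A (ν + 1) x +
        (1 * A (ν + 1) x ^ 2 + x * (↑(2:ℕ) * A (ν + 1) x ^ (2 - 1)
          * ((A ν x - (ν + 1) * A (ν + 1) x) / x))))
        = -(2 * ν + 1) * A (ν + 1) x ^ 2 := by
        push_cast
        field_simp
        ring
      rw [this]
      nlinarith [sq_nonneg (A (ν + 1) x)]
  have h := hanti (mem_Ici.2 le_rfl) (mem_Ici.2 ht) ht
  simp only [zero_mul, add_zero] at h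
  have h0 := A_zero_pos hν1
  have h3 : A ν t ^ 2 ≤ A ν 0 ^ 2 := by
    have : 0 ≤ t * A (ν + 1) t ^ 2 := by positivity
    linarith
  exact abs_le_of_sq_le_sq h3 h0.le

lemma A_pos_small {ν : ℝ} (hν : 0 < ν) {t : ℝ} (ht : 0 ≤ t) (ht2 : t < ν + 1) : 0 < A ν t := by
  have hν1 : -1 < ν := by linarith
  have hmono : MonotoneOn (fun t => A ν t + t * A (ν + 1) 0) (Ici 0) := by
    have hd : ∀ x : ℝ, HasDerivAt (fun t => A ν t + t * A (ν + 1) 0)
        (-A (ν + 1) x + 1 * A (ν + 1) 0) x := fun x =>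
      (A_der hν1 x).add ((hasDerivAt_id x).mul_const _)
    apply monotoneOn_of_deriv_nonneg (convex_Ici 0)
    · exact (continuous_iff_continuousAt.2 fun x => (hd x).continuousAt).continuousOn
    · intro x _
      exact (hd x).differentiableAt.differentiableWithinAt
    · intro x hx
      rw [interior_Ici] at hx
      rw [(hd x).deriv]
      have := A_le (ν := ν + 1) (by linarith) (t := x) (le_of_lt hx)
      have h2 := le_abs_self (A (ν + 1) x)
      linarith
  have h := hmono (mem_Ici.2 le_rfl) (mem_Ici.2 ht) ht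
  simp only [zero_mul, add_zero] at h
  have h0 := A_zero_succ hν1
  have h1 := A_zero_pos (ν := ν + 1) (by linarith)
  nlinarith

/-- the reduced Turan determinant -/
noncomputable def D (ν t : ℝ) : ℝ :=
  A ν t ^ 2 - ν * A ν t * A (ν + 1) t + t * A (ν + 1) t ^ 2

lemma D_der {ν : ℝ} (hν : 0 < ν) {t : ℝ} (ht : 0 < t) :
    HasDerivAt (D ν) (-((ν + 1) / t) * D ν t + A ν t ^ 2 / t) t := by
  have hν1 : -1 < ν := by linarith
  have hA := A_der hν1 t
  have hB := B_der hν1 ht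
  have h := (((hA.pow 2).sub ((hA.const_mul ν).mul hB)).add ((hasDerivAt_id t).mul (hB.pow 2)))
  have e : D ν = (((A ν) ^ 2 - (fun y => ν * A ν y) * A (ν + 1)) + id * (A (ν + 1)) ^ 2) := by
    funext s; simp [D]
  rw [e]
  refine h.congr_deriv ?_
  simp only [id, Pi.pow_apply, Pi.add_apply, Pi.sub_apply, Pi.mul_apply]
  push_cast
  field_simp
  ring

lemma D_cont {ν : ℝ} (hν : 0 < ν) : Continuous (D ν) := by
  have h1 := A_cont (ν := ν) (by linarith)
  have h2 := A_cont (ν := ν + 1) (by linarith)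
  unfold D
  fun_prop

lemma D_pos {ν : ℝ} (hν : 0 < ν) {t : ℝ} (ht : 0 < t) : 0 < D ν t := by
  have hν1 : -1 < ν := by linarith
  have h0 : 0 < D ν 0 := by
    unfold D
    have h0 := A_zero_succ hν1
    have h1 := A_zero_pos (ν := ν + 1) (by linarith)
    rw [h0]
    nlinarith [mul_pos h1 h1]
  have hev : ∀ᶠ s in 𝓝[>] (0:ℝ), 0 < D ν s :=
    ((D_cont hν).continuousAt.eventually (lt_mem_nhds h0)).filter_mono nhdsWithin_le_nhds
  have hev2 : ∀ᶠ s in 𝓝[>] (0:ℝ), s ∈ Ioo 0 t := Ioo_mem_nhdsGT ht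
  obtain ⟨s, hs1, hs2⟩ := (hev.and hev2).exists
  have hd : ∀ x ∈ Ioi (0:ℝ), HasDerivAt (fun t => t ^ (ν + 1) * D ν t) (x ^ ν * A ν x ^ 2) x := by
    intro x hx
    have hx' : (0:ℝ) < x := hx
    have h := (Real.hasDerivAt_rpow_const (x := x) (p := ν + 1) (Or.inl hx'.ne')).mul (D_der hν hx')
    refine h.congr_deriv ?_
    rw [show ν + 1 - 1 = ν by ring, Real.rpow_add_one hx'.ne']
    field_simp
    ring
  have hmono : MonotoneOn (fun t => t ^ (ν + 1) * D ν t) (Ioi 0) := by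
    apply monotoneOn_of_deriv_nonneg (convex_Ioi 0)
    · intro x hx
      exact (hd x hx).continuousAt.continuousWithinAt
    · intro x hx
      rw [interior_Ioi] at hx
      exact (hd x hx).differentiableAt.differentiableWithinAt
    · intro x hx
      rw [interior_Ioi] at hx
      rw [(hd x hx).deriv]
      have hx' : (0:ℝ) < x := hx
      positivity
  have h := hmono (show s ∈ Ioi (0:ℝ) from hs2.1) (show t ∈ Ioi (0:ℝ) from ht) hs2.2.le
  simp only at h
  have h2 : 0 < s ^ (ν + 1) * D ν s := mul_pos (Real.rpow_pos_of_pos hs2.1 _) hs1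
  have h3 : 0 < t ^ (ν + 1) * D ν t := lt_of_lt_of_le h2 h
  exact (pos_iff_pos_of_mul_pos h3).1 (Real.rpow_pos_of_pos ht _)

lemma B_ne {ν : ℝ} (hν : 0 < ν) {t : ℝ} (ht : 0 < t) (h : A ν t = 0) : A (ν + 1) t ≠ 0 := by
  intro h2
  have := D_pos hν ht
  unfold D at this
  rw [h, h2] at this
  simp at this

/-- the logarithmic derivative `x J' / J` -/
noncomputable def S (ν t : ℝ) : ℝ := ν - 2 * t * A (ν + 1) t / A ν t

/-- the ratio -/
noncomputable def P (ν t : ℝ) : ℝ := D ν t / A ν t ^ 2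

lemma P_pos {ν : ℝ} (hν : 0 < ν) {t : ℝ} (ht : 0 < t) (hA : A ν t ≠ 0) : 0 < P ν t :=
  div_pos (D_pos hν ht) (by positivity)

lemma P_rel {ν : ℝ} (t : ℝ) (hA : A ν t ≠ 0) :
    4 * t * P ν t = 4 * t - ν ^ 2 + S ν t ^ 2 := by
  unfold P S D
  field_simp
  ring

lemma S_der {ν : ℝ} (hν : 0 < ν) {t : ℝ} (ht : 0 < t) (hA : A ν t ≠ 0) :
    HasDerivAt (S ν) (-2 * P ν t) t := by
  have hν1 : -1 < ν := by linarith
  have hAd := A_der hν1 t
  have hB := B_der hν1 ht
  have h := ((((hasDerivAt_id t).const_mul 2).mul hB).div hAd hA).const_sub ν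
  refine h.congr_deriv ?_
  unfold P D
  simp only [id, Pi.mul_apply]
  field_simp
  ring

lemma P_der {ν : ℝ} (hν : 0 < ν) {t : ℝ} (ht : 0 < t) (hA : A ν t ≠ 0) :
    HasDerivAt (P ν) ((1 - (1 + S ν t) * P ν t) / t) t := by
  have hν1 : -1 < ν := by linarith
  have hAd := A_der hν1 t
  have hD := D_der hν ht
  have h := hD.div (hAd.pow 2) (pow_ne_zero 2 hA)
  have e : P ν = D ν / (A ν) ^ 2 := by funext s; simp [P]
  rw [← e] at h
  refine h.congr_deriv ?_
  unfold P S
  simp only [Pi.pow_apply]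
  push_cast
  field_simp
  ring

/-- the monotone quantity -/
noncomputable def M (ν t : ℝ) : ℝ := t ^ (ν + 1) * A ν t ^ 2 * (1 - (1 + S ν t) * P ν t)

lemma M_der {ν : ℝ} (hν : 0 < ν) {t : ℝ} (ht : 0 < t) (hA : A ν t ≠ 0) :
    HasDerivAt (M ν) (2 * t ^ (ν + 1) * A ν t ^ 2 * P ν t ^ 2) t := by
  have hν1 : -1 < ν := by linarith
  have hAd := A_der hν1 t
  have h1 := (Real.hasDerivAt_rpow_const (x := t) (p := ν + 1) (Or.inl ht.ne')).mul (hAd.pow 2)
  have h2 := (((S_der hν ht hA).const_add 1).mul (P_der hν ht hA)).const_sub 1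
  have h := h1.mul h2
  have e : M ν = ((fun t => t ^ (ν + 1)) * (A ν) ^ 2) *
      (fun t => 1 - ((fun t => 1 + S ν t) * P ν) t) := by
    funext s; simp [M]
  rw [e]
  refine h.congr_deriv ?_
  simp only [Pi.pow_apply, Pi.mul_apply]
  rw [show ν + 1 - 1 = ν by ring, Real.rpow_add_one ht.ne']
  have hS : 2 * t * A (ν + 1) t = (ν - S ν t) * A ν t := by
    unfold S
    field_simp
    ring
  have hS2 : A (ν + 1) t = (ν - S ν t) * A ν t / (2 * t) := by
    field_simp; linarith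
  rw [hS2]
  push_cast
  field_simp
  ring

end Pool.Agent.X88.Bessel
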