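import Pool.Agent.X88.BesselB

set_option autoImplicit false

namespace Pool.Agent.X88.Bessel

open Set Filter Topology

lemma crit_facts {ν : ℝ} (hν : 0 < ν) {t : ℝ} (ht1 : 1 ≤ t) (hA : A ν t ≠ 0)
    (hc : (1 + S ν t) * P ν t = 1) :
    0 < S ν t ∧ S ν t < ν ∧ 4 * t * S ν t = (ν ^ 2 - S ν t ^ 2) * (1 + S ν t) ∧
      P ν t = 1 / (1 + S ν t) := by
  have ht : 0 < t := by linarith
  have hP := P_pos hν ht hA
  have hS1 : 0 < 1 + S ν t := by
    by_contra h
    push Not at h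
    nlinarith
  have hrel := P_rel (ν := ν) t hA
  have h4 : 4 * t * S ν t = (ν ^ 2 - S ν t ^ 2) * (1 + S ν t) := by
    have : (1 + S ν t) * (4 * t * P ν t) = (1 + S ν t) * (4 * t - ν ^ 2 + S ν t ^ 2) := by
      rw [hrel]
    have h2 : (1 + S ν t) * (4 * t * P ν t) = 4 * t := by
      calc (1 + S ν t) * (4 * t * P ν t) = 4 * t * ((1 + S ν t) * P ν t) := by ring
        _ = 4 * t := by rw [hc, mul_one]
    linarith
  have hS : 0 < S ν t := by
    by_contra h
    push Not at h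
    have h5 : (ν ^ 2 - S ν t ^ 2) * (1 + S ν t) ≤ 0 := by
      rw [← h4]
      nlinarith
    have h6 : ν ^ 2 - S ν t ^ 2 ≤ 0 := by
      by_contra h7
      push Not at h7
      nlinarith
    have h7 : S ν t < 0 := by
      rcases lt_or_eq_of_le h with h8 | h8
      · exact h8
      · rw [h8] at h6
        nlinarith
    nlinarith [mul_pos_of_neg_of_neg h7 h7, mul_pos hS1 hS1]
  have hS' : S ν t < ν := by
    have h5 : 0 < (ν ^ 2 - S ν t ^ 2) * (1 + S ν t) := by
      rw [← h4]; positivity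
    have h6 : 0 < ν ^ 2 - S ν t ^ 2 := (pos_iff_pos_of_mul_pos h5).2 hS1
    by_contra h7
    push Not at h7
    nlinarith
  refine ⟨hS, hS', h4, ?_⟩
  field_simp
  linarith

lemma crit_compare {ν : ℝ} (hν : 0 < ν) {t t' : ℝ} (ht1 : 1 ≤ t) (htt : t < t')
    (hA : A ν t ≠ 0) (hA' : A ν t' ≠ 0)
    (hc : (1 + S ν t) * P ν t = 1) (hc' : (1 + S ν t') * P ν t' = 1) :
    P ν t < P ν t' := by
  obtain ⟨a1, a2, a3, a4⟩ := crit_facts hν ht1 hA hc
  obtain ⟨b1, b2, b3, b4⟩ := crit_facts hν (by linarith) hA' hc'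
  have key : S ν t' < S ν t := by
    by_contra h
    push Not at h
    set a := S ν t
    set b := S ν t'
    have h1 : 0 < ν ^ 2 - b ^ 2 := by nlinarith
    have h2 : ν ^ 2 - b ^ 2 ≤ ν ^ 2 - a ^ 2 := by nlinarith
    have h3 : a + a * b ≤ b + a * b := by linarith
    have h4 : (ν ^ 2 - b ^ 2) * (a + a * b) ≤ (ν ^ 2 - a ^ 2) * (b + a * b) :=
      mul_le_mul h2 h3 (by positivity) (by linarith)
    have h5 : 4 * t' * (a * b) ≤ 4 * t * (a * b) := by
      calc 4 * t' * (a * b) = (4 * t' * b) * a := by ring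
        _ = (ν ^ 2 - b ^ 2) * (a + a * b) := by rw [b3]; ring
        _ ≤ (ν ^ 2 - a ^ 2) * (b + a * b) := h4
        _ = (4 * t * a) * b := by rw [a3]; ring
        _ = 4 * t * (a * b) := by ring
    have h6 : 0 < a * b := mul_pos a1 b1
    nlinarith
  rw [a4, b4]
  apply one_div_lt_one_div_of_lt <;> linarith

lemma crit_unique {ν : ℝ} (hν : 0 < ν) {p q : ℝ} (hp : 0 < p)
    (hne : ∀ t ∈ Ioo p q, A ν t ≠ 0) {c d : ℝ} (hc : c ∈ Ioo p q) (hd : d ∈ Ioo p q)
    (h1 : (1 + S ν c) * P ν c = 1) (h2 : (1 + S ν d) * P ν d = 1) : c = d := by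
  have hmono : StrictMonoOn (M ν) (Ioo p q) := by
    apply strictMonoOn_of_deriv_pos (convex_Ioo p q)
    · intro x hx
      exact (M_der hν (hp.trans hx.1) (hne x hx)).continuousAt.continuousWithinAt
    · intro x hx
      rw [interior_Ioo] at hx
      rw [(M_der hν (hp.trans hx.1) (hne x hx)).deriv]
      have hx0 : 0 < x := hp.trans hx.1
      have h3 := P_pos hν hx0 (hne x hx)
      have h4 : 0 < A ν x ^ 2 := by have := hne x hx; positivity
      positivity
  refine hmono.injOn hc hd ?_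
  unfold M
  rw [h1, h2]
  simp

lemma crit_exists {ν : ℝ} (hν : 0 < ν) {p q : ℝ} (hp : 0 < p) (hpq : p < q)
    (hAp : A ν p = 0) (hAq : A ν q = 0)
    (hne : ∀ t ∈ Ioo p q, A ν t ≠ 0) : ∃ c ∈ Ioo p q, (1 + S ν c) * P ν c = 1 := by
  have hν1 : -1 < ν := by linarith
  have hder : ∀ x : ℝ, 0 < x → HasDerivAt (fun t => A ν t ^ 2 / D ν t)
      ((2 * A ν x * (-A (ν + 1) x) * D ν x
        - A ν x ^ 2 * (-((ν + 1) / x) * D ν x + A ν x ^ 2 / x)) / D ν x ^ 2) x := by
    intro x hx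
    have h := ((A_der hν1 x).pow 2).div (D_der hν hx) (D_pos hν hx).ne'
    have e : (fun t => A ν t ^ 2 / D ν t) = (A ν) ^ 2 / D ν := by funext s; simp
    rw [e]
    refine h.congr_deriv ?_
    simp only [Pi.pow_apply]
    push_cast
    ring
  obtain ⟨c, hc, h0⟩ := exists_hasDerivAt_eq_zero hpq (f := fun t => A ν t ^ 2 / D ν t)
    (f' := fun x => (2 * A ν x * (-A (ν + 1) x) * D ν x
        - A ν x ^ 2 * (-((ν + 1) / x) * D ν x + A ν x ^ 2 / x)) / D ν x ^ 2)
    (fun x hx => (hder x (lt_of_lt_of_le hp hx.1)).continuousAt.continuousWithinAt)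
    (by simp [hAp, hAq])
    (fun x hx => hder x (hp.trans hx.1))
  refine ⟨c, hc, ?_⟩
  have hc0 : 0 < c := hp.trans hc.1
  have hD := D_pos hν hc0
  have hA := hne c hc
  have h1 : 2 * A ν c * (-A (ν + 1) c) * D ν c
        - A ν c ^ 2 * (-((ν + 1) / c) * D ν c + A ν c ^ 2 / c) = 0 := by
    have h2 : D ν c ^ 2 ≠ 0 := by positivity
    simpa [h2] using h0
  have h3 : A ν c * (- 2 * c * A (ν + 1) c * D ν c + (ν + 1) * A ν c * D ν c
      - A ν c ^ 3) = 0 := by
    have h4 := congrArg (fun z => c * z) h1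
    simp only [mul_zero] at h4
    rw [← h4]
    field_simp
    ring
  have h5 : - 2 * c * A (ν + 1) c * D ν c + (ν + 1) * A ν c * D ν c
      - A ν c ^ 3 = 0 := by
    rcases mul_eq_zero.1 h3 with h | h
    · exact absurd h hA
    · exact h
  unfold S P
  field_simp
  linear_combination h5

lemma exists_zero_gt {ν : ℝ} (hν : 0 < ν) (T : ℝ) : ∃ t, T < t ∧ A ν t = 0 := by
  by_contra! hcon
  set T1 : ℝ := max T (ν ^ 2 / 2) + 1 with hT1
  have hT1a : T < T1 := by
    have := le_max_left T (ν ^ 2 / 2); linarith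
  have hT1b : ν ^ 2 / 2 + 1 ≤ T1 := by
    have := le_max_right T (ν ^ 2 / 2); linarith
  have hT1c : 1 ≤ T1 := by nlinarith [sq_nonneg ν]
  have hPge : ∀ t, T1 ≤ t → 2 * t + S ν t ^ 2 ≤ 4 * t * P ν t := by
    intro t ht
    rw [P_rel t (hcon t (by linarith))]
    linarith
  have hanti : AntitoneOn (fun t => S ν t + t) (Ici T1) := by
    apply antitoneOn_of_deriv_nonpos (convex_Ici T1)
    · intro x hx
      have hx' : T1 ≤ x := hx
      exact ((S_der hν (by linarith) (hcon x (by linarith))).add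
        (hasDerivAt_id x)).continuousAt.continuousWithinAt
    · intro x hx
      rw [interior_Ici] at hx
      have hx' : T1 < x := hx
      exact ((S_der hν (by linarith) (hcon x (by linarith))).add
        (hasDerivAt_id x)).differentiableAt.differentiableWithinAt
    · intro x hx
      rw [interior_Ici] at hx
      have hx' : T1 < x := hx
      have h : HasDerivAt (fun t => S ν t + t) (-2 * P ν x + 1) x :=
        ((S_der hν (by linarith) (hcon x (by linarith))).add (hasDerivAt_id x))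
      rw [h.deriv]
      have h2 := hPge x hx'.le
      have hx0 : 0 < x := by linarith
      nlinarith [sq_nonneg (S ν x)]
  set T2 : ℝ := max T1 (S ν T1 + T1 + 1) with hT2
  have hT2a : T1 ≤ T2 := le_max_left _ _
  have hT2b : S ν T1 + T1 + 1 ≤ T2 := le_max_right _ _
  have hSneg : ∀ t, T2 ≤ t → S ν t ≤ -1 := by
    intro t ht
    have h := hanti (mem_Ici.2 le_rfl) (mem_Ici.2 (hT2a.trans ht)) (hT2a.trans ht)
    simp only at h
    linarith
  have hmono : MonotoneOn (fun t => (S ν t)⁻¹ - (1 / 2) * Real.log t) (Ici T2) := by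
    have hd : ∀ x, T2 ≤ x → HasDerivAt (fun t => (S ν t)⁻¹ - (1 / 2) * Real.log t)
        (-(-2 * P ν x) / S ν x ^ 2 - (1 / 2) * x⁻¹) x := by
      intro x hx
      have hS := hSneg x hx
      exact ((S_der hν (by linarith) (hcon x (by linarith))).inv (by linarith)).sub
        ((Real.hasDerivAt_log (by linarith)).const_mul _)
    apply monotoneOn_of_deriv_nonneg (convex_Ici T2)
    · intro x hx
      exact (hd x hx).continuousAt.continuousWithinAt
    · intro x hx
      rw [interior_Ici] at hx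
      exact (hd x (le_of_lt hx)).differentiableAt.differentiableWithinAt
    · intro x hx
      rw [interior_Ici] at hx
      have hx' : T2 < x := hx
      rw [(hd x hx'.le).deriv]
      have h2 := hPge x (by linarith)
      have hS := hSneg x hx'.le
      have hx0 : 0 < x := by linarith
      have hS2 : 0 < S ν x ^ 2 := by nlinarith
      have h3 : (1 / 2) * x⁻¹ ≤ -(-2 * P ν x) / S ν x ^ 2 := by
        rw [le_div_iff₀ hS2, ← sub_nonneg]
        have : -(-2 * P ν x) - 1 / 2 * x⁻¹ * S ν x ^ 2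
          = (4 * x * P ν x - S ν x ^ 2) / (2 * x) := by
          field_simp
          ring
        rw [this]
        apply div_nonneg <;> linarith
      linarith
  have hlog := Real.tendsto_log_atTop.eventually_gt_atTop
    (2 * (-(S ν T2)⁻¹ + (1 / 2) * Real.log T2))
  obtain ⟨t, h1, h2⟩ := (hlog.and (eventually_ge_atTop T2)).exists
  have h := hmono (mem_Ici.2 le_rfl) (mem_Ici.2 h2) h2
  simp only at h
  have h3 : (S ν t)⁻¹ < 0 := inv_lt_zero.2 (by have := hSneg t h2; linarith)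
  linarith

lemma besselJ_eq' (ν : ℝ) {x : ℝ} (hx : 0 < x) :
    besselJ ν x = (x / 2) ^ ν * A ν (x ^ 2 / 4) := besselJ_eq ν hx

lemma besselJ_zero_iff (ν : ℝ) {x : ℝ} (hx : 0 < x) :
    besselJ ν x = 0 ↔ A ν (x ^ 2 / 4) = 0 := by
  rw [besselJ_eq' ν hx]
  have : (x / 2) ^ ν ≠ 0 := (Real.rpow_pos_of_pos (by linarith) ν).ne'
  simp [this]

/-- The positive zeros of the Bessel function in increasing order, preceded by `0`. -/
noncomputable def besselZero (ν : ℝ) : ℕ → ℝ
  | 0 => 0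
  | n + 1 => sInf {x : ℝ | besselZero ν n < x ∧ besselJ ν x = 0}

/-- The Turan determinant. -/
noncomputable def turanDelta (ν x : ℝ) : ℝ :=
  besselJ ν x ^ 2 - besselJ (ν - 1) x * besselJ (ν + 1) x

/-- The Turan ratio. -/
noncomputable def turanRatio (ν x : ℝ) : ℝ := turanDelta ν x / besselJ ν x ^ 2

lemma a_der {ν : ℝ} (hν : 0 < ν) (x : ℝ) :
    HasDerivAt (fun x => A ν (x ^ 2 / 4)) (-A (ν + 1) (x ^ 2 / 4) * (x / 2)) x := by
  have h1 : HasDerivAt (fun x : ℝ => x ^ 2 / 4) (x / 2) x := by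
    refine ((hasDerivAt_pow 2 x).div_const 4).congr_deriv ?_
    push_cast; ring
  have h2 : HasDerivAt (A ν) (-A (ν + 1) (x ^ 2 / 4)) (x ^ 2 / 4) := A_der (by linarith) _
  exact HasDerivAt.comp (h₂ := A ν) (h := fun x : ℝ => x ^ 2 / 4) x h2 h1

lemma isolated {ν : ℝ} (hν : 0 < ν) {y : ℝ} (hy : 0 ≤ y) :
    ∀ᶠ x in 𝓝[≠] y, A ν (x ^ 2 / 4) ≠ 0 := by
  by_cases h : A ν (y ^ 2 / 4) = 0
  · have hy0 : 0 < y := by
      rcases lt_or_eq_of_le hy with h1 | h1
      · exact h1
      · exfalso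
        rw [← h1] at h
        have := A_zero_pos (ν := ν) (by linarith)
        norm_num at h
        linarith
    have hB := B_ne hν (t := y ^ 2 / 4) (by positivity) h
    exact (a_der hν y).eventually_ne (mul_ne_zero (neg_ne_zero.2 hB) (by positivity))
  · exact ((a_der hν y).continuousAt.eventually_ne h).filter_mono nhdsWithin_le_nhds

lemma next_zero {ν : ℝ} (hν : 0 < ν) {y : ℝ} (hy : 0 ≤ y) :
    y < sInf {x : ℝ | y < x ∧ besselJ ν x = 0} ∧
    besselJ ν (sInf {x : ℝ | y < x ∧ besselJ ν x = 0}) = 0 ∧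
    ∀ x, y < x → x < sInf {x : ℝ | y < x ∧ besselJ ν x = 0} → besselJ ν x ≠ 0 := by
  set Z : Set ℝ := {x : ℝ | y < x ∧ besselJ ν x = 0} with hZ
  have hne : Z.Nonempty := by
    obtain ⟨t, ht, h0⟩ := exists_zero_gt hν (y ^ 2 / 4)
    have ht0 : 0 < t := lt_of_le_of_lt (by positivity) ht
    have hs : (2 * √t) ^ 2 / 4 = t := by
      rw [mul_pow, Real.sq_sqrt ht0.le]; ring
    have hs0 : 0 < √t := Real.sqrt_pos.2 ht0
    refine ⟨2 * √t, ?_, ?_⟩
    · nlinarith [Real.sq_sqrt ht0.le]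
    · rw [besselJ_zero_iff ν (by positivity), hs]
      exact h0
  have hbb : BddBelow Z := ⟨y, fun x hx => hx.1.le⟩
  have hiso : ∀ᶠ x in 𝓝[>] y, A ν (x ^ 2 / 4) ≠ 0 :=
    (isolated hν hy).filter_mono (nhdsWithin_mono _ (fun x hx => ne_of_gt hx))
  obtain ⟨u, hu, hu2⟩ := (mem_nhdsGT_iff_exists_Ioo_subset).1 hiso
  have hu' : y < u := hu
  have hZ2 : Z = {x : ℝ | u ≤ x} ∩ {x : ℝ | A ν (x ^ 2 / 4) = 0} := by
    ext x
    constructor
    · rintro ⟨h1, h2⟩
      have hx0 : 0 < x := lt_of_le_of_lt hy h1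
      have h3 := (besselJ_zero_iff ν hx0).1 h2
      refine ⟨?_, h3⟩
      by_contra h4
      have h4' : x < u := not_le.1 h4
      exact hu2 ⟨h1, h4'⟩ h3
    · rintro ⟨h1, h2⟩
      have h1' : u ≤ x := h1
      exact ⟨by linarith, (besselJ_zero_iff ν (by linarith)).2 h2⟩
  have hclosed : IsClosed Z := by
    rw [hZ2]
    refine (isClosed_Ici).inter ?_
    apply isClosed_eq _ continuous_const
    exact continuous_iff_continuousAt.2 fun x => (a_der hν x).continuousAt
  have hmem := hclosed.csInf_mem hne hbb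
  refine ⟨hmem.1, hmem.2, ?_⟩
  intro x hx1 hx2 hx3
  have : sInf Z ≤ x := csInf_le hbb ⟨hx1, hx3⟩
  linarith

lemma besselZero_nonneg {ν : ℝ} (hν : 0 < ν) (n : ℕ) : 0 ≤ besselZero ν n := by
  induction n with
  | zero => simp [besselZero]
  | succ n ih =>
    have := (next_zero hν ih).1
    rw [besselZero]
    linarith

lemma besselZero_strictMono {ν : ℝ} (hν : 0 < ν) : StrictMono (besselZero ν) := by
  refine strictMono_nat_of_lt_succ fun n => ?_
  have := (next_zero hν (besselZero_nonneg hν n)).1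
  rw [besselZero.eq_2]
  exact this

lemma besselZero_zero {ν : ℝ} (hν : 0 < ν) (n : ℕ) : besselJ ν (besselZero ν (n + 1)) = 0 := by
  have := (next_zero hν (besselZero_nonneg hν n)).2.1
  rw [besselZero]
  exact this

lemma besselZero_pos {ν : ℝ} (hν : 0 < ν) (n : ℕ) : 0 < besselZero ν (n + 1) :=
  lt_of_le_of_lt (besselZero_nonneg hν n) (besselZero_strictMono hν (Nat.lt_succ_self n))

lemma besselZero_gap {ν : ℝ} (hν : 0 < ν) (n : ℕ) {x : ℝ}
    (h1 : besselZero ν n < x) (h2 : x < besselZero ν (n + 1)) : besselJ ν x ≠ 0 := by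
  rw [besselZero] at h2
  exact (next_zero hν (besselZero_nonneg hν n)).2.2 x h1 h2

lemma besselZero_unbounded {ν : ℝ} (hν : 0 < ν) (x : ℝ) : ∃ n, x ≤ besselZero ν n := by
  by_contra! hcon
  have hbdd : BddAbove (range (besselZero ν)) := ⟨x, by rintro _ ⟨n, rfl⟩; exact (hcon n).le⟩
  have hmono := besselZero_strictMono hν
  have ht := tendsto_atTop_ciSup hmono.monotone hbdd
  set L := ⨆ n, besselZero ν n with hL
  have hlt : ∀ n, besselZero ν n < L := fun n =>
    lt_of_lt_of_le (hmono (Nat.lt_succ_self n)) (le_ciSup hbdd (n + 1))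
  have hL0 : 0 ≤ L := (besselZero_nonneg hν 0).trans (hlt 0).le
  have ht2 : Tendsto (fun n => besselZero ν (n + 1)) atTop (𝓝[≠] L) := by
    apply tendsto_nhdsWithin_of_tendsto_nhds_of_eventually_within
    · exact (tendsto_add_atTop_iff_nat 1).2 ht
    · exact Eventually.of_forall fun n => (hlt (n + 1)).ne
  have h := ht2.eventually (isolated hν hL0)
  obtain ⟨n, hn⟩ := h.exists
  exact hn ((besselJ_zero_iff ν (besselZero_pos hν n)).1 (besselZero_zero hν n))

lemma besselZero_complete {ν : ℝ} (hν : 0 < ν) {x : ℝ} (hx : 0 < x) :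
    besselJ ν x = 0 ↔ ∃ n, x = besselZero ν (n + 1) := by
  constructor
  · intro h
    classical
    have hex := besselZero_unbounded hν x
    obtain ⟨m, hm⟩ : ∃ m, Nat.find hex = m + 1 := by
      apply Nat.exists_eq_succ_of_ne_zero
      intro h0
      have := Nat.find_spec hex
      rw [h0] at this
      simp [besselZero] at this
      linarith
    have h1 := Nat.find_spec hex
    rw [hm] at h1
    have h2 : besselZero ν m < x := by
      by_contra h3
      have h4 := Nat.find_min' hex (not_lt.1 h3)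
      omega
    refine ⟨m, le_antisymm h1 ?_⟩
    by_contra h3
    exact besselZero_gap hν m h2 (not_le.1 h3) h
  · rintro ⟨n, rfl⟩
    exact besselZero_zero hν n

lemma turanRatio_eq {ν : ℝ} (hν : 0 < ν) {x : ℝ} (hx : 0 < x) (hJ : besselJ ν x ≠ 0) :
    turanRatio ν x = P ν (x ^ 2 / 4) := by
  have hA : A ν (x ^ 2 / 4) ≠ 0 := fun h => hJ ((besselJ_zero_iff ν hx).2 h)
  unfold turanRatio turanDelta P D
  rw [besselJ_eq' ν hx, besselJ_eq' (ν - 1) hx, besselJ_eq' (ν + 1) hx, A_rec hν]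
  have hx2 : (0:ℝ) < x / 2 := by linarith
  have e1 : (x / 2) ^ (ν - 1) * (x / 2) ^ (ν + 1) = ((x / 2) ^ ν) ^ 2 := by
    rw [← Real.rpow_add hx2, ← Real.rpow_natCast, ← Real.rpow_mul hx2.le]
    congr 1; push_cast; ring
  have hp : (x / 2) ^ ν ≠ 0 := (Real.rpow_pos_of_pos hx2 ν).ne'
  have e2 : (x / 2) ^ (ν - 1) * (ν * A ν (x ^ 2 / 4) - x ^ 2 / 4 * A (ν + 1) (x ^ 2 / 4)) *
      ((x / 2) ^ (ν + 1) * A (ν + 1) (x ^ 2 / 4))
      = ((x / 2) ^ ν) ^ 2 *
      ((ν * A ν (x ^ 2 / 4) - x ^ 2 / 4 * A (ν + 1) (x ^ 2 / 4)) * A (ν + 1) (x ^ 2 / 4)) := by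
    rw [← e1]; ring
  rw [e2, mul_pow, ← mul_sub, mul_div_mul_left _ _ (pow_ne_zero 2 hp)]
  ring

lemma turanRatio_der {ν : ℝ} (hν : 0 < ν) {x : ℝ} (hx : 0 < x) (hJ : besselJ ν x ≠ 0) :
    HasDerivAt (turanRatio ν)
      ((1 - (1 + S ν (x ^ 2 / 4)) * P ν (x ^ 2 / 4)) / (x ^ 2 / 4) * (x / 2)) x := by
  have hA : A ν (x ^ 2 / 4) ≠ 0 := fun h => hJ ((besselJ_zero_iff ν hx).2 h)
  have h1 : HasDerivAt (fun x : ℝ => x ^ 2 / 4) (x / 2) x := by
    refine ((hasDerivAt_pow 2 x).div_const 4).congr_deriv ?_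
    push_cast; ring
  have h2 := (P_der hν (t := x ^ 2 / 4) (by positivity) hA).comp x h1
  refine h2.congr_of_eventuallyEq ?_
  have h3 : ∀ᶠ y in 𝓝 x, A ν (y ^ 2 / 4) ≠ 0 := (a_der hν x).continuousAt.eventually_ne hA
  filter_upwards [h3, lt_mem_nhds hx] with y hy1 hy2
  exact turanRatio_eq hν hy2 (fun h => hy1 ((besselJ_zero_iff ν hy2).1 h))

lemma crit_iff {ν : ℝ} (hν : 0 < ν) {x : ℝ} (hx : 0 < x) (hJ : besselJ ν x ≠ 0) :
    deriv (turanRatio ν) x = 0 ↔ (1 + S ν (x ^ 2 / 4)) * P ν (x ^ 2 / 4) = 1 := by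
  rw [(turanRatio_der hν hx hJ).deriv]
  have h1 : x / 2 ≠ 0 := by positivity
  have h2 : x ^ 2 / 4 ≠ 0 := by positivity
  rw [mul_eq_zero, div_eq_zero_iff]
  constructor
  · rintro ((h | h) | h)
    · linarith
    · exact absurd h h2
    · exact absurd h h1
  · intro h
    left; left; linarith

/-- all the facts at one interval between consecutive zeros -/
lemma interval {ν : ℝ} (hν : 0 < ν) (n : ℕ) :
    ∃ c ∈ Ioo (besselZero ν (n + 1)) (besselZero ν (n + 2)),
      (∀ y ∈ Ioo (besselZero ν (n + 1)) (besselZero ν (n + 2)),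
        DifferentiableAt ℝ (turanRatio ν) y ∧ (deriv (turanRatio ν) y = 0 ↔ y = c)) := by
  have hp0 := besselZero_pos hν n
  have hlt : besselZero ν (n + 1) < besselZero ν (n + 2) :=
    besselZero_strictMono hν (Nat.lt_succ_self _)
  set p := besselZero ν (n + 1) with hp
  set q := besselZero ν (n + 2) with hq
  have hgap : ∀ x ∈ Ioo p q, besselJ ν x ≠ 0 := fun x hx => besselZero_gap hν (n + 1) hx.1 hx.2
  have hne : ∀ t ∈ Ioo (p ^ 2 / 4) (q ^ 2 / 4), A ν t ≠ 0 := by
    intro t ht h0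
    have ht0 : 0 < t := lt_trans (by positivity) ht.1
    have hs : (2 * √t) ^ 2 / 4 = t := by
      rw [mul_pow, Real.sq_sqrt ht0.le]; ring
    have hs0 : 0 < √t := Real.sqrt_pos.2 ht0
    have h1 : p < 2 * √t := by
      have h2 := ht.1
      rw [← hs] at h2
      nlinarith
    have h2 : 2 * √t < q := by
      have h2 := ht.2
      rw [← hs] at h2
      nlinarith
    refine hgap _ ⟨h1, h2⟩ ?_
    rw [besselJ_zero_iff ν (by positivity), hs]
    exact h0
  have hAp : A ν (p ^ 2 / 4) = 0 := (besselJ_zero_iff ν hp0).1 (besselZero_zero hν n)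
  have hAq : A ν (q ^ 2 / 4) = 0 :=
    (besselJ_zero_iff ν (hp0.trans hlt)).1 (besselZero_zero hν (n + 1))
  obtain ⟨t, ht, htc⟩ := crit_exists hν (p := p ^ 2 / 4) (q := q ^ 2 / 4) (by positivity)
    (by nlinarith) hAp hAq hne
  have ht0 : 0 < t := lt_trans (by positivity) ht.1
  have hs : (2 * √t) ^ 2 / 4 = t := by
    rw [mul_pow, Real.sq_sqrt ht0.le]; ring
  have hs0 : 0 < √t := Real.sqrt_pos.2 ht0
  have h1 : p < 2 * √t := by
    have h2 := ht.1
    rw [← hs] at h2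
    nlinarith
  have h2 : 2 * √t < q := by
    have h2 := ht.2
    rw [← hs] at h2
    nlinarith
  refine ⟨2 * √t, ⟨h1, h2⟩, ?_⟩
  intro y hy
  have hy0 : 0 < y := hp0.trans hy.1
  refine ⟨(turanRatio_der hν hy0 (hgap y hy)).differentiableAt, ?_⟩
  rw [crit_iff hν hy0 (hgap y hy)]
  constructor
  · intro h
    have hy' : y ^ 2 / 4 ∈ Ioo (p ^ 2 / 4) (q ^ 2 / 4) := by
      constructor <;> nlinarith [hy.1, hy.2]
    have e := crit_unique hν (p := p ^ 2 / 4) (q := q ^ 2 / 4) (by positivity) hne hy' ht h htc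
    rw [← hs] at e
    have : (y - 2 * √t) * (y + 2 * √t) = 0 := by linarith
    rcases mul_eq_zero.1 this with h | h
    · linarith
    · linarith
  · intro h
    rw [h, hs]
    exact htc

lemma first_zero {ν : ℝ} (hν : 0 < ν) (n : ℕ) : 1 ≤ besselZero ν (n + 1) ^ 2 / 4 := by
  have hp0 := besselZero_pos hν n
  have hAp : A ν (besselZero ν (n + 1) ^ 2 / 4) = 0 :=
    (besselJ_zero_iff ν hp0).1 (besselZero_zero hν n)
  by_contra h
  push Not at h
  have := A_pos_small hν (t := besselZero ν (n + 1) ^ 2 / 4) (by positivity) (by linarith)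
  linarith

theorem main {ν : ℝ} (hν : 0 < ν) :
    ∃ α : ℕ → ℝ,
      (∀ n : ℕ, 1 ≤ n → α n ∈ Ioo (besselZero ν n) (besselZero ν (n + 1)) ∧
        ∀ y ∈ Ioo (besselZero ν n) (besselZero ν (n + 1)),
          DifferentiableAt ℝ (turanRatio ν) y ∧ (deriv (turanRatio ν) y = 0 ↔ y = α n)) ∧
      StrictMono (fun n : ℕ => if n = 0 then 1 / (ν + 1) else turanRatio ν (α n)) := by
  choose c hc1 hc2 using interval hν
  have hcpos : ∀ n, 0 < c n := fun n => (besselZero_pos hν n).trans (hc1 n).1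
  have hcJ : ∀ n, besselJ ν (c n) ≠ 0 := fun n =>
    besselZero_gap hν (n + 1) (hc1 n).1 (hc1 n).2
  have hcA : ∀ n, A ν (c n ^ 2 / 4) ≠ 0 := fun n h =>
    hcJ n ((besselJ_zero_iff ν (hcpos n)).2 h)
  have hcc : ∀ n, (1 + S ν (c n ^ 2 / 4)) * P ν (c n ^ 2 / 4) = 1 := fun n =>
    (crit_iff hν (hcpos n) (hcJ n)).1 (((hc2 n) (c n) (hc1 n)).2.2 rfl)
  have hc1' : ∀ n, 1 ≤ c n ^ 2 / 4 := fun n => by
    have h := first_zero hν n
    have h2 := (hc1 n).1
    have h3 := besselZero_pos hν n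
    nlinarith
  refine ⟨fun n => c (n - 1), ?_, ?_⟩
  · intro n hn
    obtain ⟨m, rfl⟩ := Nat.exists_eq_succ_of_ne_zero (by omega : n ≠ 0)
    simp only [Nat.succ_eq_add_one, Nat.add_sub_cancel]
    exact ⟨hc1 m, hc2 m⟩
  · refine strictMono_nat_of_lt_succ fun n => ?_
    rcases n with _ | n
    · simp only [if_true, zero_add, one_ne_zero, if_false, Nat.sub_self]
      rw [turanRatio_eq hν (hcpos 0) (hcJ 0)]
      obtain ⟨a1, a2, a3, a4⟩ := crit_facts hν (hc1' 0) (hcA 0) (hcc 0)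
      rw [a4]
      apply one_div_lt_one_div_of_lt <;> linarith
    · simp only [Nat.add_eq_zero_iff, one_ne_zero, and_false, if_false, Nat.add_sub_cancel]
      rw [turanRatio_eq hν (hcpos n) (hcJ n), turanRatio_eq hν (hcpos (n + 1)) (hcJ (n + 1))]
      have hlt : c n < c (n + 1) := (hc1 n).2.trans (hc1 (n + 1)).1
      have h0 := hcpos n
      refine crit_compare hν (hc1' n) (by nlinarith) (hcA n) (hcA (n + 1)) (hcc n) (hcc (n + 1))

end Pool.Agent.X88.Bessel
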