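import Mathlib

/-!
# The tree of an increasing chain of invariant equivalence relations
-/

set_option autoImplicit false

open SimpleGraph

namespace Pool.Agent.X88.ChainTree

variable {X : Type} (r : ℕ → Setoid X)

/-- the relation on `ℕ × X` -/
def s : Setoid (ℕ × X) where
  r p q := p.1 = q.1 ∧ (r p.1).r p.2 q.2
  iseqv := by
    refine ⟨fun p => ⟨rfl, (r p.1).refl _⟩, ?_, ?_⟩
    · rintro ⟨n, x⟩ ⟨m, y⟩ ⟨h1, h2⟩
      simp only at h1 h2
      subst h1
      exact ⟨rfl, (r n).symm h2⟩
    · rintro ⟨n, x⟩ ⟨m, y⟩ ⟨k, z⟩ ⟨h1, h2⟩ ⟨h3, h4⟩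
      simp only at h1 h2 h3 h4
      subst h1 h3
      exact ⟨rfl, (r n).trans h2 h4⟩

/-- the vertices -/
def Vt : Type := Quotient (s r)

/-- the vertex of a point at a level -/
def mk (n : ℕ) (x : X) : Vt r := Quotient.mk (s r) (n, x)

lemma mk_eq {n m : ℕ} {x y : X} : mk r n x = mk r m y ↔ n = m ∧ (r n).r x y :=
  Quotient.eq (r := s r)

/-- the level -/
def lev : Vt r → ℕ := Quotient.lift (fun p : ℕ × X => p.1) fun _ _ h => h.1

lemma lev_mk (n : ℕ) (x : X) : lev r (mk r n x) = n := rfl

variable (hmono : ∀ n x y, (r n).r x y → (r (n + 1)).r x y)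

include hmono in
/-- the parent -/
def par : Vt r → Vt r := Quotient.map (fun p : ℕ × X => (p.1 + 1, p.2)) (by
  rintro ⟨n, x⟩ ⟨m, y⟩ ⟨h1, h2⟩
  simp only at h1 h2
  subst h1
  exact ⟨rfl, hmono n x y h2⟩)

lemma par_mk (n : ℕ) (x : X) : par r hmono (mk r n x) = mk r (n + 1) x := rfl

lemma lev_par (v : Vt r) : lev r (par r hmono v) = lev r v + 1 := by
  induction v using Quotient.inductionOn with
  | h p => rfl

lemma lev_iter (k : ℕ) (v : Vt r) : lev r ((par r hmono)^[k] v) = lev r v + k := by
  induction k with
  | zero => rfl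
  | succ k ih => rw [Function.iterate_succ_apply', lev_par, ih]; ring

lemma iter_mk (k n : ℕ) (x : X) : (par r hmono)^[k] (mk r n x) = mk r (n + k) x := by
  induction k with
  | zero => rfl
  | succ k ih => rw [Function.iterate_succ_apply', ih, par_mk]; rfl

/-- the tree -/
def T : SimpleGraph (Vt r) where
  Adj v w := w = par r hmono v ∨ v = par r hmono w
  symm := ⟨fun _ _ h => h.symm⟩
  loopless := ⟨fun v h => by
    have : v = par r hmono v := by tauto
    have h2 := congrArg (lev r) this
    rw [lev_par] at h2
    omega⟩

lemma reach (k : ℕ) (v : Vt r) : (T r hmono).Reachable v ((par r hmono)^[k] v) := by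
  induction k with
  | zero => exact Reachable.refl _
  | succ k ih =>
    refine ih.trans (Adj.reachable ?_)
    left
    rw [Function.iterate_succ_apply']

theorem isTree [Nonempty X] (htot : ∀ x y, ∃ n, (r n).r x y) : (T r hmono).IsTree := by
  have hmono' : ∀ k n x y, (r n).r x y → (r (n + k)).r x y := by
    intro k
    induction k with
    | zero => intro n x y h; exact h
    | succ k ih => intro n x y h; exact hmono _ _ _ (ih n x y h)
  refine ⟨?_, ?_⟩
  · have : Nonempty (Vt r) := ⟨mk r 0 (Classical.arbitrary X)⟩
    refine ⟨fun v w => ?_⟩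
    induction v using Quotient.inductionOn with
    | h p =>
    induction w using Quotient.inductionOn with
    | h q =>
    obtain ⟨n, x⟩ := p
    obtain ⟨m, y⟩ := q
    obtain ⟨k, hk⟩ := htot x y
    have h1 := reach r hmono (m + k) (mk r n x)
    have h2 := reach r hmono (n + k) (mk r m y)
    rw [iter_mk] at h1 h2
    have h3 : mk r (n + (m + k)) x = mk r (m + (n + k)) y := by
      rw [mk_eq]
      refine ⟨by ring, ?_⟩
      have := hmono' (n + m) k x y hk
      have e : k + (n + m) = n + (m + k) := by ring
      rwa [e] at this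
    rw [h3] at h1
    exact h1.trans h2.symm
  · rw [isAcyclic_iff_forall_adj_isBridge]
    -- the bridge property for an edge `{v, par v}`
    have key : ∀ v, (T r hmono).IsBridge s(v, par r hmono v) := by
      intro v
      rw [isBridge_iff]
      intro hreach
      obtain ⟨w⟩ := hreach
      -- the set of descendants of `v` is preserved
      have hinv : ∀ a b, ((T r hmono).deleteEdges {s(v, par r hmono v)}).Adj a b →
          (∃ k, (par r hmono)^[k] a = v) → ∃ k, (par r hmono)^[k] b = v := by
        rintro a b hadj ⟨k, hk⟩
        rw [deleteEdges_adj] at hadj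
        obtain ⟨h1, h2⟩ := hadj
        rcases h1 with h1 | h1
        · -- `b = par a`
          cases k with
          | zero =>
            exfalso
            apply h2
            have hav : a = v := hk
            subst hav
            subst h1
            exact rfl
          | succ k =>
            refine ⟨k, ?_⟩
            rw [h1, ← Function.iterate_succ_apply]
            exact hk
        · -- `a = par b`
          refine ⟨k + 1, ?_⟩
          rw [Function.iterate_succ_apply, ← h1]
          exact hk
      have hfin : ∀ {a b : Vt r}, ((T r hmono).deleteEdges {s(v, par r hmono v)}).Walk a b →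
          (∃ k, (par r hmono)^[k] a = v) → ∃ k, (par r hmono)^[k] b = v := by
        intro a b w
        induction w with
        | nil => exact id
        | cons h _ ih => exact fun hk => ih (hinv _ _ h hk)
      obtain ⟨k, hk⟩ := hfin w ⟨0, rfl⟩
      have := congrArg (lev r) hk
      rw [lev_iter, lev_par] at this
      omega
    intro v w hadj
    rcases hadj with h | h
    · rw [h]; exact key v
    · rw [h, Sym2.eq_swap]; exact key w

section action

variable {H : Type} [Group H] [MulAction H X]

/-- the action -/
@[instance_reducible]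
def act (hact : ∀ (h : H) n x y, (r n).r x y → (r n).r (h • x) (h • y)) : MulAction H (Vt r) where
  smul h := Quotient.map (fun p : ℕ × X => (p.1, h • p.2)) (by
    rintro ⟨n, x⟩ ⟨m, y⟩ ⟨h1, h2⟩
    simp only at h1 h2
    subst h1
    exact ⟨rfl, hact h n x y h2⟩)
  one_smul v := by
    induction v using Quotient.inductionOn with
    | h p =>
    change mk r p.1 ((1 : H) • p.2) = mk r p.1 p.2
    rw [one_smul]
  mul_smul g h v := by
    induction v using Quotient.inductionOn with
    | h p =>
    change mk r p.1 ((g * h) • p.2) = mk r p.1 (g • h • p.2)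
    rw [mul_smul]

include hmono in
/-- The group acts on the tree without inversions; a fixed vertex gives a class fixed by `H`. -/
theorem exists_tree [Nonempty X] (htot : ∀ x y, ∃ n, (r n).r x y)
    (hact : ∀ (h : H) n x y, (r n).r x y → (r n).r (h • x) (h • y))
    (hfix : ∀ n x, ∃ h : H, ¬ (r n).r (h • x) x) :
    ∃ (V : Type) (_ : MulAction H V) (T : SimpleGraph V), T.IsTree ∧
      (∀ h : H, ∀ x y : V, T.Adj x y → T.Adj (h • x) (h • y)) ∧
      (∀ h : H, ∀ x y : V, T.Adj x y → ¬ (h • x = y ∧ h • y = x)) ∧
      ¬ ∃ v : V, ∀ h : H, h • v = v := by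
  let _ := act r hact
  have hsm : ∀ (h : H) (n : ℕ) (x : X), h • mk r n x = mk r n (h • x) := fun _ _ _ => rfl
  have hlev : ∀ (h : H) (v : Vt r), lev r (h • v) = lev r v := by
    intro h v
    induction v using Quotient.inductionOn with
    | h p => rfl
  have hpar : ∀ (h : H) (v : Vt r), h • par r hmono v = par r hmono (h • v) := by
    intro h v
    induction v using Quotient.inductionOn with
    | h p => rfl
  refine ⟨Vt r, act r hact, T r hmono, isTree r hmono htot, ?_, ?_, ?_⟩
  · intro h x y hxy
    rcases hxy with rfl | rfl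
    · exact Or.inl (hpar h x)
    · exact Or.inr (hpar h y)
  · rintro h x y hxy ⟨h1, h2⟩
    have h3 : lev r x = lev r y := by rw [← h1, hlev]
    rcases hxy with rfl | rfl
    · rw [lev_par] at h3; omega
    · rw [lev_par] at h3; omega
  · rintro ⟨v, hv⟩
    induction v using Quotient.inductionOn with
    | h p =>
    obtain ⟨n, x⟩ := p
    obtain ⟨h, hh⟩ := hfix n x
    have := hv h
    change h • mk r n x = mk r n x at this
    rw [hsm, mk_eq] at this
    exact hh this.2

end action

end Pool.Agent.X88.ChainTree
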