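import Mathlib

/-!
# Preimages of finite sets under rational functions over algebraically closed fields
-/

set_option autoImplicit false

open Polynomial

namespace Pool.Agent.X88.Preim

variable {K : Type*} [Field K]

/-- The finite points mapped by `g / h` to points of `Y`. -/
noncomputable def pre (g h : K[X]) (Y : Finset K) : Finset K := by
  classical exact Y.biUnion fun y => (g - C y * h).roots.toFinset

lemma fib_ne {g h : K[X]} (hc : IsCoprime g h) (hd : 1 ≤ max g.natDegree h.natDegree) (y : K) :
    g - C y * h ≠ 0 := by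
  intro h0
  have hg : g = C y * h := sub_eq_zero.mp h0
  have hu : IsUnit h := by
    rw [hg] at hc
    exact hc.isUnit_of_dvd' (Dvd.intro_left _ rfl) dvd_rfl
  have h1 : h.natDegree = 0 := natDegree_eq_zero_of_isUnit hu
  have h2 : g.natDegree = 0 := by
    rw [hg]
    have := natDegree_C_mul_le y h
    omega
  omega

lemma mem_fib {g h : K[X]} (hc : IsCoprime g h) (hd : 1 ≤ max g.natDegree h.natDegree) (y x : K) :
    x ∈ (g - C y * h).roots ↔ h.eval x ≠ 0 ∧ g.eval x / h.eval x = y := by
  rw [mem_roots (fib_ne hc hd y), IsRoot.def, eval_sub, eval_mul, eval_C]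
  constructor
  · intro h1
    have hx : h.eval x ≠ 0 := by
      intro hx
      rw [hx, mul_zero, sub_zero] at h1
      obtain ⟨a, b, hab⟩ := hc
      have := congrArg (eval x) hab
      rw [eval_add, eval_mul, eval_mul, h1, hx, mul_zero, mul_zero, add_zero, eval_one] at this
      exact zero_ne_one this
    refine ⟨hx, ?_⟩
    rw [div_eq_iff hx]
    exact sub_eq_zero.mp h1
  · rintro ⟨hx, h1⟩
    rw [div_eq_iff hx] at h1
    rw [h1, sub_self]

lemma mem_pre {g h : K[X]} (hc : IsCoprime g h) (hd : 1 ≤ max g.natDegree h.natDegree)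
    (Y : Finset K) (x : K) : x ∈ pre g h Y ↔ h.eval x ≠ 0 ∧ g.eval x / h.eval x ∈ Y := by
  classical
  unfold pre
  rw [Finset.mem_biUnion]
  constructor
  · rintro ⟨y, hy, hx⟩
    rw [Multiset.mem_toFinset, mem_fib hc hd] at hx
    exact ⟨hx.1, hx.2 ▸ hy⟩
  · rintro ⟨hx, hy⟩
    exact ⟨_, hy, by rw [Multiset.mem_toFinset, mem_fib hc hd]; exact ⟨hx, rfl⟩⟩

open Classical in
lemma card_pre {g h : K[X]} (hc : IsCoprime g h) (hd : 1 ≤ max g.natDegree h.natDegree)
    (Y : Finset K) :
    (pre g h Y).card = ∑ y ∈ Y, (g - C y * h).roots.toFinset.card := by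
  unfold pre
  apply Finset.card_biUnion
  intro y _ z _ hyz
  rw [Function.onFun, Finset.disjoint_left]
  intro x hx hx'
  rw [Multiset.mem_toFinset, mem_fib hc hd] at hx hx'
  exact hyz (hx.2.symm.trans hx'.2)

open Classical in
lemma card_fib_le {g h : K[X]} (y : K) :
    (g - C y * h).roots.toFinset.card ≤ max g.natDegree h.natDegree := by
  refine (Multiset.toFinset_card_le _).trans ((card_roots' _).trans ?_)
  refine (natDegree_sub_le _ _).trans ?_
  exact max_le_max le_rfl (natDegree_C_mul_le _ _)

open Classical in
lemma card_fib_eq [IsAlgClosed K] {g h : K[X]} {y : K}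
    (hne : g - C y * h ≠ 0)
    (hlead : g.coeff (max g.natDegree h.natDegree) ≠ y * h.coeff (max g.natDegree h.natDegree))
    (hder : ∀ x, g.eval x = y * h.eval x →
      (derivative g).eval x = y * (derivative h).eval x → False) :
    (g - C y * h).roots.toFinset.card = max g.natDegree h.natDegree := by
  have hdeg : (g - C y * h).natDegree = max g.natDegree h.natDegree := by
    apply le_antisymm
    · refine (natDegree_sub_le _ _).trans ?_
      exact max_le_max le_rfl (natDegree_C_mul_le _ _)
    · apply le_natDegree_of_ne_zero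
      rw [coeff_sub, coeff_C_mul]
      exact sub_ne_zero.mpr hlead
  rw [Multiset.toFinset_card_of_nodup, IsAlgClosed.card_roots_eq_natDegree, hdeg]
  rw [Multiset.nodup_iff_count_le_one]
  intro x
  rw [count_roots]
  by_contra hlt
  push Not at hlt
  rw [one_lt_rootMultiplicity_iff_isRoot hne] at hlt
  obtain ⟨h1, h2⟩ := hlt
  rw [IsRoot.def, eval_sub, eval_mul, eval_C] at h1
  rw [IsRoot.def, derivative_sub, derivative_C_mul, eval_sub, eval_mul, eval_C] at h2
  exact hder x (sub_eq_zero.mp h1) (sub_eq_zero.mp h2)

section closed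

lemma separable_case [IsAlgClosed K] {g h : K[X]} (hc : IsCoprime g h) (hd : 1 ≤ max g.natDegree h.natDegree)
    (hW : derivative g * h - g * derivative h ≠ 0) (Y : Finset K) :
    max g.natDegree h.natDegree * Y.card ≤ (pre g h Y).card +
      max g.natDegree h.natDegree *
        ((derivative g * h - g * derivative h).natDegree + 1) := by
  classical
  set W := derivative g * h - g * derivative h with hWdef
  set d := max g.natDegree h.natDegree with hdd
  set E : Finset K := insert (g.coeff d / h.coeff d)
    (W.roots.toFinset.image fun x => g.eval x / h.eval x) with hE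
  have hEc : E.card ≤ W.natDegree + 1 := by
    refine (Finset.card_insert_le _ _).trans ?_
    have h1 := Finset.card_image_le (s := W.roots.toFinset) (f := fun x => g.eval x / h.eval x)
    have h2 := (Multiset.toFinset_card_le W.roots).trans (card_roots' W)
    omega
  have hfull : ∀ y ∉ E, (g - C y * h).roots.toFinset.card = d := by
    intro y hy
    have hne := fib_ne hc hd y
    refine card_fib_eq hne ?_ ?_
    · intro h1
      rw [← hdd] at h1
      by_cases h2 : h.coeff d = 0
      · rw [h2, mul_zero] at h1
        rcases le_total g.natDegree h.natDegree with h3 | h3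
        · have h4 : d = h.natDegree := max_eq_right h3
          rw [h4, coeff_natDegree, leadingCoeff_eq_zero] at h2
          rw [h2, natDegree_zero] at h3 h4
          omega
        · have h4 : d = g.natDegree := max_eq_left h3
          rw [h4, coeff_natDegree, leadingCoeff_eq_zero] at h1
          rw [h1, natDegree_zero] at h3 h4
          omega
      · apply hy
        rw [hE, Finset.mem_insert]
        left
        rw [h1, mul_div_cancel_right₀ _ h2]
    · intro x h6 h2
      have h3 : x ∈ (g - C y * h).roots := by
        rw [mem_roots hne, IsRoot.def, eval_sub, eval_mul, eval_C, h6, sub_self]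
      rw [mem_fib hc hd] at h3
      obtain ⟨h4, h5⟩ := h3
      apply hy
      rw [hE, Finset.mem_insert, Finset.mem_image]
      right
      refine ⟨x, ?_, h5⟩
      rw [Multiset.mem_toFinset, mem_roots hW, IsRoot.def, hWdef, eval_sub, eval_mul, eval_mul]
      rw [h6]
      linear_combination h.eval x * h2
  have hsum : d * (Y.filter (· ∉ E)).card ≤ (pre g h Y).card := by
    rw [card_pre hc hd Y]
    calc d * (Y.filter (· ∉ E)).card
        = ∑ y ∈ Y.filter (· ∉ E), (g - C y * h).roots.toFinset.card := by
          rw [Finset.sum_congr rfl (fun y hy => hfull y (Finset.mem_filter.mp hy).2),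
            Finset.sum_const, smul_eq_mul, mul_comm]
      _ ≤ _ := Finset.sum_le_sum_of_subset (Finset.filter_subset _ _)
  have hcard : Y.card ≤ (Y.filter (· ∉ E)).card + E.card := by
    have h1 : (Y.filter (· ∈ E)).card + (Y.filter (· ∉ E)).card = Y.card :=
      Finset.card_filter_add_card_filter_not _
    have h2 : (Y.filter (· ∈ E)).card ≤ E.card :=
      Finset.card_le_card fun x hx => (Finset.mem_filter.mp hx).2
    omega
  calc d * Y.card ≤ d * ((Y.filter (· ∉ E)).card + (W.natDegree + 1)) := by
        gcongr; omega
    _ = d * (Y.filter (· ∉ E)).card + d * (W.natDegree + 1) := by ring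
    _ ≤ _ := by gcongr

lemma derivative_zero_of_wronskian {g h : K[X]} (hc : IsCoprime g h)
    (hW : derivative g * h - g * derivative h = 0) : derivative g = 0 ∧ derivative h = 0 := by
  have aux : ∀ {a b : K[X]}, IsCoprime a b → derivative a * b = a * derivative b →
      derivative b = 0 := by
    intro a b hab heq
    have hdvd : b ∣ a * derivative b := ⟨derivative a, by rw [← heq]; ring⟩
    have h2 : b ∣ derivative b := hab.symm.dvd_of_dvd_mul_left hdvd
    by_contra hne
    have h3 := natDegree_le_of_dvd h2 hne
    by_cases h4 : b.natDegree = 0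
    · rw [natDegree_eq_zero] at h4
      obtain ⟨c, rfl⟩ := h4
      exact hne derivative_C
    · have h5 := natDegree_derivative_lt h4
      omega
  have h1 : derivative g * h = g * derivative h := sub_eq_zero.mp hW
  refine ⟨aux hc.symm ?_, aux hc h1⟩
  rw [mul_comm, ← h1, mul_comm]

/-- The counting lemma. -/
theorem exists_degree [IsAlgClosed K] (p : ℕ) [hp : Fact p.Prime] [CharP K p] (n : ℕ) :
    ∀ g h : K[X], IsCoprime g h → 1 ≤ max g.natDegree h.natDegree →
      max g.natDegree h.natDegree ≤ n → ∃ D C : ℕ, 1 ≤ D ∧ ∀ Y : Finset K,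
        (pre g h Y).card ≤ D * Y.card ∧ D * Y.card ≤ (pre g h Y).card + C := by
  classical
  induction n using Nat.strong_induction_on with
  | _ n ih =>
  intro g h hc hd hn
  by_cases hW : derivative g * h - g * derivative h = 0
  · obtain ⟨hg', hh'⟩ := derivative_zero_of_wronskian hc hW
    have hp0 := hp.out.ne_zero
    have hp2 := hp.out.two_le
    -- p-th roots
    have key : ∀ a : K[X], derivative a = 0 → ∃ b : K[X], b ^ p = a := by
      intro a ha
      refine ⟨(contract p a).map ((frobeniusEquiv K p).symm : K →+* K), ?_⟩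
      rw [← map_frobenius_expand p, ← map_expand, expand_contract p ha hp0, map_map]
      have : (frobenius K p).comp ((frobeniusEquiv K p).symm : K →+* K) = RingHom.id K := by
        ext x
        simp
      rw [this, map_id]
    obtain ⟨g₁, hg₁⟩ := key g hg'
    obtain ⟨h₁, hh₁⟩ := key h hh'
    have hc₁ : IsCoprime g₁ h₁ := by
      rw [← hg₁, ← hh₁] at hc
      exact (IsCoprime.pow_iff (by omega) (by omega)).mp hc
    have hdg : g.natDegree = p * g₁.natDegree := by rw [← hg₁, natDegree_pow]
    have hdh : h.natDegree = p * h₁.natDegree := by rw [← hh₁, natDegree_pow]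
    have hmax : max g.natDegree h.natDegree = p * max g₁.natDegree h₁.natDegree := by
      rw [hdg, hdh, Nat.mul_max_mul_left]
    have hd₁ : 1 ≤ max g₁.natDegree h₁.natDegree := by
      by_contra hlt
      have : max g₁.natDegree h₁.natDegree = 0 := by omega
      rw [hmax, this] at hd
      omega
    obtain ⟨D, C, hD, hDC⟩ := ih (max g₁.natDegree h₁.natDegree) (by
      rw [hmax] at hn
      nlinarith) g₁ h₁ hc₁ hd₁ le_rfl
    refine ⟨D, C, hD, fun Y => ?_⟩
    set Y' := Y.image (frobeniusEquiv K p).symm with hY'
    have hY'c : Y'.card = Y.card :=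
      Finset.card_image_of_injective _ (frobeniusEquiv K p).symm.injective
    have hpre : pre g h Y = pre g₁ h₁ Y' := by
      ext x
      rw [mem_pre hc hd, mem_pre hc₁ hd₁, ← hg₁, ← hh₁, eval_pow, eval_pow, ← div_pow,
        pow_ne_zero_iff hp0, hY', Finset.mem_image]
      refine and_congr_right fun _ => ?_
      constructor
      · intro hy
        exact ⟨_, hy, by rw [frobeniusEquiv_symm_pow]⟩
      · rintro ⟨y, hy, hyx⟩
        rw [← hyx, frobeniusEquiv_symm_pow_p]
        exact hy
    rw [hpre, ← hY'c]
    exact hDC Y'
  · refine ⟨max g.natDegree h.natDegree, max g.natDegree h.natDegree *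
      ((derivative g * h - g * derivative h).natDegree + 1), hd, fun Y => ⟨?_, ?_⟩⟩
    · rw [card_pre hc hd Y, mul_comm, ← smul_eq_mul]
      exact Finset.sum_le_card_nsmul _ _ _ fun y _ => card_fib_le y
    · exact separable_case hc hd hW Y

end closed

end Pool.Agent.X88.Preim
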