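import Mathlib

/-!
# An upper quasi-density whose induced quasi-density fails the weak Darboux property
-/

namespace Pool.Agent.X88.QDens

/-- the set attached to `(k, h, s)`: the affine image `k * A + h` of `A = X` or `A = Xᶜ` -/
def sp (X : Set ℤ) (q : ℕ × ℤ × Bool) : Set ℤ :=
  {x | ∃ y : ℤ, (y ∈ X ↔ q.2.2 = true) ∧ x = q.1 * y + q.2.1}

/-- genericity of `X` with respect to one requirement -/
def Req (X : Set ℤ) (F : Finset (ℕ × ℤ × Bool)) (N : ℕ) (r : ℤ) : Prop :=
  0 < N → (∀ q ∈ F, 0 < q.1 ∧ q.1 ∣ N ∧ (q.1 : ℤ) ∣ r - q.2.1) →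
    (∀ k h, (k, h, true) ∈ F → (k, h, false) ∉ F) →
    ∃ x : ℤ, (N : ℤ) ∣ x - r ∧ ∀ q ∈ F, x ∉ sp X q

/-- genericity -/
def Gen (X : Set ℤ) : Prop := ∀ F N r, Req X F N r

/-- the set of points of a Boolean function -/
def toSet (f : ℤ → Bool) : Set ℤ := {y | f y = true}

theorem exists_gen : ∃ X : Set ℤ, Gen X := by
  classical
  -- requirement sets
  let U : Finset (ℕ × ℤ × Bool) × ℕ × ℤ → Set (ℤ → Bool) := fun t =>
    {f | Req (toSet f) t.1 t.2.1 t.2.2}
  have hopen : ∀ t, IsOpen (U t) := by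
    rintro ⟨F, N, r⟩
    by_cases h1 : 0 < N
    swap
    · have : U (F, N, r) = Set.univ := by
        ext f; simp only [U, Set.mem_setOf_eq, Set.mem_univ, iff_true]
        intro h; exact absurd h h1
      rw [this]; exact isOpen_univ
    by_cases h2 : ∀ q ∈ F, 0 < q.1 ∧ q.1 ∣ N ∧ (q.1 : ℤ) ∣ r - q.2.1
    swap
    · have : U (F, N, r) = Set.univ := by
        ext f; simp only [U, Set.mem_setOf_eq, Set.mem_univ, iff_true]
        intro _ h; exact absurd h h2
      rw [this]; exact isOpen_univ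
    by_cases h3 : ∀ k h, (k, h, true) ∈ F → (k, h, false) ∉ F
    swap
    · have : U (F, N, r) = Set.univ := by
        ext f; simp only [U, Set.mem_setOf_eq, Set.mem_univ, iff_true]
        intro _ _ h; exact absurd h h3
      rw [this]; exact isOpen_univ
    have : U (F, N, r) = ⋃ x ∈ {x : ℤ | (N : ℤ) ∣ x - r}, ⋂ q ∈ F,
        {f : ℤ → Bool | x ∉ sp (toSet f) q} := by
      ext f
      simp only [U, Set.mem_setOf_eq, Set.mem_iUnion, Set.mem_iInter, exists_prop]
      constructor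
      · intro h; exact h h1 h2 h3
      · intro h _ _ _; exact h
    rw [this]
    refine isOpen_biUnion fun x _ => isOpen_biInter_finset fun q hq => ?_
    -- only one coordinate matters
    by_cases hy : ∃ y : ℤ, x = q.1 * y + q.2.1
    · obtain ⟨y, hy⟩ := hy
      have hq0 : (q.1 : ℤ) ≠ 0 := by
        have := (h2 q hq).1
        positivity
      have : {f : ℤ → Bool | x ∉ sp (toSet f) q} = (fun f : ℤ → Bool => f y) ⁻¹' {!q.2.2} := by
        ext f
        simp only [sp, toSet, Set.mem_setOf_eq, Set.mem_preimage, Set.mem_singleton_iff]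
        constructor
        · intro h
          by_contra hc
          apply h
          refine ⟨y, ?_, hy⟩
          cases hb : q.2.2 <;> cases hf : f y <;> simp_all
        · rintro h ⟨y', h1', h2'⟩
          have : y' = y := by
            have : (q.1 : ℤ) * y' = q.1 * y := by linarith
            exact mul_left_cancel₀ hq0 this
          subst this
          cases hb : q.2.2 <;> cases hf : f y' <;> simp_all
      rw [this]
      exact (isOpen_discrete _).preimage (continuous_apply y)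
    · have : {f : ℤ → Bool | x ∉ sp (toSet f) q} = Set.univ := by
        ext f
        simp only [sp, Set.mem_setOf_eq, Set.mem_univ, iff_true]
        rintro ⟨y, _, h⟩
        exact hy ⟨y, h⟩
      rw [this]; exact isOpen_univ
  have hdense : ∀ t, Dense (U t) := by
    rintro ⟨F, N, r⟩
    rw [dense_iff_inter_open]
    rintro V hV ⟨f₀, hf₀⟩
    rw [isOpen_pi_iff] at hV
    obtain ⟨I, u, hu, hIV⟩ := hV f₀ hf₀
    by_cases h1 : 0 < N
    swap
    · exact ⟨f₀, hf₀, fun h => absurd h h1⟩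
    by_cases h2 : ∀ q ∈ F, 0 < q.1 ∧ q.1 ∣ N ∧ (q.1 : ℤ) ∣ r - q.2.1
    swap
    · exact ⟨f₀, hf₀, fun _ h => absurd h h2⟩
    by_cases h3 : ∀ k h, (k, h, true) ∈ F → (k, h, false) ∉ F
    swap
    · exact ⟨f₀, hf₀, fun _ _ h => absurd h h3⟩
    -- bounds
    obtain ⟨B1, hB1⟩ : ∃ B1 : ℤ, ∀ y ∈ I, y ≤ B1 := by
      obtain ⟨b, hb⟩ := I.bddAbove
      exact ⟨b, fun y hy => hb hy⟩
    obtain ⟨B2, hB2⟩ : ∃ B2 : ℤ, ∀ q ∈ F, |q.2.1| ≤ B2 := by
      obtain ⟨b, hb⟩ := (F.image (fun q => |q.2.1|)).bddAbove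
      exact ⟨b, fun q hq => hb (Finset.mem_coe.2 (Finset.mem_image_of_mem _ hq))⟩
    obtain ⟨B3, hB3⟩ : ∃ B3 : ℤ, ∀ q ∈ F, (q.1 : ℤ) * (|B1| + 2 * |B2| + 1) + q.2.1 ≤ B3 := by
      obtain ⟨b, hb⟩ := (F.image (fun q => (q.1 : ℤ) * (|B1| + 2 * |B2| + 1) + q.2.1)).bddAbove
      exact ⟨b, fun q hq => hb (Finset.mem_coe.2 (Finset.mem_image_of_mem
        (fun q : ℕ × ℤ × Bool => (q.1 : ℤ) * (|B1| + 2 * |B2| + 1) + q.2.1) hq))⟩
    set x : ℤ := r + N * (|B3| + |r| + 1) with hx
    have hxB : B3 < x := by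
      have hN : (1 : ℤ) ≤ N := by exact_mod_cast h1
      have h5 : |B3| + |r| + 1 ≤ (N : ℤ) * (|B3| + |r| + 1) := by
        have : 0 ≤ |B3| + |r| + 1 := by positivity
        nlinarith
      have := neg_abs_le r
      have := le_abs_self B3
      linarith
    have hxr : (N : ℤ) ∣ x - r := ⟨|B3| + |r| + 1, by rw [hx]; ring⟩
    let f : ℤ → Bool := fun y => if y ∈ I then f₀ y else
      decide (∃ q ∈ F, q.2.2 = false ∧ x = q.1 * y + q.2.1)
    refine ⟨f, hIV ?_, ?_⟩
    · intro y hy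
      have : f y = f₀ y := by
        simp only [f]; rw [if_pos (Finset.mem_coe.1 hy)]
      rw [this]
      exact (hu y hy).2
    · intro _ _ _
      refine ⟨x, hxr, ?_⟩
      rintro ⟨k, h, s⟩ hq ⟨y, hys, hxy⟩
      dsimp only at hys hxy
      have hk : 0 < k := (h2 _ hq).1
      have hkZ : (0 : ℤ) < k := by exact_mod_cast hk
      have hylarge : |B1| + 2 * |B2| + 1 < y := by
        have := hB3 _ hq
        dsimp only at this
        have h6 : (k : ℤ) * (|B1| + 2 * |B2| + 1) < k * y := by linarith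
        exact lt_of_mul_lt_mul_left h6 hkZ.le
      have hyI : y ∉ I := by
        intro hy
        have := hB1 y hy
        have := le_abs_self B1
        have := abs_nonneg B2
        linarith
      have hfy : f y = decide (∃ q ∈ F, q.2.2 = false ∧ x = q.1 * y + q.2.1) := by
        simp only [f]; rw [if_neg hyI]
      cases s with
      | false =>
        have : f y = true := by
          rw [hfy, decide_eq_true_iff]
          exact ⟨(k, h, false), hq, rfl, hxy⟩
        have h7 := hys.1 this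
        exact absurd h7 (by simp)
      | true =>
        have h7 : f y = true := hys.2 rfl
        rw [hfy, decide_eq_true_iff] at h7
        obtain ⟨⟨k', h', s'⟩, hq', hs', hx'⟩ := h7
        dsimp only at hs' hx'
        subst hs'
        by_cases hkk : k = k'
        · subst hkk
          have : h = h' := by linarith
          subst this
          exact h3 k h hq hq'
        · have hkk' : (k : ℤ) ≠ k' := by exact_mod_cast hkk
          have e : ((k : ℤ) - k') * y = h' - h := by linarith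
          have hb1 := hB2 _ hq
          have hb2 := hB2 _ hq'
          dsimp only at hb1 hb2
          have : |((k : ℤ) - k') * y| ≤ 2 * |B2| := by
            rw [e]
            calc |h' - h| ≤ |h'| + |h| := abs_sub _ _
              _ ≤ 2 * |B2| := by have := le_abs_self B2; linarith
          rw [abs_mul] at this
          have h8 : 1 ≤ |(k : ℤ) - k'| := Int.one_le_abs (sub_ne_zero.2 hkk')
          have h9 : |y| = y := abs_of_pos (by have := abs_nonneg B1; have := abs_nonneg B2; linarith)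
          rw [h9] at this
          have := abs_nonneg B1
          have := abs_nonneg B2
          nlinarith
  have hd := dense_iInter_of_isOpen hopen hdense
  obtain ⟨f, hf⟩ := hd.nonempty
  rw [Set.mem_iInter] at hf
  exact ⟨toSet f, fun F N r => hf (F, N, r)⟩

/-! ## Covers -/

/-- weight of residue classes and special sets -/
noncomputable def wL (L : List (ℕ × ℤ)) : ℝ := (L.map (fun p => (1 : ℝ) / p.1)).sum
noncomputable def wM (M : List (ℕ × ℤ × Bool)) : ℝ := (M.map (fun q => (1 : ℝ) / (2 * q.1))).sum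

/-- covers of `Z` by residue classes `L` and by special subsets `M` of `Z` -/
structure Cover (X Z : Set ℤ) (L : List (ℕ × ℤ)) (M : List (ℕ × ℤ × Bool)) : Prop where
  posL : ∀ p ∈ L, 0 < p.1
  posM : ∀ q ∈ M, 0 < q.1
  sub : ∀ q ∈ M, sp X q ⊆ Z
  cov : ∀ x ∈ Z, (∃ p ∈ L, (p.1 : ℤ) ∣ x - p.2) ∨ ∃ q ∈ M, x ∈ sp X q

/-- the upper quasi-density -/
noncomputable def mu (X Z : Set ℤ) : ℝ := sInf {c | ∃ L M, Cover X Z L M ∧ c = wL L + wM M}

theorem wL_nonneg (L : List (ℕ × ℤ)) : 0 ≤ wL L := by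
  unfold wL
  apply List.sum_nonneg
  intro x hx
  obtain ⟨p, _, rfl⟩ := List.mem_map.1 hx
  positivity

theorem wM_nonneg (M : List (ℕ × ℤ × Bool)) : 0 ≤ wM M := by
  unfold wM
  apply List.sum_nonneg
  intro x hx
  obtain ⟨p, _, rfl⟩ := List.mem_map.1 hx
  positivity

theorem bdd (X Z : Set ℤ) : BddBelow {c | ∃ L M, Cover X Z L M ∧ c = wL L + wM M} := by
  refine ⟨0, ?_⟩
  rintro c ⟨L, M, _, rfl⟩
  have := wL_nonneg L
  have := wM_nonneg M
  linarith

theorem mu_le {X Z : Set ℤ} {L M} (h : Cover X Z L M) : mu X Z ≤ wL L + wM M :=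
  csInf_le (bdd X Z) ⟨L, M, h, rfl⟩

theorem triv_cover (X Z : Set ℤ) : Cover X Z [(1, 0)] [] where
  posL := by simp
  posM := by simp
  sub := by simp
  cov := by
    intro x _
    left
    exact ⟨(1, 0), by simp, by simp⟩

theorem mu_nonempty (X Z : Set ℤ) : {c | ∃ L M, Cover X Z L M ∧ c = wL L + wM M}.Nonempty :=
  ⟨_, _, _, triv_cover X Z, rfl⟩

theorem mu_le_one (X Z : Set ℤ) : mu X Z ≤ 1 := by
  refine (mu_le (triv_cover X Z)).trans ?_
  simp [wL, wM]

theorem exists_cover {X Z : Set ℤ} {c : ℝ} (h : mu X Z < c) :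
    ∃ L M, Cover X Z L M ∧ wL L + wM M < c := by
  obtain ⟨b, ⟨L, M, hc, rfl⟩, hb⟩ := exists_lt_of_csInf_lt (mu_nonempty X Z) h
  exact ⟨L, M, hc, hb⟩

theorem le_mu {X Z : Set ℤ} {c : ℝ} (h : ∀ L M, Cover X Z L M → c ≤ wL L + wM M) : c ≤ mu X Z := by
  refine le_csInf (mu_nonempty X Z) ?_
  rintro b ⟨L, M, hc, rfl⟩
  exact h L M hc

theorem mu_union (X Z Z' : Set ℤ) : mu X (Z ∪ Z') ≤ mu X Z + mu X Z' := by
  refine le_of_forall_pos_lt_add fun ε hε => ?_
  obtain ⟨L, M, hc, h1⟩ := exists_cover (show mu X Z < mu X Z + ε / 2 by linarith)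
  obtain ⟨L', M', hc', h2⟩ := exists_cover (show mu X Z' < mu X Z' + ε / 2 by linarith)
  have : Cover X (Z ∪ Z') (L ++ L') (M ++ M') := by
    refine ⟨?_, ?_, ?_, ?_⟩
    · intro p hp
      rcases List.mem_append.1 hp with h | h
      · exact hc.posL p h
      · exact hc'.posL p h
    · intro p hp
      rcases List.mem_append.1 hp with h | h
      · exact hc.posM p h
      · exact hc'.posM p h
    · intro p hp
      rcases List.mem_append.1 hp with h | h
      · exact (hc.sub p h).trans Set.subset_union_left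
      · exact (hc'.sub p h).trans Set.subset_union_right
    · rintro x (hx | hx)
      · rcases hc.cov x hx with ⟨p, hp, h⟩ | ⟨q, hq, h⟩
        · exact Or.inl ⟨p, List.mem_append_left _ hp, h⟩
        · exact Or.inr ⟨q, List.mem_append_left _ hq, h⟩
      · rcases hc'.cov x hx with ⟨p, hp, h⟩ | ⟨q, hq, h⟩
        · exact Or.inl ⟨p, List.mem_append_right _ hp, h⟩
        · exact Or.inr ⟨q, List.mem_append_right _ hq, h⟩
  have h3 := mu_le this
  have h4 : wL (L ++ L') + wM (M ++ M') = (wL L + wM M) + (wL L' + wM M') := by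
    simp only [wL, wM, List.map_append, List.sum_append]; ring
  linarith

/-! ## Affine images -/

/-- the affine image -/
def dil (k : ℕ) (h : ℤ) (Z : Set ℤ) : Set ℤ := (fun x => (k : ℤ) * x + h) '' Z

theorem mu_dil_le (X Z : Set ℤ) {k : ℕ} (hk : 0 < k) (h : ℤ) :
    mu X (dil k h Z) ≤ (1 / (k : ℝ)) * mu X Z := by
  have hkR : (0 : ℝ) < k := by exact_mod_cast hk
  rw [one_div, ← div_eq_inv_mul, le_div_iff₀ hkR]
  refine le_mu fun L M hc => ?_
  have hcov : Cover X (dil k h Z) (L.map (fun p => (k * p.1, k * p.2 + h)))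
      (M.map (fun q => (k * q.1, k * q.2.1 + h, q.2.2))) := by
    refine ⟨?_, ?_, ?_, ?_⟩
    · intro p hp
      obtain ⟨p', hp', rfl⟩ := List.mem_map.1 hp
      exact Nat.mul_pos hk (hc.posL p' hp')
    · intro p hp
      obtain ⟨p', hp', rfl⟩ := List.mem_map.1 hp
      exact Nat.mul_pos hk (hc.posM p' hp')
    · intro q hq
      obtain ⟨q', hq', rfl⟩ := List.mem_map.1 hq
      rintro x ⟨y, hy, rfl⟩
      refine ⟨q'.1 * y + q'.2.1, hc.sub q' hq' ⟨y, hy, rfl⟩, ?_⟩
      push_cast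
      ring
    · rintro x ⟨z, hz, rfl⟩
      rcases hc.cov z hz with ⟨p, hp, hd⟩ | ⟨q, hq, y, hy, rfl⟩
      · left
        refine ⟨_, List.mem_map_of_mem hp, ?_⟩
        obtain ⟨c, hc'⟩ := hd
        refine ⟨c, ?_⟩
        push_cast
        linear_combination (k : ℤ) * hc'
      · right
        refine ⟨_, List.mem_map_of_mem hq, y, hy, ?_⟩
        push_cast
        ring
  have h1 := mu_le hcov
  have e1 : wL (L.map (fun p => (k * p.1, (k : ℤ) * p.2 + h))) * k = wL L := by
    unfold wL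
    rw [List.map_map, ← List.sum_map_mul_right]
    congr 1
    apply List.map_congr_left
    intro p hp
    have : (0 : ℝ) < p.1 := by exact_mod_cast hc.posL p hp
    simp only [Function.comp]
    push_cast
    field_simp
  have e2 : wM (M.map (fun q => (k * q.1, (k : ℤ) * q.2.1 + h, q.2.2))) * k = wM M := by
    unfold wM
    rw [List.map_map, ← List.sum_map_mul_right]
    congr 1
    apply List.map_congr_left
    intro p hp
    have : (0 : ℝ) < p.1 := by exact_mod_cast hc.posM p hp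
    simp only [Function.comp]
    push_cast
    field_simp
  nlinarith

theorem gen_pair {X : Set ℤ} (hX : Gen X) (s : Bool) :
    ∃ y : ℤ, (y ∈ X ↔ s = true) ∧ (y + 1 ∈ X ↔ s = true) := by
  classical
  obtain ⟨x, _, hx⟩ := hX {(1, 0, !s), (1, -1, !s)} 1 0 one_pos (by
    intro q hq
    simp only [Finset.mem_insert, Finset.mem_singleton] at hq
    rcases hq with rfl | rfl <;> simp) (by
    intro k h h1 h2
    simp only [Finset.mem_insert, Finset.mem_singleton, Prod.mk.injEq] at h1 h2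
    cases s <;> simp_all)
  refine ⟨x, ?_, ?_⟩
  · have := hx (1, 0, !s) (by simp)
    by_contra hc
    exact this ⟨x, by cases s <;> simp_all, by simp⟩
  · have := hx (1, -1, !s) (by simp)
    by_contra hc
    exact this ⟨x + 1, by cases s <;> simp_all, by simp⟩

theorem le_mu_dil {X : Set ℤ} (hX : Gen X) (Z : Set ℤ) {k : ℕ} (hk : 0 < k) (h : ℤ) :
    (1 / (k : ℝ)) * mu X Z ≤ mu X (dil k h Z) := by
  classical
  have hkR : (0 : ℝ) < k := by exact_mod_cast hk
  have hkZ : (0 : ℤ) < k := by exact_mod_cast hk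
  refine le_mu fun L M hc => ?_
  rw [one_div, ← div_eq_inv_mul, div_le_iff₀ hkR]
  -- structure of the special sets
  have hM : ∀ q ∈ M, (k : ℕ) ∣ q.1 ∧ (k : ℤ) ∣ q.2.1 - h := by
    intro q hq
    obtain ⟨y, hy1, hy2⟩ := gen_pair hX q.2.2
    obtain ⟨z1, _, hz1⟩ := hc.sub q hq ⟨y, hy1, rfl⟩
    obtain ⟨z2, _, hz2⟩ := hc.sub q hq ⟨y + 1, hy2, rfl⟩
    dsimp only at hz1 hz2
    have hd : (k : ℤ) ∣ q.1 := ⟨z2 - z1, by linear_combination hz1 - hz2⟩
    refine ⟨by exact_mod_cast hd, ?_⟩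
    obtain ⟨c, hc'⟩ := hd
    exact ⟨z1 - c * y, by rw [hc'] at hz1; linear_combination -hz1⟩
  let sol : ℕ × ℤ → ℤ := fun p =>
    if hs : ∃ x : ℤ, (p.1 : ℤ) ∣ k * x + h - p.2 then hs.choose else 0
  have hcov : Cover X Z (L.map (fun p => (p.1 / Nat.gcd k p.1, sol p)))
      (M.map (fun q => (q.1 / k, (q.2.1 - h) / k, q.2.2))) := by
    refine ⟨?_, ?_, ?_, ?_⟩
    · intro p hp
      obtain ⟨p', hp', rfl⟩ := List.mem_map.1 hp
      have := hc.posL p' hp'
      exact Nat.div_pos (Nat.gcd_le_right _ this) (Nat.gcd_pos_of_pos_left _ hk)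
    · intro p hp
      obtain ⟨p', hp', rfl⟩ := List.mem_map.1 hp
      exact Nat.div_pos (Nat.le_of_dvd (hc.posM p' hp') (hM p' hp').1) hk
    · intro q hq
      obtain ⟨q', hq', rfl⟩ := List.mem_map.1 hq
      rintro x ⟨y, hy, rfl⟩
      obtain ⟨z, hz, hz'⟩ := hc.sub q' hq' ⟨y, hy, rfl⟩
      dsimp only at hz' hy ⊢
      obtain ⟨⟨c1, hc1⟩, ⟨c2, hc2⟩⟩ := hM q' hq'
      have e1 : q'.1 / k = c1 := by rw [hc1]; exact Nat.mul_div_cancel_left _ hk
      have e2 : (q'.2.1 - h) / k = c2 := by rw [hc2]; exact Int.mul_ediv_cancel_left _ hkZ.ne'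
      rw [e1, e2]
      have : (c1 : ℤ) * y + c2 = z := by
        apply mul_left_cancel₀ hkZ.ne'
        have h3 : (q'.1 : ℤ) = k * c1 := by exact_mod_cast hc1
        rw [h3] at hz'
        linear_combination -hz' - hc2
      rw [this]
      exact hz
    · intro x hx
      rcases hc.cov (k * x + h) ⟨x, hx, rfl⟩ with ⟨p, hp, hd⟩ | ⟨q, hq, y, hy, hxy⟩
      · left
        refine ⟨_, List.mem_map_of_mem hp, ?_⟩
        have hs : ∃ x : ℤ, (p.1 : ℤ) ∣ k * x + h - p.2 := ⟨x, hd⟩
        have e : sol p = hs.choose := by simp only [sol]; rw [dif_pos hs]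
        dsimp only
        rw [e]
        have h2 := hs.choose_spec
        generalize hs.choose = x1 at h2
        have h3 : (p.1 : ℤ) ∣ k * (x - x1) := by
          have := dvd_sub hd h2
          rwa [show (k : ℤ) * x + h - p.2 - (k * x1 + h - p.2) = k * (x - x1) by ring]
            at this
        have hg : 0 < Nat.gcd k p.1 := Nat.gcd_pos_of_pos_left _ hk
        obtain ⟨a, ha⟩ := Nat.gcd_dvd_left k p.1
        obtain ⟨b, hb⟩ := Nat.gcd_dvd_right k p.1
        set g := Nat.gcd k p.1 with hgdef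
        have e3 : p.1 / g = b := by
          conv_lhs => rw [hb]
          exact Nat.mul_div_cancel_left _ hg
        rw [e3]
        have hcop : Nat.Coprime b a := by
          have := Nat.coprime_div_gcd_div_gcd (m := k) (n := p.1) (by rw [← hgdef]; exact hg)
          rw [← hgdef, e3] at this
          have e4 : k / g = a := by
            conv_lhs => rw [ha]
            exact Nat.mul_div_cancel_left _ hg
          rw [e4] at this
          exact this.symm
        have hgZ : (g : ℤ) ≠ 0 := by exact_mod_cast hg.ne'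
        have h4 : (b : ℤ) ∣ a * (x - x1) := by
          have e5 : (p.1 : ℤ) = g * b := by exact_mod_cast hb
          have e6 : (k : ℤ) = g * a := by exact_mod_cast ha
          rw [e5, e6, mul_assoc] at h3
          exact (mul_dvd_mul_iff_left hgZ).1 h3
        exact (Nat.isCoprime_iff_coprime.2 hcop).dvd_of_dvd_mul_left h4
      · right
        refine ⟨_, List.mem_map_of_mem hq, y, hy, ?_⟩
        dsimp only
        obtain ⟨⟨c1, hc1⟩, ⟨c2, hc2⟩⟩ := hM q hq
        have e1 : q.1 / k = c1 := by rw [hc1]; exact Nat.mul_div_cancel_left _ hk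
        have e2 : (q.2.1 - h) / k = c2 := by rw [hc2]; exact Int.mul_ediv_cancel_left _ hkZ.ne'
        rw [e1, e2]
        apply mul_left_cancel₀ hkZ.ne'
        have h3 : (q.1 : ℤ) = k * c1 := by exact_mod_cast hc1
        rw [h3] at hxy
        linear_combination hxy + hc2
  have h1 := mu_le hcov
  have e1 : wL (L.map (fun p => (p.1 / Nat.gcd k p.1, sol p))) ≤ wL L * k := by
    unfold wL
    rw [List.map_map, ← List.sum_map_mul_right]
    apply List.sum_le_sum
    intro p hp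
    have hp0 := hc.posL p hp
    have hp' : (0 : ℝ) < p.1 := by exact_mod_cast hp0
    simp only [Function.comp]
    have hgk : Nat.gcd k p.1 ≤ k := Nat.gcd_le_left _ hk
    have hg : 0 < Nat.gcd k p.1 := Nat.gcd_pos_of_pos_left _ hk
    rw [Nat.cast_div (Nat.gcd_dvd_right k p.1) (by exact_mod_cast hg.ne'), one_div_div,
      one_div_mul_eq_div]
    gcongr
  have e2 : wM (M.map (fun q => (q.1 / k, (q.2.1 - h) / k, q.2.2))) = wM M * k := by
    unfold wM
    rw [List.map_map, ← List.sum_map_mul_right]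
    congr 1
    apply List.map_congr_left
    intro p hp
    have : (0 : ℝ) < p.1 := by exact_mod_cast hc.posM p hp
    simp only [Function.comp]
    rw [Nat.cast_div (hM p hp).1 hkR.ne']
    field_simp
  linarith

/-! ## Counting along residue classes -/

theorem count_classes {k N : ℕ} (hk : 0 < k) (hkN : k ∣ N) (h : ℤ) :
    ∑ r ∈ Finset.Ico (0 : ℤ) N, (if (k : ℤ) ∣ r - h then (1 : ℝ) else 0) = (N : ℝ) / k := by
  obtain ⟨m, rfl⟩ := hkN
  have hkQ : (0 : ℚ) < k := by exact_mod_cast hk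
  have hkR : (0 : ℝ) < k := by exact_mod_cast hk
  rw [Finset.sum_boole]
  have h1 := Int.Ico_filter_modEq_card (a := 0) (b := ((k * m : ℕ) : ℤ)) (r := k)
    (by exact_mod_cast hk) h
  have e : (Finset.Ico (0 : ℤ) ((k * m : ℕ) : ℤ)).filter (fun x => (k : ℤ) ∣ x - h) =
      (Finset.Ico (0 : ℤ) ((k * m : ℕ) : ℤ)).filter (fun x => x ≡ h [ZMOD k]) := by
    apply Finset.filter_congr
    intro x _
    rw [Int.modEq_iff_dvd, ← dvd_neg, neg_sub]
  rw [e]
  have h2 : (((((k * m : ℕ) : ℤ) : ℤ) : ℚ) - h) / ((k : ℤ) : ℚ) =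
      (((0 : ℤ) : ℚ) - h) / ((k : ℤ) : ℚ) + (m : ℤ) := by
    push_cast
    field_simp
    ring
  rw [h2, Int.ceil_add_intCast] at h1
  have h3 : (((Finset.Ico (0 : ℤ) ((k * m : ℕ) : ℤ)).filter
      (fun x => x ≡ h [ZMOD k])).card : ℤ) = m := by
    rw [h1]
    have : (0 : ℤ) ≤ m := by positivity
    omega
  have h4 : (((Finset.Ico (0 : ℤ) ((k * m : ℕ) : ℤ)).filter
      (fun x => x ≡ h [ZMOD k])).card : ℝ) = m := by exact_mod_cast h3
  rw [h4]
  push_cast
  field_simp

/-- local weights -/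
noncomputable def cL (L : List (ℕ × ℤ)) (r : ℤ) : ℝ :=
  (L.map (fun p => if (p.1 : ℤ) ∣ r - p.2 then (1 : ℝ) else 0)).sum
noncomputable def cM (M : List (ℕ × ℤ × Bool)) (r : ℤ) : ℝ :=
  (M.map (fun q => if (q.1 : ℤ) ∣ r - q.2.1 then (1 / 2 : ℝ) else 0)).sum

theorem cL_nonneg (L : List (ℕ × ℤ)) (r : ℤ) : 0 ≤ cL L r := by
  unfold cL
  apply List.sum_nonneg
  intro x hx
  obtain ⟨p, _, rfl⟩ := List.mem_map.1 hx
  split_ifs <;> norm_num

theorem cM_nonneg (M : List (ℕ × ℤ × Bool)) (r : ℤ) : 0 ≤ cM M r := by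
  unfold cM
  apply List.sum_nonneg
  intro x hx
  obtain ⟨p, _, rfl⟩ := List.mem_map.1 hx
  split_ifs <;> norm_num

theorem wL_eq {N : ℕ} (L : List (ℕ × ℤ)) (hL : ∀ p ∈ L, 0 < p.1 ∧ p.1 ∣ N) :
    (N : ℝ) * wL L = ∑ r ∈ Finset.Ico (0 : ℤ) N, cL L r := by
  induction L with
  | nil => simp [wL, cL]
  | cons p L ih =>
    have h1 := ih (fun q hq => hL q (List.mem_cons_of_mem _ hq))
    obtain ⟨h2, h3⟩ := hL p List.mem_cons_self
    have h4 := count_classes h2 h3 p.2
    simp only [wL, cL, List.map_cons, List.sum_cons] at h1 ⊢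
    rw [Finset.sum_add_distrib, ← h1, h4]
    ring

theorem wM_eq {N : ℕ} (M : List (ℕ × ℤ × Bool)) (hM : ∀ p ∈ M, 0 < p.1 ∧ p.1 ∣ N) :
    (N : ℝ) * wM M = ∑ r ∈ Finset.Ico (0 : ℤ) N, cM M r := by
  induction M with
  | nil => simp [wM, cM]
  | cons p L ih =>
    have h1 := ih (fun q hq => hM q (List.mem_cons_of_mem _ hq))
    obtain ⟨h2, h3⟩ := hM p List.mem_cons_self
    have h4 := count_classes h2 h3 p.2.1
    simp only [wM, cM, List.map_cons, List.sum_cons] at h1 ⊢
    rw [Finset.sum_add_distrib, ← h1]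
    have h5 : ∑ r ∈ Finset.Ico (0 : ℤ) N, (if (p.1 : ℤ) ∣ r - p.2.1 then (1 / 2 : ℝ) else 0) =
        (1 / 2) * ((N : ℝ) / p.1) := by
      rw [← h4, Finset.mul_sum]
      refine Finset.sum_congr rfl fun r _ => ?_
      split_ifs <;> simp
    rw [h5]
    have : (0 : ℝ) < p.1 := by exact_mod_cast h2
    field_simp

theorem one_le_cL {L : List (ℕ × ℤ)} {r : ℤ} {p} (hp : p ∈ L) (hd : (p.1 : ℤ) ∣ r - p.2) :
    1 ≤ cL L r := by
  unfold cL
  have h1 : (if (p.1 : ℤ) ∣ r - p.2 then (1 : ℝ) else 0) = 1 := if_pos hd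
  refine h1.symm.le.trans ?_
  apply List.single_le_sum
  · intro x hx
    obtain ⟨p, _, rfl⟩ := List.mem_map.1 hx
    split_ifs <;> norm_num
  · exact List.mem_map_of_mem (f := fun p : ℕ × ℤ => if (p.1 : ℤ) ∣ r - p.2 then (1 : ℝ) else 0) hp

theorem half_le_cM {M : List (ℕ × ℤ × Bool)} {r : ℤ} {p} (hp : p ∈ M)
    (hd : (p.1 : ℤ) ∣ r - p.2.1) : 1 / 2 ≤ cM M r := by
  unfold cM
  have h1 : (if (p.1 : ℤ) ∣ r - p.2.1 then (1 / 2 : ℝ) else 0) = 1 / 2 := if_pos hd
  refine h1.symm.le.trans ?_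
  apply List.single_le_sum
  · intro x hx
    obtain ⟨p, _, rfl⟩ := List.mem_map.1 hx
    split_ifs <;> norm_num
  · exact List.mem_map_of_mem
      (f := fun p : ℕ × ℤ × Bool => if (p.1 : ℤ) ∣ r - p.2.1 then (1 / 2 : ℝ) else 0) hp

theorem one_le_cM {M : List (ℕ × ℤ × Bool)} {r : ℤ} {p q} (hp : p ∈ M) (hq : q ∈ M) (hpq : p ≠ q)
    (hd : (p.1 : ℤ) ∣ r - p.2.1) (hd' : (q.1 : ℤ) ∣ r - q.2.1) : 1 ≤ cM M r := by
  classical
  have hperm := List.perm_cons_erase hp
  have hq' : q ∈ M.erase p := (List.mem_erase_of_ne hpq.symm).2 hq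
  have h1 := half_le_cM hq' hd'
  have h2 : cM M r = (if (p.1 : ℤ) ∣ r - p.2.1 then (1 / 2 : ℝ) else 0) + cM (M.erase p) r := by
    unfold cM
    rw [(hperm.map _).sum_eq, List.map_cons, List.sum_cons]
  rw [h2, if_pos hd]
  linarith

theorem sp_cong {X : Set ℤ} {q : ℕ × ℤ × Bool} {x : ℤ} (hx : x ∈ sp X q) : (q.1 : ℤ) ∣ x - q.2.1 := by
  obtain ⟨y, _, rfl⟩ := hx
  exact ⟨y, by ring⟩

/-- local lower bounds for covers of sets containing the complement of `X` -/
theorem local_bound {X Z : Set ℤ} (hX : Gen X) {L M} (hc : Cover X Z L M) (hZ : Xᶜ ⊆ Z) {N : ℕ}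
    (hN : 0 < N) (hL : ∀ p ∈ L, p.1 ∣ N) (hM : ∀ q ∈ M, q.1 ∣ N) (r : ℤ) :
    1 / 2 ≤ cL L r + cM M r ∧ ((∀ x : ℤ, (N : ℤ) ∣ x - r → x ∈ Z) → 1 ≤ cL L r + cM M r) := by
  classical
  by_cases h1 : ∃ p ∈ L, (p.1 : ℤ) ∣ r - p.2
  · obtain ⟨p, hp, hd⟩ := h1
    have := one_le_cL hp hd
    have := cM_nonneg M r
    exact ⟨by linarith, fun _ => by linarith⟩
  push Not at h1
  set F := (M.filter (fun q => (q.1 : ℤ) ∣ r - q.2.1)).toFinset with hF
  have hFm : ∀ q, q ∈ F ↔ q ∈ M ∧ (q.1 : ℤ) ∣ r - q.2.1 := by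
    intro q; rw [hF, List.mem_toFinset, List.mem_filter]; simp
  by_cases h2 : ∃ k h, (k, h, true) ∈ F ∧ (k, h, false) ∈ F
  · obtain ⟨k, h, ha, hb⟩ := h2
    rw [hFm] at ha hb
    have := one_le_cM ha.1 hb.1 (by simp) ha.2 hb.2
    have := cL_nonneg L r
    exact ⟨by linarith, fun _ => by linarith⟩
  push Not at h2
  -- an uncovered point
  have key : ∀ x : ℤ, (N : ℤ) ∣ x - r → (∀ q ∈ F, x ∉ sp X q) → x ∉ Z := by
    intro x hxr hxF hxZ
    rcases hc.cov x hxZ with ⟨p, hp, hd⟩ | ⟨q, hq, hxq⟩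
    · apply h1 p hp
      have : (p.1 : ℤ) ∣ x - r := (Int.natCast_dvd_natCast.2 (hL p hp)).trans hxr
      have := dvd_sub hd this
      rwa [show x - p.2 - (x - r) = r - p.2 by ring] at this
    · refine hxF q ((hFm q).2 ⟨hq, ?_⟩) hxq
      have h3 : (q.1 : ℤ) ∣ x - r := (Int.natCast_dvd_natCast.2 (hM q hq)).trans hxr
      have := dvd_sub (sp_cong hxq) h3
      rwa [show x - q.2.1 - (x - r) = r - q.2.1 by ring] at this
  have hFd : ∀ q ∈ F, 0 < q.1 ∧ q.1 ∣ N ∧ (q.1 : ℤ) ∣ r - q.2.1 := by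
    intro q hq
    rw [hFm] at hq
    exact ⟨hc.posM q hq.1, hM q hq.1, hq.2⟩
  have hcM := cM_nonneg M r
  have hcL := cL_nonneg L r
  refine ⟨?_, ?_⟩
  · by_cases h3 : ((1, 0, false) : ℕ × ℤ × Bool) ∈ F
    · have := half_le_cM ((hFm _).1 h3).1 ((hFm _).1 h3).2
      linarith
    · exfalso
      obtain ⟨x, hx1, hx2⟩ := hX (insert (1, 0, true) F) N r hN (by
        intro q hq
        rcases Finset.mem_insert.1 hq with rfl | hq
        · simp
        · exact hFd q hq) (by
        intro k h ha hb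
        rcases Finset.mem_insert.1 hb with hb | hb
        · simp at hb
        · rcases Finset.mem_insert.1 ha with ha | ha
          · simp only [Prod.mk.injEq, and_true] at ha
            obtain ⟨rfl, rfl⟩ := ha
            exact h3 hb
          · exact h2 k h ha hb)
      refine key x hx1 (fun q hq => hx2 q (Finset.mem_insert_of_mem hq)) (hZ ?_)
      intro hxX
      exact hx2 (1, 0, true) (Finset.mem_insert_self _ _) ⟨x, by simp [hxX], by simp⟩
  · intro hall
    exfalso
    obtain ⟨x, hx1, hx2⟩ := hX F N r hN hFd h2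
    exact key x hx1 hx2 (hall x hx1)

/-- no special set other than `X` itself is contained in `X` -/
theorem sp_sub {X : Set ℤ} (hX : Gen X) {q : ℕ × ℤ × Bool} (hq : 0 < q.1) (h : sp X q ⊆ X) :
    q = (1, 0, true) := by
  classical
  by_contra hne
  obtain ⟨k, h', s⟩ := q
  obtain ⟨x, hx1, hx2⟩ := hX {(k, h', !s), (1, 0, true)} k h' hq (by
    intro q' hq'
    simp only [Finset.mem_insert, Finset.mem_singleton] at hq'
    rcases hq' with rfl | rfl
    · exact ⟨hq, dvd_refl _, by simp⟩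
    · exact ⟨one_pos, one_dvd _, by simp⟩) (by
    intro k' h'' h1 h2
    simp only [Finset.mem_insert, Finset.mem_singleton, Prod.mk.injEq] at h1 h2
    apply hne
    cases s <;> simp_all)
  have hxs : x ∈ sp X (k, h', s) := by
    obtain ⟨y, hy⟩ := hx1
    refine ⟨y, ?_, by linear_combination hy⟩
    have := hx2 (k, h', !s) (by simp)
    by_contra hc
    exact this ⟨y, by cases s <;> simp_all, by linear_combination hy⟩
  exact hx2 (1, 0, true) (by simp) ⟨x, by simp [h hxs], by simp⟩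

theorem exists_mult (L : List (ℕ × ℤ)) (M : List (ℕ × ℤ × Bool)) (hL : ∀ p ∈ L, 0 < p.1)
    (hM : ∀ q ∈ M, 0 < q.1) : ∃ N : ℕ, 0 < N ∧ (∀ p ∈ L, p.1 ∣ N) ∧ ∀ q ∈ M, q.1 ∣ N := by
  refine ⟨(L.map Prod.fst).prod * (M.map Prod.fst).prod, ?_, ?_, ?_⟩
  · apply Nat.mul_pos
    · apply List.prod_pos
      intro a ha
      obtain ⟨p, hp, rfl⟩ := List.mem_map.1 ha
      exact hL p hp
    · apply List.prod_pos
      intro a ha
      obtain ⟨p, hp, rfl⟩ := List.mem_map.1 ha
      exact hM p hp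
  · intro p hp
    exact (List.dvd_prod (List.mem_map_of_mem hp)).mul_right _
  · intro p hp
    exact (List.dvd_prod (List.mem_map_of_mem hp)).mul_left _

theorem mu_univ {X : Set ℤ} (hX : Gen X) : mu X Set.univ = 1 := by
  refine le_antisymm (mu_le_one _ _) (le_mu fun L M hc => ?_)
  obtain ⟨N, hN, hL, hM⟩ := exists_mult L M hc.posL hc.posM
  have hNR : (0 : ℝ) < N := by exact_mod_cast hN
  have h1 := wL_eq L (fun p hp => ⟨hc.posL p hp, hL p hp⟩)
  have h2 := wM_eq M (fun p hp => ⟨hc.posM p hp, hM p hp⟩)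
  have h3 : ∑ r ∈ Finset.Ico (0 : ℤ) N, (1 : ℝ) ≤
      ∑ r ∈ Finset.Ico (0 : ℤ) N, (cL L r + cM M r) :=
    Finset.sum_le_sum fun r _ =>
      (local_bound hX hc (Set.subset_univ _) hN hL hM r).2 (fun _ _ => trivial)
  rw [Finset.sum_add_distrib, ← h1, ← h2] at h3
  simp only [Finset.sum_const, Int.card_Ico, sub_zero, Int.toNat_natCast, nsmul_eq_mul,
    mul_one] at h3
  have h4 : (N : ℝ) * 1 ≤ N * (wL L + wM M) := by linarith
  exact le_of_mul_le_mul_left h4 hNR

theorem mu_X_le (X : Set ℤ) : mu X X ≤ 1 / 2 := by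
  have hc : Cover X X [] [(1, 0, true)] := by
    refine ⟨by simp, by simp, ?_, ?_⟩
    · intro q hq
      rw [List.mem_singleton] at hq
      subst hq
      rintro x ⟨y, hy, rfl⟩
      simpa using hy
    · intro x hx
      right
      exact ⟨(1, 0, true), by simp, x, by simp [hx], by simp⟩
  refine (mu_le hc).trans ?_
  simp [wL, wM]

theorem mu_compl_le (X : Set ℤ) : mu X Xᶜ ≤ 1 / 2 := by
  have hc : Cover X Xᶜ [] [(1, 0, false)] := by
    refine ⟨by simp, by simp, ?_, ?_⟩
    · intro q hq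
      rw [List.mem_singleton] at hq
      subst hq
      rintro x ⟨y, hy, rfl⟩
      simpa using hy
    · intro x hx
      right
      refine ⟨(1, 0, false), by simp, x, ?_, by simp⟩
      simpa using hx
  refine (mu_le hc).trans ?_
  simp [wL, wM]

theorem mu_X {X : Set ℤ} (hX : Gen X) : mu X X = 1 / 2 ∧ mu X Xᶜ = 1 / 2 := by
  have h1 := mu_X_le X
  have h2 := mu_compl_le X
  have h3 := mu_union X X Xᶜ
  rw [Set.union_compl_self, mu_univ hX] at h3
  exact ⟨by linarith, by linarith⟩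

/-- the main dichotomy -/
theorem main {X : Set ℤ} (hX : Gen X) {Y : Set ℤ} (hY : Y ⊆ X) (hne : Y ≠ X)
    (hdom : mu X Y + mu X Yᶜ = 1) : mu X Y ≤ 0 := by
  classical
  by_contra hpos
  push Not at hpos
  set a := mu X Y with ha
  obtain ⟨L, M, hc, h1⟩ := exists_cover (show mu X Y < a + a / 16 by linarith)
  obtain ⟨L', M', hc', h1'⟩ := exists_cover (show mu X Yᶜ < mu X Yᶜ + a / 16 by linarith)
  have hMnil : ∀ q, q ∉ M := by
    intro q hq
    have h2 := sp_sub hX (hc.posM q hq) ((hc.sub q hq).trans hY)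
    subst h2
    apply hne
    refine Set.Subset.antisymm hY fun x hx => ?_
    exact hc.sub _ hq ⟨x, by simp [hx], by simp⟩
  obtain ⟨N, hN, hLM, hLM'⟩ := exists_mult (L ++ L') (M ++ M') (by
    intro p hp
    rcases List.mem_append.1 hp with h | h
    · exact hc.posL p h
    · exact hc'.posL p h) (by
    intro p hp
    rcases List.mem_append.1 hp with h | h
    · exact hc.posM p h
    · exact hc'.posM p h)
  have hNR : (0 : ℝ) < N := by exact_mod_cast hN
  have hNZ : (0 : ℤ) < N := by exact_mod_cast hN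
  have e1 := wL_eq (N := N) L (fun p hp => ⟨hc.posL p hp, hLM p (List.mem_append_left _ hp)⟩)
  have e1' := wL_eq (N := N) L' (fun p hp => ⟨hc'.posL p hp, hLM p (List.mem_append_right _ hp)⟩)
  have e2' := wM_eq (N := N) M' (fun p hp => ⟨hc'.posM p hp, hLM' p (List.mem_append_right _ hp)⟩)
  -- classes meeting `Y`
  set R := (Finset.Ico (0 : ℤ) N).filter (fun r => ∃ x ∈ Y, (N : ℤ) ∣ x - r) with hR
  have b1 : ∑ r ∈ Finset.Ico (0 : ℤ) N, (if ∃ x ∈ Y, (N : ℤ) ∣ x - r then (1 : ℝ) else 0) ≤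
      ∑ r ∈ Finset.Ico (0 : ℤ) N, cL L r := by
    refine Finset.sum_le_sum fun r _ => ?_
    split_ifs with h
    · obtain ⟨x, hx, hxr⟩ := h
      rcases hc.cov x hx with ⟨p, hp, hd⟩ | ⟨q, hq, _⟩
      · refine one_le_cL hp ?_
        have h3 : (p.1 : ℤ) ∣ x - r :=
          (Int.natCast_dvd_natCast.2 (hLM p (List.mem_append_left _ hp))).trans hxr
        have := dvd_sub hd h3
        rwa [show x - p.2 - (x - r) = r - p.2 by ring] at this
      · exact absurd hq (hMnil q)
    · exact cL_nonneg _ _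
  have b2 : ∑ r ∈ Finset.Ico (0 : ℤ) N,
      (1 - (1 / 2 : ℝ) * (if ∃ x ∈ Y, (N : ℤ) ∣ x - r then (1 : ℝ) else 0)) ≤
      ∑ r ∈ Finset.Ico (0 : ℤ) N, (cL L' r + cM M' r) := by
    refine Finset.sum_le_sum fun r _ => ?_
    have hb := local_bound hX hc' (Set.compl_subset_compl.2 hY) hN
      (fun p hp => hLM p (List.mem_append_right _ hp))
      (fun p hp => hLM' p (List.mem_append_right _ hp)) r
    split_ifs with h
    · linarith [hb.1]
    · have := hb.2 (fun x hx hxY => h ⟨x, hxY, hx⟩)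
      linarith
  rw [Finset.sum_boole, ← e1] at b1
  rw [Finset.sum_add_distrib, ← e1', ← e2', Finset.sum_sub_distrib, ← Finset.mul_sum,
    Finset.sum_boole] at b2
  simp only [Finset.sum_const, Int.card_Ico, sub_zero, Int.toNat_natCast, nsmul_eq_mul,
    mul_one] at b2
  rw [← hR] at b1 b2
  -- upper bound for `mu X Y`
  have hcR : Cover X Y (R.toList.map (fun r => (N, r))) [] := by
    refine ⟨?_, by simp, by simp, ?_⟩
    · intro p hp
      obtain ⟨r, _, rfl⟩ := List.mem_map.1 hp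
      exact hN
    · intro x hx
      left
      refine ⟨(N, x % N), List.mem_map.2 ⟨x % N, ?_, rfl⟩, ?_⟩
      · rw [Finset.mem_toList, hR, Finset.mem_filter, Finset.mem_Ico]
        refine ⟨⟨Int.emod_nonneg _ hNZ.ne', Int.emod_lt_of_pos _ hNZ⟩, x, hx, ?_⟩
        exact Int.dvd_self_sub_emod
      · exact Int.dvd_self_sub_emod
  have b3 := mu_le hcR
  have e3 : wL (R.toList.map (fun r => (N, r))) = (R.card : ℝ) / N := by
    unfold wL
    rw [List.map_map]
    simp only [Function.comp_def]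
    rw [List.map_const', List.sum_replicate, Finset.length_toList, nsmul_eq_mul]
    ring
  have e4 : wM ([] : List (ℕ × ℤ × Bool)) = 0 := by simp [wM]
  rw [e3, e4, add_zero, ← ha, le_div_iff₀ hNR] at b3
  have hw := wM_nonneg M
  have c1 : (N : ℝ) * (wL L + wM M) < N * (a + a / 16) := by
    apply mul_lt_mul_of_pos_left _ hNR
    linarith
  have c2 : (N : ℝ) * (wL L' + wM M') < N * (mu X Yᶜ + a / 16) :=
    mul_lt_mul_of_pos_left h1' hNR
  have c3 : (N : ℝ) * wL L ≤ N * (wL L + wM M) := by nlinarith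
  have c4 : (N : ℝ) * (a + mu X Yᶜ) = N * 1 := by rw [hdom]
  have c5 : 0 < (N : ℝ) * a := by positivity
  nlinarith

theorem mu_nonneg (X Z : Set ℤ) : 0 ≤ mu X Z :=
  le_mu fun L M _ => add_nonneg (wL_nonneg L) (wM_nonneg M)

end Pool.Agent.X88.QDens
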