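import Mathlib

/-!
# Restricted Bell polynomials: the block-removal recurrence
-/

namespace Pool.Agent.X88.RBell

open Finset Polynomial

variable {α : Type*} [DecidableEq α]

/-- `F` is the set of blocks of a partition of `s` all of whose blocks have at most `m` elements. -/
def IsP (m : ℕ) (s : Finset α) (F : Finset (Finset α)) : Prop :=
  (∀ b ∈ F, b.Nonempty ∧ b.card ≤ m) ∧ (∀ b ∈ F, ∀ c ∈ F, b ≠ c → Disjoint b c) ∧
    F.biUnion id = s

open Classical in
/-- all block sets of partitions of `s` with blocks of size at most `m` -/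
noncomputable def PF (m : ℕ) (s : Finset α) : Finset (Finset (Finset α)) :=
  s.powerset.powerset.filter (IsP m s)

theorem mem_PF {m : ℕ} {s : Finset α} {F : Finset (Finset α)} : F ∈ PF m s ↔ IsP m s F := by
  classical
  unfold PF
  rw [Finset.mem_filter, and_iff_right_of_imp]
  intro h
  rw [Finset.mem_powerset]
  intro b hb
  rw [Finset.mem_powerset, ← h.2.2]
  exact Finset.subset_biUnion_of_mem id hb

/-- weight sum -/
noncomputable def W (m : ℕ) (s : Finset α) : ℤ[X] := ∑ F ∈ PF m s, X ^ F.card

theorem W_insert (m : ℕ) {a : α} {s : Finset α} (ha : a ∉ s) :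
    W (m + 1) (insert a s) =
      ∑ t ∈ s.powerset.filter (fun t => t.card ≤ m), X * W (m + 1) (s \ t) := by
  classical
  unfold W
  simp only [Finset.mul_sum]
  rw [Finset.sum_sigma']
  refine Finset.sum_bij'
    (i := fun F _ => (⟨((F.filter (fun b => a ∈ b)).biUnion id).erase a,
      F.filter (fun b => a ∉ b)⟩ : (_ : Finset α) × Finset (Finset α)))
    (j := fun q _ => insert (insert a q.1) q.2) ?_ ?_ ?_ ?_ ?_
  · intro F hF
    rw [mem_PF] at hF
    obtain ⟨h1, h2, h3⟩ := hF
    obtain ⟨b, hbF, hab⟩ : ∃ b ∈ F, a ∈ b := by
      have : a ∈ F.biUnion id := by rw [h3]; exact Finset.mem_insert_self _ _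
      simpa using this
    have hfil : F.filter (fun b => a ∈ b) = {b} := by
      ext c
      simp only [Finset.mem_filter, Finset.mem_singleton]
      constructor
      · rintro ⟨hc, hac⟩
        by_contra hne
        exact (Finset.disjoint_left.1 (h2 c hc b hbF hne) hac) hab
      · rintro rfl
        exact ⟨hbF, hab⟩
    simp only [Finset.mem_sigma, Finset.mem_filter, Finset.mem_powerset, mem_PF, hfil,
      Finset.singleton_biUnion, id]
    have hbs : b ⊆ insert a s := by rw [← h3]; exact Finset.subset_biUnion_of_mem id hbF
    refine ⟨⟨?_, ?_⟩, ?_, ?_, ?_⟩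
    · intro y hy
      rw [Finset.mem_erase] at hy
      have := hbs hy.2
      rw [Finset.mem_insert] at this
      exact this.resolve_left hy.1
    · rw [Finset.card_erase_of_mem hab]
      have := (h1 b hbF).2
      omega
    · intro c hc
      rw [Finset.mem_filter] at hc
      exact h1 c hc.1
    · intro c hc d hd hne
      rw [Finset.mem_filter] at hc hd
      exact h2 c hc.1 d hd.1 hne
    · ext y
      simp only [Finset.mem_biUnion, Finset.mem_filter, id, Finset.mem_sdiff, Finset.mem_erase]
      constructor
      · rintro ⟨c, ⟨hc, hac⟩, hyc⟩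
        have hys : y ∈ insert a s := by
          rw [← h3]; exact Finset.mem_biUnion.2 ⟨c, hc, hyc⟩
        rw [Finset.mem_insert] at hys
        refine ⟨hys.resolve_left (fun h => hac (h ▸ hyc)), ?_⟩
        rintro ⟨_, hyb⟩
        have hne : c ≠ b := fun h => hac (h ▸ hab)
        exact (Finset.disjoint_left.1 (h2 c hc b hbF hne) hyc) hyb
      · rintro ⟨hys, hyb⟩
        have : y ∈ F.biUnion id := by rw [h3]; exact Finset.mem_insert_of_mem hys
        rw [Finset.mem_biUnion] at this
        obtain ⟨c, hc, hyc⟩ := this
        have hya : y ≠ a := fun h => ha (h ▸ hys)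
        refine ⟨c, ⟨hc, fun hac => ?_⟩, hyc⟩
        have : c = b := by
          by_contra hne
          exact (Finset.disjoint_left.1 (h2 c hc b hbF hne) hac) hab
        exact hyb ⟨hya, this ▸ hyc⟩
  · rintro ⟨t, F⟩ hq
    simp only [Finset.mem_sigma, Finset.mem_filter, Finset.mem_powerset, mem_PF] at hq
    obtain ⟨⟨hts, htm⟩, h1, h2, h3⟩ := hq
    have hat : a ∉ t := fun h => ha (hts h)
    rw [mem_PF]
    have hdis : ∀ c ∈ F, Disjoint (insert a t) c := by
      intro c hc
      have hcs : c ⊆ s \ t := by rw [← h3]; exact Finset.subset_biUnion_of_mem id hc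
      rw [Finset.disjoint_left]
      intro y hy hyc
      have := hcs hyc
      rw [Finset.mem_sdiff] at this
      rw [Finset.mem_insert] at hy
      rcases hy with rfl | hy
      · exact ha this.1
      · exact this.2 hy
    refine ⟨?_, ?_, ?_⟩
    · intro b hb
      rw [Finset.mem_insert] at hb
      rcases hb with rfl | hb
      · refine ⟨Finset.insert_nonempty _ _, ?_⟩
        rw [Finset.card_insert_of_notMem hat]
        omega
      · exact h1 b hb
    · intro b hb c hc hne
      rw [Finset.mem_insert] at hb hc
      rcases hb with rfl | hb <;> rcases hc with rfl | hc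
      · exact absurd rfl hne
      · exact hdis c hc
      · exact (hdis b hb).symm
      · exact h2 b hb c hc hne
    · rw [Finset.biUnion_insert, h3]
      ext y
      simp only [id, Finset.mem_union, Finset.mem_insert, Finset.mem_sdiff]
      constructor
      · rintro ((h | h) | h)
        · exact Or.inl h
        · exact Or.inr (hts h)
        · exact Or.inr h.1
      · rintro (h | h)
        · exact Or.inl (Or.inl h)
        · by_cases hyt : y ∈ t
          · exact Or.inl (Or.inr hyt)
          · exact Or.inr ⟨h, hyt⟩
  · intro F hF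
    rw [mem_PF] at hF
    obtain ⟨h1, h2, h3⟩ := hF
    obtain ⟨b, hbF, hab⟩ : ∃ b ∈ F, a ∈ b := by
      have : a ∈ F.biUnion id := by rw [h3]; exact Finset.mem_insert_self _ _
      simpa using this
    have hfil : F.filter (fun b => a ∈ b) = {b} := by
      ext c
      simp only [Finset.mem_filter, Finset.mem_singleton]
      constructor
      · rintro ⟨hc, hac⟩
        by_contra hne
        exact (Finset.disjoint_left.1 (h2 c hc b hbF hne) hac) hab
      · rintro rfl
        exact ⟨hbF, hab⟩
    dsimp only
    rw [hfil, Finset.singleton_biUnion]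
    simp only [id]
    rw [Finset.insert_erase hab]
    ext c
    simp only [Finset.mem_insert, Finset.mem_filter]
    constructor
    · rintro (rfl | h)
      · exact hbF
      · exact h.1
    · intro hc
      by_cases hcb : c = b
      · exact Or.inl hcb
      · refine Or.inr ⟨hc, fun hac => ?_⟩
        exact (Finset.disjoint_left.1 (h2 c hc b hbF hcb) hac) hab
  · rintro ⟨t, F⟩ hq
    simp only [Finset.mem_sigma, Finset.mem_filter, Finset.mem_powerset, mem_PF] at hq
    obtain ⟨⟨hts, htm⟩, h1, h2, h3⟩ := hq
    have hat : a ∉ t := fun h => ha (hts h)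
    have haF : ∀ c ∈ F, a ∉ c := by
      intro c hc hac
      have hcs : c ⊆ s \ t := by rw [← h3]; exact Finset.subset_biUnion_of_mem id hc
      exact ha (Finset.mem_sdiff.1 (hcs hac)).1
    have e1 : (insert (insert a t) F).filter (fun b => a ∈ b) = {insert a t} := by
      ext c
      simp only [Finset.mem_filter, Finset.mem_insert, Finset.mem_singleton]
      constructor
      · rintro ⟨h | h, h'⟩
        · exact h
        · exact absurd h' (haF c h)
      · rintro rfl
        exact ⟨Or.inl rfl, Finset.mem_insert_self _ _⟩
    have e2 : (insert (insert a t) F).filter (fun b => a ∉ b) = F := by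
      ext c
      simp only [Finset.mem_filter, Finset.mem_insert]
      constructor
      · rintro ⟨h | h, h'⟩
        · exact absurd (h ▸ Finset.mem_insert_self _ _) h'
        · exact h
      · intro h
        exact ⟨Or.inr h, haF c h⟩
    dsimp only
    rw [e1, e2, Finset.singleton_biUnion]
    simp only [id]
    rw [Finset.erase_insert hat]
  · intro F hF
    rw [mem_PF] at hF
    obtain ⟨h1, h2, h3⟩ := hF
    obtain ⟨b, hbF, hab⟩ : ∃ b ∈ F, a ∈ b := by
      have : a ∈ F.biUnion id := by rw [h3]; exact Finset.mem_insert_self _ _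
      simpa using this
    have hfil : F.filter (fun b => a ∉ b) = F.erase b := by
      ext c
      simp only [Finset.mem_filter, Finset.mem_erase]
      constructor
      · rintro ⟨hc, hac⟩
        exact ⟨fun h => hac (h ▸ hab), hc⟩
      · rintro ⟨hne, hc⟩
        exact ⟨hc, fun hac => (Finset.disjoint_left.1 (h2 c hc b hbF hne) hac) hab⟩
    dsimp only
    rw [hfil, Finset.card_erase_of_mem hbF, ← pow_succ']
    congr 1
    have := Finset.card_pos.2 ⟨b, hbF⟩
    omega

theorem W_empty (m : ℕ) : W m (∅ : Finset α) = 1 := by
  classical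
  have : PF m (∅ : Finset α) = {∅} := by
    ext F
    rw [mem_PF, Finset.mem_singleton]
    constructor
    · rintro ⟨h1, _, h3⟩
      rw [Finset.eq_empty_iff_forall_notMem]
      intro b hb
      obtain ⟨y, hy⟩ := (h1 b hb).1
      have : y ∈ F.biUnion id := Finset.mem_biUnion.2 ⟨b, hb, hy⟩
      rw [h3] at this
      simp at this
    · rintro rfl
      exact ⟨by simp, by simp, by simp⟩
  unfold W
  rw [this]
  simp

/-- the polynomial defined by the recurrence -/
noncomputable def β (m : ℕ) : ℕ → ℤ[X]
  | 0 => 1
  | n + 1 => X * ∑ j : Fin (n + 1), if (j : ℕ) ≤ m then (n.choose j : ℤ[X]) * β m (n - j) else 0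
termination_by n => n
decreasing_by omega

theorem β_zero (m : ℕ) : β m 0 = 1 := by rw [β]

theorem β_succ (m n : ℕ) : β m (n + 1) =
    X * ∑ j ∈ Finset.range (n + 1), if j ≤ m then (n.choose j : ℤ[X]) * β m (n - j) else 0 := by
  rw [β, Fin.sum_univ_eq_sum_range (fun j => if j ≤ m then (n.choose j : ℤ[X]) * β m (n - j) else 0)]

theorem W_eq (m : ℕ) : ∀ (n : ℕ) (s : Finset α), s.card = n → W (m + 1) s = β m n := by
  classical
  intro n
  induction n using Nat.strong_induction_on with
  | _ n ih =>
    intro s hs
    rcases n with _ | n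
    · rw [Finset.card_eq_zero] at hs
      subst hs
      rw [W_empty, β_zero]
    · obtain ⟨a, s', ha, rfl, hs'⟩ := Finset.card_eq_succ.1 hs
      rw [W_insert m ha, β_succ, ← Finset.mul_sum]
      congr 1
      rw [Finset.sum_filter]
      have : ∀ t ∈ s'.powerset, (if t.card ≤ m then W (m + 1) (s' \ t) else 0) =
          (if t.card ≤ m then β m (n - t.card) else 0) := by
        intro t ht
        rw [Finset.mem_powerset] at ht
        split_ifs with h
        · refine ih (n - t.card) (by omega) _ ?_
          rw [Finset.card_sdiff_of_subset ht, hs']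
        · rfl
      rw [Finset.sum_congr rfl this,
        Finset.sum_powerset_apply_card (fun k => if k ≤ m then β m (n - k) else 0), hs']
      refine Finset.sum_congr rfl fun j _ => ?_
      split_ifs with h
      · rw [nsmul_eq_mul]
      · simp

end Pool.Agent.X88.RBell
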