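import Mathlib
import Pool.Agent.X88.RBell

/-!
# Restricted Bell polynomials: exact evaluation and the Laguerre inequality
-/

namespace Pool.Agent.X88.RBell

open Finset Polynomial

/-- force a natural number -/
def fN {τ : Type} (n : ℕ) (f : ℕ → τ) : τ := Nat.casesOn n (f 0) (fun k => f (k + 1))

theorem fN_eq {τ : Type} (n : ℕ) (f : ℕ → τ) : fN n f = f n := by
  cases n <;> rfl

/-- force an integer -/
def fZ {τ : Type} (z : ℤ) (f : ℤ → τ) : τ :=
  Int.casesOn z (fun n => fN n (fun n => f (Int.ofNat n)))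
    (fun n => fN n (fun n => f (Int.negSucc n)))

theorem fZ_eq {τ : Type} (z : ℤ) (f : ℤ → τ) : fZ z f = f z := by
  cases z <;> simp [fZ, fN_eq]

/-- five-term weighted sum -/
def five (c1 c2 c3 c4 a0 a1 a2 a3 a4 : ℤ) : ℤ := a0 + c1 * a1 + c2 * a2 + c3 * a3 + c4 * a4

/-- loop -/
def loop (x : ℤ) (n : ℕ) (a0 a1 a2 a3 a4 b0 b1 b2 b3 b4 d0 d1 d2 d3 d4 : ℤ) : ℕ → ℤ × ℤ × ℤ
  | 0 => (a0, b0, d0)
  | k + 1 =>
    fZ (Int.ofNat n) fun c1 => fZ (Int.ofNat (n * (n - 1) / 2)) fun c2 =>
    fZ (Int.ofNat (n * (n - 1) * (n - 2) / 6)) fun c3 =>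
    fZ (Int.ofNat (n * (n - 1) * (n - 2) * (n - 3) / 24)) fun c4 =>
    fZ (five c1 c2 c3 c4 a0 a1 a2 a3 a4) fun ta =>
    fZ (five c1 c2 c3 c4 b0 b1 b2 b3 b4) fun tb =>
    fZ (five c1 c2 c3 c4 d0 d1 d2 d3 d4) fun td =>
    fZ (x * ta) fun a' =>
    fZ (ta + x * tb) fun b' =>
    fZ (2 * tb + x * td) fun d' =>
    fN (n + 1) fun n' =>
    loop x n' a' a0 a1 a2 a3 b' b0 b1 b2 b3 d' d0 d1 d2 d3 k

/-- final comparison -/
def chk (r : ℤ × ℤ × ℤ) : Bool := decide (r.2.1 * r.2.1 < r.1 * r.2.2)

set_option maxRecDepth 100000 in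
theorem t800 : chk (loop (-2068) 0 1 0 0 0 0 0 0 0 0 0 0 0 0 0 0 800) = true := by
  decide +kernel

/-- shifted values of the sequence -/
noncomputable def P (n i : ℕ) : ℤ[X] := if i ≤ n then β 4 (n - i) else 0

theorem P_zero (n : ℕ) : P n 0 = β 4 n := by simp [P]

theorem P_succ (n i : ℕ) : P (n + 1) (i + 1) = P n i := by
  unfold P
  by_cases h : i ≤ n
  · rw [if_pos h, if_pos (by omega)]
    congr 1
    omega
  · rw [if_neg h, if_neg (by omega)]

theorem P_init (i : ℕ) : P 0 (i + 1) = 0 := by
  unfold P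
  rw [if_neg (by omega)]

theorem choose2 (n : ℕ) : n * (n - 1) / 2 = n.choose 2 := (Nat.choose_two_right n).symm

theorem choose3 (n : ℕ) : n * (n - 1) * (n - 2) / 6 = n.choose 3 := by
  rw [Nat.choose_eq_descFactorial_div_factorial]
  simp only [Nat.descFactorial, Nat.factorial]
  congr 1
  simp only [Nat.sub_zero, Nat.mul_one]
  ring

theorem choose4 (n : ℕ) : n * (n - 1) * (n - 2) * (n - 3) / 24 = n.choose 4 := by
  rw [Nat.choose_eq_descFactorial_div_factorial]
  simp only [Nat.descFactorial, Nat.factorial]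
  congr 1
  simp only [Nat.sub_zero, Nat.mul_one]
  ring

theorem β_step (n : ℕ) : β 4 (n + 1) = X * (P n 0 + (n : ℤ[X]) * P n 1 +
    (n.choose 2 : ℤ[X]) * P n 2 + (n.choose 3 : ℤ[X]) * P n 3 + (n.choose 4 : ℤ[X]) * P n 4) := by
  rw [β_succ]
  congr 1
  have h : ∀ j, (if j ≤ 4 then (n.choose j : ℤ[X]) * β 4 (n - j) else 0) =
      if j ≤ n then (if j ≤ 4 then (n.choose j : ℤ[X]) * P n j else 0) else
        (if j ≤ 4 then (n.choose j : ℤ[X]) * β 4 (n - j) else 0) := by
    intro j
    by_cases h1 : j ≤ n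
    · rw [if_pos h1]
      unfold P
      rw [if_pos h1]
    · rw [if_neg h1]
  have e1 : ∑ j ∈ Finset.range (n + 1), (if j ≤ 4 then (n.choose j : ℤ[X]) * β 4 (n - j) else 0) =
      ∑ j ∈ Finset.range (n + 1 + 5), (if j ≤ 4 then (n.choose j : ℤ[X]) * P n j else 0) := by
    conv_rhs => rw [Finset.sum_range_add]
    have z : ∑ x ∈ Finset.range 5, (if n + 1 + x ≤ 4 then
        (n.choose (n + 1 + x) : ℤ[X]) * P n (n + 1 + x) else 0) = 0 := by
      refine Finset.sum_eq_zero fun j _ => ?_
      split_ifs
      · unfold P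
        rw [if_neg (by omega), mul_zero]
      · rfl
    rw [z, add_zero]
    refine Finset.sum_congr rfl fun j hj => ?_
    rw [Finset.mem_range] at hj
    rw [h j, if_pos (by omega)]
  have e2 : ∑ j ∈ Finset.range (n + 1 + 5), (if j ≤ 4 then (n.choose j : ℤ[X]) * P n j else 0) =
      ∑ j ∈ Finset.range 5, (n.choose j : ℤ[X]) * P n j := by
    rw [show n + 1 + 5 = 5 + (n + 1) by ring, Finset.sum_range_add]
    have z : ∑ x ∈ Finset.range (n + 1), (if 5 + x ≤ 4 then
        (n.choose (5 + x) : ℤ[X]) * P n (5 + x) else 0) = 0 := by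
      refine Finset.sum_eq_zero fun j _ => ?_
      rw [if_neg (by omega)]
    rw [z, add_zero]
    refine Finset.sum_congr rfl fun j hj => ?_
    rw [Finset.mem_range] at hj
    rw [if_pos (by omega)]
  rw [e1, e2]
  simp only [Finset.sum_range_succ, Finset.sum_range_zero, Nat.choose_zero_right,
    Nat.choose_one_right, zero_add, Nat.cast_one, one_mul]

theorem loop_eq (x : ℤ) : ∀ (k n : ℕ),
    loop x n (eval x (P n 0)) (eval x (P n 1)) (eval x (P n 2)) (eval x (P n 3)) (eval x (P n 4))
      (eval x (derivative (P n 0))) (eval x (derivative (P n 1))) (eval x (derivative (P n 2)))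
      (eval x (derivative (P n 3))) (eval x (derivative (P n 4)))
      (eval x (derivative (derivative (P n 0)))) (eval x (derivative (derivative (P n 1))))
      (eval x (derivative (derivative (P n 2)))) (eval x (derivative (derivative (P n 3))))
      (eval x (derivative (derivative (P n 4)))) k =
    (eval x (β 4 (n + k)), eval x (derivative (β 4 (n + k))),
      eval x (derivative (derivative (β 4 (n + k))))) := by
  intro k
  induction k with
  | zero =>
    intro n
    simp only [loop, P_zero, add_zero]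
  | succ k ih =>
    intro n
    rw [show n + (k + 1) = (n + 1) + k by ring, ← ih (n + 1)]
    rw [loop]
    simp only [fZ_eq, fN_eq, choose2, choose3, choose4, five]
    have s1 := P_succ n 0
    have s2 := P_succ n 1
    have s3 := P_succ n 2
    have s4 := P_succ n 3
    norm_num at s1 s2 s3 s4
    rw [s1, s2, s3, s4, P_zero (n + 1), β_step n]
    simp only [derivative_mul, derivative_add, derivative_X, derivative_natCast, eval_add, eval_mul,
      eval_X, eval_natCast, one_mul, zero_mul, zero_add, Int.ofNat_eq_natCast]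
    congr 1
    ring

theorem exact_ineq : eval (-2068 : ℤ) (derivative (β 4 800)) * eval (-2068 : ℤ) (derivative (β 4 800)) <
    eval (-2068 : ℤ) (β 4 800) * eval (-2068 : ℤ) (derivative (derivative (β 4 800))) := by
  have h := loop_eq (-2068) 800 0
  have i1 := P_init 0
  have i2 := P_init 1
  have i3 := P_init 2
  have i4 := P_init 3
  norm_num at i1 i2 i3 i4
  rw [i1, i2, i3, i4, P_zero, β_zero] at h
  simp only [derivative_one, derivative_zero, eval_one, eval_zero, zero_add] at h
  have t := t800
  rw [h] at t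
  simpa [chk] using t

/-- Laguerre inequality -/
theorem laguerre_prod (s : Multiset ℝ) (x : ℝ) :
    eval x (s.map (fun a => X - C a)).prod *
      eval x (derivative (derivative (s.map (fun a => X - C a)).prod)) ≤
    (eval x (derivative (s.map (fun a => X - C a)).prod)) ^ 2 := by
  induction s using Multiset.induction_on with
  | empty => simp
  | cons r s ih =>
    set q := (s.map (fun a => X - C a)).prod with hq
    rw [Multiset.map_cons, Multiset.prod_cons, ← hq]
    simp only [derivative_mul, derivative_add, derivative_sub, derivative_X, derivative_C, sub_zero,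
      one_mul, eval_add, eval_mul, eval_sub, eval_X, eval_C]
    nlinarith [sq_nonneg (eval x q), mul_le_mul_of_nonneg_left ih (sq_nonneg (x - r))]

theorem laguerre {p : ℝ[X]} (hp : p.Splits) (x : ℝ) :
    eval x p * eval x (derivative (derivative p)) ≤ (eval x (derivative p)) ^ 2 := by
  rw [hp.eq_prod_roots]
  have := laguerre_prod p.roots x
  simp only [derivative_mul, derivative_C, zero_mul, zero_add, eval_mul, eval_C, mul_pow]
  nlinarith [mul_le_mul_of_nonneg_left this (sq_nonneg p.leadingCoeff)]

/-- an integer polynomial violating the Laguerre inequality at an integer has a non-real root -/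
theorem exists_nonreal {p : ℤ[X]} (x : ℤ)
    (h : eval x (derivative p) * eval x (derivative p) < eval x p * eval x (derivative (derivative p))) :
    ∃ z : ℂ, eval z (p.map (Int.castRingHom ℂ)) = 0 ∧ z.im ≠ 0 := by
  by_contra hcon
  push Not at hcon
  have hs : (p.map (Int.castRingHom ℝ)).Splits := by
    apply Polynomial.Splits.of_splits_map (algebraMap ℝ ℂ)
    · exact IsAlgClosed.splits _
    · intro z hz
      have hz' : eval z (p.map (Int.castRingHom ℂ)) = 0 := by
        have := (Polynomial.mem_roots'.1 hz).2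
        rw [Polynomial.IsRoot.def, Polynomial.map_map,
          RingHom.ext_int ((algebraMap ℝ ℂ).comp (Int.castRingHom ℝ)) (Int.castRingHom ℂ)] at this
        exact this
      have hi := hcon z hz'
      refine ⟨z.re, ?_⟩
      apply Complex.ext
      · simp
      · simp [hi]
  have hl := laguerre hs (x : ℝ)
  rw [derivative_map, derivative_map] at hl
  have ev : ∀ q : ℤ[X], eval (x : ℝ) (q.map (Int.castRingHom ℝ)) = ((eval x q : ℤ) : ℝ) := by
    intro q
    exact Polynomial.eval_intCast_map (Int.castRingHom ℝ) q x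
  rw [ev, ev, ev, sq] at hl
  have : (eval x p * eval x (derivative (derivative p))) ≤
      eval x (derivative p) * eval x (derivative p) := by exact_mod_cast hl
  omega

end Pool.Agent.X88.RBell
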