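import Mathlib

set_option autoImplicit false

namespace Pool.Agent.X88.ThirdOrder

open Real

/-- logarithm of a sum of two exponentials -/
noncomputable def LS (P Q : ℝ) : ℝ := log (exp P + exp Q)

lemma LS_ge_left (P Q : ℝ) : P ≤ LS P Q := by
  unfold LS
  rw [le_log_iff_exp_le (by positivity)]
  have := exp_pos Q
  linarith

lemma LS_ge_right (P Q : ℝ) : Q ≤ LS P Q := by
  unfold LS
  rw [le_log_iff_exp_le (by positivity)]
  have := exp_pos P
  linarith

lemma LS_le_left (P Q : ℝ) : LS P Q ≤ P + exp (Q - P) := by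
  unfold LS
  rw [log_le_iff_le_exp (by positivity), exp_add]
  have h1 : exp Q = exp P * exp (Q - P) := by rw [← exp_add]; congr 1; ring
  have h2 := add_one_le_exp (exp (Q - P))
  have h3 := exp_pos P
  nlinarith

lemma LS_le_right (P Q : ℝ) : LS P Q ≤ Q + exp (P - Q) := by
  have : LS P Q = LS Q P := by unfold LS; rw [add_comm]
  rw [this]
  exact LS_le_left Q P

lemma LS_le_one {P Q M : ℝ} (hP : P ≤ M) (hQ : Q ≤ M) : LS P Q ≤ M + 1 := by
  unfold LS
  rw [log_le_iff_le_exp (by positivity), exp_add]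
  have h1 := exp_le_exp.2 hP
  have h2 := exp_le_exp.2 hQ
  have h3 := add_one_le_exp (1:ℝ)
  have h4 := exp_pos M
  nlinarith

lemma exp_small {v N : ℝ} (hN : 0 ≤ N) (h : v ≤ -N) : exp v ≤ 1 / (N + 1) := by
  have h1 : exp v ≤ exp (-N) := exp_le_exp.2 h
  have h2 := add_one_le_exp N
  rw [exp_neg] at h1
  refine h1.trans ?_
  rw [one_div]
  exact inv_anti₀ (by linarith) h2

lemma expq : exp (1 / 4 : ℝ) ≤ 4 / 3 := by
  have h3 := add_one_le_exp (-(1 / 4 : ℝ))
  have h4 : exp (1 / 4 : ℝ) * exp (-(1 / 4 : ℝ)) = 1 := by rw [← exp_add]; norm_num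
  nlinarith [exp_pos (1 / 4 : ℝ)]

lemma expr : exp (1 / 2000 : ℝ) ≤ 2 := by
  have h3 := add_one_le_exp (-(1 / 2000 : ℝ))
  have h4 : exp (1 / 2000 : ℝ) * exp (-(1 / 2000 : ℝ)) = 1 := by rw [← exp_add]; norm_num
  nlinarith [exp_pos (1 / 2000 : ℝ)]

/-- the edge estimate: six steps of the map along an edge -/
lemma edge {p A B x3 x4 x5 x6 x7 x8 : ℝ}
    (hr1 : p ≤ A - B + 1000 + 1 / 4)
    (hB : 1999 ≤ B) (hAB : 1000 ≤ A - B) (hA : 9000 ≤ A)
    (h3 : x3 = LS 0 B - LS p (A - 1000))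
    (h4 : x4 = LS 0 x3 - LS A (B - 1000))
    (h5 : x5 = LS 0 x4 - LS B (x3 - 1000))
    (h6 : x6 = LS 0 x5 - LS x3 (x4 - 1000))
    (h7 : x7 = LS 0 x6 - LS x4 (x5 - 1000))
    (h8 : x8 = LS 0 x7 - LS x5 (x6 - 1000)) :
    A - 60 * exp (2000 - B) - 60 * exp (1000 - A + B) ≤ x7 ∧
    x7 - x8 ≤ A - B - 2000 + 10 ∧
    A - B - 2000 - 2 ≤ x7 - x8 ∧
    B + 2000 - 60 ≤ x8 ∧
    x6 - (x7 - x8 + 1000) ≤ 1 / 4 ∧ -(1 / 4) ≤ x6 - (x7 - x8 + 1000) := by
  set t := exp (2000 - B) with ht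
  set s := exp (1000 - A + B) with hs
  have ht0 : 0 < t := exp_pos _
  have hs0 : 0 < s := exp_pos _
  have he1 : exp 1 < 3 := by
    have := exp_one_lt_d9; linarith
  have hs1 : s ≤ 1 := by
    rw [hs, ← exp_zero]; exact exp_le_exp.2 (by linarith)
  have ht1 : t ≤ 3 := by
    have : t ≤ exp 1 := exp_le_exp.2 (by linarith)
    linarith
  -- x3
  have a1 := LS_ge_right p (A - 1000)
  have a2 := LS_le_right p (A - 1000)
  have a3 : exp (p - (A - 1000)) ≤ 4 / 3 * t := by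
    have h : exp (p - (A - 1000)) ≤ exp (1 / 4) * t := by
      rw [ht, ← exp_add]; exact exp_le_exp.2 (by linarith)
    have h2 : exp (1 / 4 : ℝ) ≤ 4 / 3 := by
      exact expq
    exact h.trans (mul_le_mul_of_nonneg_right h2 ht0.le)
  have b1 := LS_ge_right 0 B
  have b2 := LS_le_right 0 B
  have b3 : exp (0 - B) ≤ 1 / 2000 := by
    have := exp_small (v := 0 - B) (N := 1999) (by norm_num) (by linarith)
    norm_num at this ⊢
    linarith
  have b4 : 2 * exp (0 - B) ≤ t := by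
    have h : t = exp (0 - B) * exp 2000 := by rw [ht, ← exp_add]; congr 1; ring
    have h2 := add_one_le_exp (2000 : ℝ)
    have h3 : exp (0 - B) * 2 ≤ exp (0 - B) * exp 2000 :=
      mul_le_mul_of_nonneg_left (by linarith) (exp_pos _).le
    rw [h]
    linarith
  have c1 : B - A + 1000 - 4 / 3 * t ≤ x3 := by rw [h3]; linarith
  have c2 : x3 ≤ B - A + 1000 + exp (0 - B) := by rw [h3]; linarith
  -- x4
  have d1 : exp (x3 - 0) ≤ 2 * s := by
    have h : exp (x3 - 0) ≤ exp (1 / 2000) * s := by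
      rw [hs, ← exp_add]; exact exp_le_exp.2 (by linarith)
    have h2 : exp (1 / 2000 : ℝ) ≤ 2 := by
      exact expr
    exact h.trans (mul_le_mul_of_nonneg_right h2 hs0.le)
  have d2 := LS_le_left 0 x3
  have d3 := LS_ge_left 0 x3
  have d4 := LS_ge_left A (B - 1000)
  have d5 := LS_le_left A (B - 1000)
  have d6 : exp (B - 1000 - A) ≤ s := exp_le_exp.2 (by linarith)
  have e1 : x4 ≤ -A + 2 * s := by rw [h4]; linarith
  have e2 : -A - s ≤ x4 := by rw [h4]; linarith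
  -- x5
  have f1 := LS_le_left 0 x4
  have f2 := LS_ge_left 0 x4
  have f3 := LS_ge_left B (x3 - 1000)
  have f4 := LS_le_left B (x3 - 1000)
  have f5 : exp (x4 - 0) ≤ s := exp_le_exp.2 (by linarith)
  have f6 : exp (x4 - 0) ≤ 1 / 8000 := by
    have := exp_small (v := x4 - 0) (N := 7999) (by norm_num) (by linarith)
    norm_num at this ⊢
    linarith
  have f7 : exp (x3 - 1000 - B) ≤ 1 / 8000 := by
    have := exp_small (v := x3 - 1000 - B) (N := 7999) (by norm_num) (by linarith)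
    norm_num at this ⊢
    linarith
  have g1 : x5 ≤ -B + s := by rw [h5]; linarith
  have g1' : x5 ≤ -B + 1 / 8000 := by rw [h5]; linarith
  have g2 : -B - 1 / 8000 ≤ x5 := by rw [h5]; linarith
  -- x6
  have i1 := LS_le_left 0 x5
  have i2 := LS_ge_left 0 x5
  have i3 := LS_ge_left x3 (x4 - 1000)
  have i4 := LS_le_left x3 (x4 - 1000)
  have i5 : exp (x4 - 1000 - x3) ≤ exp (0 - B) := exp_le_exp.2 (by linarith)
  have i6 : exp (x5 - 0) ≤ 1 / 1000 := by
    have := exp_small (v := x5 - 0) (N := 999) (by norm_num) (by linarith)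
    norm_num at this ⊢
    linarith
  have j1 : A - B - 1000 - t ≤ x6 := by rw [h6]; linarith
  have j1' : A - B - 1000 - 1 ≤ x6 := by rw [h6]; linarith
  have j2 : x6 ≤ A - B - 1000 + 5 := by rw [h6]; linarith
  -- x7
  have k1 := LS_ge_right 0 x6
  have k2 := LS_le_right 0 x6
  have k3 := LS_ge_right x4 (x5 - 1000)
  have k4 := LS_le_right x4 (x5 - 1000)
  have k5 : exp (x4 - (x5 - 1000)) ≤ 27 * s := by
    have h : exp (x4 - (x5 - 1000)) ≤ exp 3 * s := by
      rw [hs, ← exp_add]; exact exp_le_exp.2 (by linarith)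
    have h2 : exp (3:ℝ) = exp 1 ^ 3 := by rw [← exp_nat_mul]; norm_num
    have h3 : exp (3:ℝ) ≤ 27 := by
      rw [h2]
      have h4 : exp 1 ^ 3 ≤ 3 ^ 3 := pow_le_pow_left₀ (exp_pos 1).le he1.le 3
      refine h4.trans ?_
      norm_num
    exact h.trans (mul_le_mul_of_nonneg_right h3 hs0.le)
  have l1 : A - t - 28 * s ≤ x7 := by rw [h7]; linarith
  have l1' : x6 - x5 + 1000 - 27 * s ≤ x7 := by rw [h7]; linarith
  -- x8
  have m1 := LS_ge_right 0 x7
  have m2 := LS_le_right 0 x7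
  have m3 := LS_ge_right x5 (x6 - 1000)
  have m4 := LS_le_right x5 (x6 - 1000)
  have m5 : exp (0 - x7) ≤ 1 / 8 := by
    have := exp_small (v := 0 - x7) (N := 7) (by norm_num) (by linarith)
    norm_num at this ⊢
    linarith
  have m6 : exp (x5 - (x6 - 1000)) ≤ 1 / 8 := by
    have := exp_small (v := x5 - (x6 - 1000)) (N := 7) (by norm_num) (by linarith)
    norm_num at this ⊢
    linarith
  have n1 : x7 - x6 + 1000 - 1 / 8 ≤ x8 := by rw [h8]; linarith
  have n2 : x8 ≤ x7 - x6 + 1000 + 1 / 8 := by rw [h8]; linarith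
  refine ⟨?_, ?_, ?_, ?_, ?_, ?_⟩ <;> linarith

/-- the corner estimate: seven steps of the map around a corner -/
lemma corner {p A B x3 x4 x5 x6 x7 x8 x9 : ℝ}
    (hr1 : p ≤ A - B + 1000 + 1 / 4)
    (hAB1 : A - B < 1000) (hAB2 : -1002 ≤ A - B) (hA : 9000 ≤ A)
    (h3 : x3 = LS 0 B - LS p (A - 1000))
    (h4 : x4 = LS 0 x3 - LS A (B - 1000))
    (h5 : x5 = LS 0 x4 - LS B (x3 - 1000))
    (h6 : x6 = LS 0 x5 - LS x3 (x4 - 1000))
    (h7 : x7 = LS 0 x6 - LS x4 (x5 - 1000))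
    (h8 : x8 = LS 0 x7 - LS x5 (x6 - 1000))
    (h9 : x9 = LS 0 x8 - LS x6 (x7 - 1000)) :
    A + 990 ≤ x8 ∧ 1999 ≤ x9 ∧ x9 ≤ 4010 ∧
    x7 ≤ x8 - x9 + 1000 + 1 / 4 ∧ x8 - x9 + 1000 - 1 / 4 ≤ x7 := by
  have small : ∀ v : ℝ, v ≤ -3999 → exp v ≤ 1 / 4000 := by
    intro v hv
    have := exp_small (v := v) (N := 3999) (by norm_num) hv
    norm_num at this ⊢
    linarith
  -- x3
  have a1 := LS_ge_right p (A - 1000)
  have a2 := LS_le_right p (A - 1000)
  have a3 := small (p - (A - 1000)) (by linarith)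
  have b1 := LS_ge_right 0 B
  have b2 := LS_le_right 0 B
  have b3 := small (0 - B) (by linarith)
  have c1 : B - A + 1000 - 1 / 4000 ≤ x3 := by rw [h3]; linarith
  have c2 : x3 ≤ B - A + 1000 + 1 / 4000 := by rw [h3]; linarith
  -- x4
  have d1 := LS_ge_right 0 x3
  have d2 := LS_le_one (P := 0) (Q := x3) (M := x3 + 1) (by linarith) (by linarith)
  have d3 := LS_ge_left A (B - 1000)
  have d4 := LS_le_one (P := A) (Q := B - 1000) (M := A + 2) (by linarith) (by linarith)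
  have e1 : x4 ≤ x3 - A + 2 := by rw [h4]; linarith
  have e2 : x3 - A - 3 ≤ x4 := by rw [h4]; linarith
  -- x5
  have f1 := LS_le_left 0 x4
  have f2 := LS_ge_left 0 x4
  have f3 := LS_ge_left B (x3 - 1000)
  have f4 := LS_le_left B (x3 - 1000)
  have f5 := small (x4 - 0) (by linarith)
  have f6 := small (x3 - 1000 - B) (by linarith)
  have g1 : x5 ≤ -B + 1 / 4000 := by rw [h5]; linarith
  have g2 : -B - 1 / 4000 ≤ x5 := by rw [h5]; linarith
  -- x6
  have i1 := LS_le_left 0 x5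
  have i2 := LS_ge_left 0 x5
  have i3 := LS_ge_left x3 (x4 - 1000)
  have i4 := LS_le_left x3 (x4 - 1000)
  have i5 := small (x4 - 1000 - x3) (by linarith)
  have i6 := small (x5 - 0) (by linarith)
  have j1 : -x3 - 1 / 4000 ≤ x6 := by rw [h6]; linarith
  have j2 : x6 ≤ -x3 + 1 / 4000 := by rw [h6]; linarith
  -- x7
  have k1 := LS_ge_left 0 x6
  have k2 := LS_le_one (P := 0) (Q := x6) (M := 1) (by linarith) (by linarith)
  have k3 := LS_ge_left x4 (x5 - 1000)
  have k4 := LS_le_one (P := x4) (Q := x5 - 1000) (M := x4 + 4) (by linarith) (by linarith)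
  have l1 : A - x3 - 7 ≤ x7 := by rw [h7]; linarith
  -- x8
  have m1 := LS_ge_right 0 x7
  have m2 := LS_le_right 0 x7
  have m3 := LS_ge_right x5 (x6 - 1000)
  have m4 := LS_le_right x5 (x6 - 1000)
  have m5 := small (0 - x7) (by linarith)
  have m6 := small (x5 - (x6 - 1000)) (by linarith)
  have n1 : x7 - x6 + 1000 - 1 / 4000 ≤ x8 := by rw [h8]; linarith
  have n2 : x8 ≤ x7 - x6 + 1000 + 1 / 4000 := by rw [h8]; linarith
  -- x9
  have o1 := LS_ge_right 0 x8
  have o2 := LS_le_right 0 x8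
  have o3 := LS_ge_right x6 (x7 - 1000)
  have o4 := LS_le_right x6 (x7 - 1000)
  have o5 := small (0 - x8) (by linarith)
  have o6 := small (x6 - (x7 - 1000)) (by linarith)
  have q1 : x8 - x7 + 1000 - 1 / 4000 ≤ x9 := by rw [h9]; linarith
  have q2 : x9 ≤ x8 - x7 + 1000 + 1 / 4000 := by rw [h9]; linarith
  refine ⟨?_, ?_, ?_, ?_, ?_⟩ <;> linarith

/-- an orbit in logarithmic coordinates -/
def Orbit (X : ℕ → ℝ) : Prop :=
  ∀ n, X (n + 3) = LS 0 (X (n + 2)) - LS (X n) (X (n + 1) - 1000)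

/-- the state at time `n` lies on an edge -/
def Edge (X : ℕ → ℝ) (n : ℕ) : Prop :=
  X n ≤ X (n + 1) - X (n + 2) + 1000 + 1 / 4 ∧ 1999 ≤ X (n + 2) ∧
    1000 ≤ X (n + 1) - X (n + 2)

/-- potential -/
noncomputable def pot (X : ℕ → ℝ) (n : ℕ) : ℝ :=
  X (n + 1) - 120 * exp (2000 - X (n + 2)) + 60 * exp (1000 - X (n + 1) + X (n + 2))

lemma run {X : ℕ → ℝ} (hX : Orbit X) (m : ℕ) : ∀ n, Edge X n →
    X (n + 1) - X (n + 2) ≤ 1000 + m * 1000 → 9500 ≤ pot X n →
    ∃ n', n < n' ∧ X n' ≤ X (n' + 1) - X (n' + 2) + 1000 + 1 / 4 ∧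
      1999 ≤ X (n' + 2) ∧ X (n' + 2) ≤ 4010 ∧ pot X n + 800 ≤ X (n' + 1) := by
  induction m with
  | zero =>
    intro n hE hm hQ
    obtain ⟨hr, hB, hAB⟩ := hE
    have hsle : exp (1000 - X (n + 1) + X (n + 2)) ≤ 1 := by
      rw [← exp_zero]; exact exp_le_exp.2 (by linarith)
    have hs0 := exp_pos (1000 - X (n + 1) + X (n + 2))
    have ht0 := exp_pos (2000 - X (n + 2))
    have hA : 9000 ≤ X (n + 1) := by unfold pot at hQ; linarith
    obtain ⟨r1, r2, r3, r4, r5, r6⟩ := edge hr hB hAB hA (hX n) (hX (n + 1)) (hX (n + 2))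
      (hX (n + 3)) (hX (n + 4)) (hX (n + 5))
    have h1 : X (n + 6 + 1) - X (n + 6 + 2) < 1000 := by
      simp only [Nat.cast_zero, zero_mul] at hm
      show X (n + 7) - X (n + 8) < 1000
      linarith
    have hA' : pot X n - 120 ≤ X (n + 7) := by unfold pot; linarith
    obtain ⟨c1, c2, c3, c4, c5⟩ := corner (p := X (n + 6)) (A := X (n + 7)) (B := X (n + 8))
      (by linarith) h1 (by linarith) (by linarith) (hX (n + 6)) (hX (n + 7)) (hX (n + 8))
      (hX (n + 9)) (hX (n + 10)) (hX (n + 11)) (hX (n + 12))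
    refine ⟨n + 13, by omega, c4, c2, c3, ?_⟩
    show _ ≤ X (n + 14)
    linarith
  | succ m ih =>
    intro n hE hm hQ
    obtain ⟨hr, hB, hAB⟩ := hE
    have hsle : exp (1000 - X (n + 1) + X (n + 2)) ≤ 1 := by
      rw [← exp_zero]; exact exp_le_exp.2 (by linarith)
    have hs0 := exp_pos (1000 - X (n + 1) + X (n + 2))
    have ht0 := exp_pos (2000 - X (n + 2))
    have hA : 9000 ≤ X (n + 1) := by unfold pot at hQ; linarith
    obtain ⟨r1, r2, r3, r4, r5, r6⟩ := edge hr hB hAB hA (hX n) (hX (n + 1)) (hX (n + 2))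
      (hX (n + 3)) (hX (n + 4)) (hX (n + 5))
    by_cases h1 : X (n + 7) - X (n + 8) < 1000
    · have hA' : pot X n - 120 ≤ X (n + 7) := by unfold pot; linarith
      obtain ⟨c1, c2, c3, c4, c5⟩ := corner (p := X (n + 6)) (A := X (n + 7)) (B := X (n + 8))
        (by linarith) h1 (by linarith) (by linarith) (hX (n + 6)) (hX (n + 7)) (hX (n + 8))
        (hX (n + 9)) (hX (n + 10)) (hX (n + 11)) (hX (n + 12))
      refine ⟨n + 13, by omega, c4, c2, c3, ?_⟩
      show _ ≤ X (n + 14)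
      linarith
    · push Not at h1
      have hE' : Edge X (n + 6) := ⟨by show X (n + 6) ≤ X (n + 7) - X (n + 8) + 1000 + 1 / 4; linarith,
        by show 1999 ≤ X (n + 8); linarith, h1⟩
      have hm' : X (n + 6 + 1) - X (n + 6 + 2) ≤ 1000 + m * 1000 := by
        show X (n + 7) - X (n + 8) ≤ _
        push_cast at hm
        linarith
      have hQ' : pot X n ≤ pot X (n + 6) := by
        unfold pot
        show _ ≤ X (n + 7) - 120 * exp (2000 - X (n + 8)) + 60 * exp (1000 - X (n + 7) + X (n + 8))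
        have t1 : exp (2000 - X (n + 8)) ≤ exp (2000 - X (n + 2)) / 2 := by
          have h2 : exp (2000 - X (n + 8)) * 2 ≤ exp (2000 - X (n + 2)) := by
            have h3 : exp (2000 - X (n + 8)) * exp 1 ≤ exp (2000 - X (n + 2)) := by
              rw [← exp_add]; exact exp_le_exp.2 (by linarith)
            have h4 := add_one_le_exp (1:ℝ)
            nlinarith [exp_pos (2000 - X (n + 8))]
          linarith
        have t2 : 2 * exp (1000 - X (n + 1) + X (n + 2)) ≤ exp (1000 - X (n + 7) + X (n + 8)) := by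
          have h3 : exp 1 * exp (1000 - X (n + 1) + X (n + 2))
              ≤ exp (1000 - X (n + 7) + X (n + 8)) := by
            rw [← exp_add]; exact exp_le_exp.2 (by linarith)
          have h4 := add_one_le_exp (1:ℝ)
          nlinarith
        linarith
      obtain ⟨n', h2, h3, h4, h5, h6⟩ := ih (n + 6) hE' hm' (hQ.trans hQ')
      exact ⟨n', by omega, h3, h4, h5, by linarith⟩

lemma round {X : ℕ → ℝ} (hX : Orbit X) {n : ℕ}
    (h1 : X n ≤ X (n + 1) - X (n + 2) + 1000 + 1 / 4)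
    (h2 : 1999 ≤ X (n + 2)) (h3 : X (n + 2) ≤ 4010) (h4 : 10000 ≤ X (n + 1)) :
    ∃ n', n < n' ∧ X n' ≤ X (n' + 1) - X (n' + 2) + 1000 + 1 / 4 ∧
      1999 ≤ X (n' + 2) ∧ X (n' + 2) ≤ 4010 ∧ X (n + 1) + 400 ≤ X (n' + 1) := by
  obtain ⟨m, hm⟩ := exists_nat_ge (X (n + 1) - X (n + 2))
  have he1 : exp 1 < 3 := by
    have := exp_one_lt_d9; linarith
  have ht : exp (2000 - X (n + 2)) ≤ 3 := by
    have : exp (2000 - X (n + 2)) ≤ exp 1 := exp_le_exp.2 (by linarith)
    linarith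
  have hs0 := exp_pos (1000 - X (n + 1) + X (n + 2))
  have hm0 : (0:ℝ) ≤ m := Nat.cast_nonneg m
  have hp : X (n + 1) - 360 ≤ pot X n := by unfold pot; linarith
  obtain ⟨n', a1, a2, a3, a4, a5⟩ := run hX m n ⟨h1, h2, by linarith⟩ (by linarith) (by linarith)
  exact ⟨n', a1, a2, a3, a4, by linarith⟩

lemma unbounded {X : ℕ → ℝ} (hX : Orbit X) (h0 : X 0 = 8000) (h1 : X 1 = 10000)
    (h2 : X 2 = 3000) (k : ℕ) :
    ∃ n, X n ≤ X (n + 1) - X (n + 2) + 1000 + 1 / 4 ∧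
      1999 ≤ X (n + 2) ∧ X (n + 2) ≤ 4010 ∧ 10000 + 400 * k ≤ X (n + 1) := by
  induction k with
  | zero =>
    refine ⟨0, ?_, ?_, ?_, ?_⟩
    · show X 0 ≤ X 1 - X 2 + 1000 + 1 / 4
      rw [h0, h1, h2]; norm_num
    · show 1999 ≤ X 2
      rw [h2]; norm_num
    · show X 2 ≤ 4010
      rw [h2]; norm_num
    · show 10000 + 400 * ((0:ℕ):ℝ) ≤ X 1
      rw [h1]; norm_num
  | succ k ih =>
    obtain ⟨n, a1, a2, a3, a4⟩ := ih
    have hk : (0:ℝ) ≤ k := Nat.cast_nonneg k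
    obtain ⟨n', b1, b2, b3, b4, b5⟩ := round hX a1 a2 a3 (by linarith)
    refine ⟨n', b2, b3, b4, ?_⟩
    push_cast
    linarith

/-- the orbit started at `(8000, 10000, 3000)` -/
noncomputable def Xst : ℕ → ℝ × ℝ × ℝ
  | 0 => (8000, 10000, 3000)
  | n + 1 => ((Xst n).2.1, (Xst n).2.2, LS 0 (Xst n).2.2 - LS (Xst n).1 ((Xst n).2.1 - 1000))

noncomputable def Xs (n : ℕ) : ℝ := (Xst n).1

lemma Xs_orbit : Orbit Xs := by
  intro n
  rfl

lemma exp_LS (P Q : ℝ) : exp (LS P Q) = exp P + exp Q := by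
  unfold LS
  exact exp_log (by positivity)

/-- the solution in the original coordinates -/
theorem exists_unbounded :
    ∃ α C : ℝ, 0 < α ∧ 0 < C ∧ ∃ x : ℕ → ℝ, (∀ n, 0 < x n) ∧
      (∀ n, 0 < C * x (n + 1) + x n ∧
        x (n + 3) = (α + x (n + 2)) / (C * x (n + 1) + x n)) ∧
      ∀ M : ℝ, ∃ n, M < x n := by
  refine ⟨1, exp (-1000), one_pos, exp_pos _, fun n => exp (Xs n), fun n => exp_pos _, ?_, ?_⟩
  · intro n
    refine ⟨by positivity, ?_⟩
    have h := Xs_orbit n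
    simp only
    rw [h, exp_sub, exp_LS, exp_LS, exp_zero]
    congr 1
    rw [← exp_add, add_comm]
    congr 2
    ring
  · intro M
    obtain ⟨k, hk⟩ := exists_nat_gt M
    obtain ⟨n, _, _, _, h⟩ := unbounded Xs_orbit rfl rfl rfl k
    refine ⟨n + 1, ?_⟩
    have h1 := add_one_le_exp (Xs (n + 1))
    have hk0 : (0:ℝ) ≤ k := Nat.cast_nonneg k
    linarith

end Pool.Agent.X88.ThirdOrder
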