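import Mathlib

/-!
# Fixed vertices of automorphisms of trees
-/

set_option autoImplicit false

open SimpleGraph

namespace Pool.Agent.X88.TreeFix

variable {V : Type*} {T : SimpleGraph V}

lemma exists_next (hT : T.IsTree) {u w : V} (h : u ≠ w) :
    ∃ a, T.Adj u a ∧ T.dist a w + 1 = T.dist u w := by
  obtain ⟨p, hp⟩ := hT.connected.exists_walk_length_eq_dist u w
  cases p with
  | nil => exact absurd rfl h
  | @cons _ a _ hadj q =>
    refine ⟨a, hadj, ?_⟩
    rw [Walk.length_cons] at hp
    have h1 := dist_le q
    have h2 := hT.connected.dist_triangle (u := u) (v := a) (w := w)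
    rw [dist_eq_one_iff_adj.mpr hadj] at h2
    omega

lemma next_unique (hT : T.IsTree) {u w a b : V} (h1 : T.Adj u a)
    (h2 : T.dist a w + 1 = T.dist u w) (h3 : T.Adj u b) (h4 : T.dist b w + 1 = T.dist u w) :
    a = b := by
  obtain ⟨p, hp⟩ := hT.connected.exists_walk_length_eq_dist a w
  obtain ⟨q, hq⟩ := hT.connected.exists_walk_length_eq_dist b w
  have hp' : (Walk.cons h1 p).IsPath :=
    Walk.isPath_of_length_eq_dist _ (by rw [Walk.length_cons]; omega)
  have hq' : (Walk.cons h3 q).IsPath :=
    Walk.isPath_of_length_eq_dist _ (by rw [Walk.length_cons]; omega)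
  have := hT.isAcyclic.path_unique ⟨_, hp'⟩ ⟨_, hq'⟩
  rw [Subtype.mk.injEq, Walk.cons.injEq] at this
  exact this.1

lemma step (hT : T.IsTree) {u a w : V} (h : T.Adj u a) :
    T.dist a w + 1 = T.dist u w ∨ T.dist a w = T.dist u w + 1 := by
  have := hT.dist_eq_dist_add_one_of_adj w h
  rw [T.dist_comm, T.dist_comm (u := w) (v := a)] at this
  omega

/-- Distances add if the first steps are different. -/
lemma dist_add (hT : T.IsTree) {x y a : V} (ha : T.Adj y a) (hax : T.dist a x + 1 = T.dist y x)
    (n : ℕ) : ∀ z b : V, T.dist y z = n → T.Adj y b → T.dist b z + 1 = T.dist y z → a ≠ b →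
      T.dist x z = T.dist x y + n := by
  induction n using Nat.strong_induction_on with
  | _ n ih =>
  intro z b hz hb hbz hab
  have hn : 1 ≤ n := by omega
  have hzy : z ≠ y := by
    rintro rfl
    rw [T.dist_self] at hz
    omega
  obtain ⟨z1, hz1, hz1y⟩ := exists_next hT hzy
  rw [T.dist_comm (u := z) (v := y), hz] at hz1y
  have hz1y' : T.dist y z1 = n - 1 := by rw [T.dist_comm]; omega
  -- distance from `x` to `z1`
  have hxz1 : T.dist x z1 = T.dist x y + (n - 1) := by
    rcases Nat.eq_or_lt_of_le hn with h1 | h1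
    · have : z1 = y := by
        rw [← h1] at hz1y'
        exact (hT.connected.dist_eq_zero_iff.mp hz1y').symm
      rw [this, ← h1]; rfl
    · refine ih (n - 1) (by omega) z1 b hz1y' hb ?_ hab
      have h2 := step hT (w := z1) hb
      have h3 := hT.connected.dist_triangle (u := z1) (v := z) (w := b)
      rw [dist_eq_one_iff_adj.mpr hz1.symm, T.dist_comm (u := z1) (v := b),
        T.dist_comm (u := z) (v := b)] at h3
      have h4 := hT.connected.dist_triangle (u := b) (v := z1) (w := z)
      rw [dist_eq_one_iff_adj.mpr hz1.symm] at h4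
      -- `dist b z = n - 1`
      rcases h2 with h2 | h2
      · exact h2
      · exfalso
        -- dist b z1 = n, dist b z = n - 1; so z is next from z1 to b; also z0 next to y..
        have h5 : T.dist b z1 = n := by omega
        have hz1ne : z1 ≠ y := by
          rintro rfl
          rw [T.dist_self] at hz1y'
          omega
        obtain ⟨z0, hz0, hz0y⟩ := exists_next hT hz1ne
        rw [T.dist_comm (u := z1) (v := y), hz1y'] at hz0y
        -- dist b z0 ≤ 1 + (n-2) = n - 1
        have h6 := hT.connected.dist_triangle (u := b) (v := y) (w := z0)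
        rw [dist_eq_one_iff_adj.mpr hb.symm, T.dist_comm (u := y) (v := z0)] at h6
        have h7 := step hT (w := b) hz0
        rw [T.dist_comm (u := z0) (v := b), T.dist_comm (u := z1) (v := b)] at h7
        have h8 : z0 = z := by
          refine next_unique hT (w := b) hz0 ?_ hz1.symm ?_
          · rw [T.dist_comm (u := z0) (v := b), T.dist_comm (u := z1) (v := b)]; omega
          · rw [T.dist_comm (u := z) (v := b), T.dist_comm (u := z1) (v := b)]; omega
        rw [h8, T.dist_comm (u := z) (v := y), hz] at hz0y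
        omega
  have h1 := step hT (w := x) hz1
  rw [T.dist_comm (u := z1) (v := x), T.dist_comm (u := z) (v := x)] at h1
  rcases h1 with h1 | h1
  · omega
  · exfalso
    -- dist x z1 = dist x z + 1
    rcases Nat.eq_or_lt_of_le hn with h2 | h2
    · have h3 : z1 = y := by
        rw [← h2] at hz1y'
        exact (hT.connected.dist_eq_zero_iff.mp hz1y').symm
      subst h3
      have h4 : a = z := next_unique hT (w := x) ha hax hz1.symm (by
        rw [T.dist_comm (u := z) (v := x), T.dist_comm (u := z1) (v := x)]; omega)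
      have h5 : b = z := by
        rw [← hT.connected.dist_eq_zero_iff (u := b)]
        omega
      exact hab (h4.trans h5.symm)
    · have hz1ne : z1 ≠ y := by
        rintro rfl
        rw [T.dist_self] at hz1y'
        omega
      obtain ⟨z0, hz0, hz0y⟩ := exists_next hT hz1ne
      rw [T.dist_comm (u := z1) (v := y), hz1y'] at hz0y
      have h6 := hT.connected.dist_triangle (u := x) (v := y) (w := z0)
      rw [T.dist_comm (u := y) (v := z0)] at h6
      have h7 := step hT (w := x) hz0
      rw [T.dist_comm (u := z0) (v := x), T.dist_comm (u := z1) (v := x)] at h7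
      have h8 : z0 = z := by
        refine next_unique hT (w := x) hz0 ?_ hz1.symm ?_
        · rw [T.dist_comm (u := z0) (v := x), T.dist_comm (u := z1) (v := x)]; omega
        · rw [T.dist_comm (u := z) (v := x), T.dist_comm (u := z1) (v := x)]; omega
      rw [h8, T.dist_comm (u := z) (v := y), hz] at hz0y
      omega

/-- Points on geodesics are determined by their distances to the end points. -/
lemma mid_unique (hT : T.IsTree) (n : ℕ) : ∀ v w m m' : V, T.dist v m = n → T.dist v m' = n →
    T.dist m w + n = T.dist v w → T.dist m' w + n = T.dist v w → m = m' := by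
  induction n with
  | zero =>
    intro v w m m' h1 h2 _ _
    rw [hT.connected.dist_eq_zero_iff] at h1 h2
    rw [← h1, ← h2]
  | succ n ih =>
    intro v w m m' h1 h2 h3 h4
    have key : ∀ m, T.dist v m = n + 1 → T.dist m w + (n + 1) = T.dist v w →
        ∃ c, T.Adj v c ∧ T.dist c w + 1 = T.dist v w ∧ T.dist c m = n := by
      intro m h1 h3
      have hne : v ≠ m := by
        rintro rfl
        rw [T.dist_self] at h1
        omega
      obtain ⟨c, hc, hcm⟩ := exists_next hT hne
      have h5 := hT.connected.dist_triangle (u := c) (v := m) (w := w)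
      have h6 := step hT (w := w) hc
      exact ⟨c, hc, by omega, by omega⟩
    obtain ⟨c, hc1, hc2, hc3⟩ := key m h1 h3
    obtain ⟨c', hc1', hc2', hc3'⟩ := key m' h2 h4
    have hcc : c = c' := next_unique hT hc1 hc2 hc1' hc2'
    subst hcc
    exact ih c w m m' hc3 hc3' (by omega) (by omega)

section action

variable {G : Type*} [Group G] [MulAction G V]

lemma dist_smul (hT : T.IsTree) (hG : ∀ g : G, ∀ x y : V, T.Adj x y → T.Adj (g • x) (g • y))
    (g : G) (x y : V) : T.dist (g • x) (g • y) = T.dist x y := by
  have key : ∀ (g : G) (x y : V), T.dist (g • x) (g • y) ≤ T.dist x y := by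
    intro g x y
    obtain ⟨p, hp⟩ := hT.connected.exists_walk_length_eq_dist x y
    let f : T →g T := ⟨fun v => g • v, fun {a b} h => hG g a b h⟩
    have := dist_le (p.map f)
    rw [Walk.length_map, hp] at this
    exact this
  refine le_antisymm (key g x y) ?_
  have := key g⁻¹ (g • x) (g • y)
  rwa [inv_smul_smul, inv_smul_smul] at this

/-- The midpoint lemma. -/
lemma exists_mid (hT : T.IsTree) (hG : ∀ g : G, ∀ x y : V, T.Adj x y → T.Adj (g • x) (g • y))
    {g : G} (hg : ∃ x : V, g • x = x) (v : V) :
    ∃ (m : V) (r : ℕ), g • m = m ∧ T.dist v m = r ∧ T.dist m (g • v) = r ∧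
      T.dist v (g • v) = 2 * r := by
  classical
  -- nearest fixed point
  obtain ⟨m, hm, hmin⟩ : ∃ m : V, g • m = m ∧ ∀ m', g • m' = m' → T.dist m v ≤ T.dist m' v := by
    have hex : ∃ n : ℕ, ∃ m : V, g • m = m ∧ T.dist m v = n := by
      obtain ⟨x, hx⟩ := hg
      exact ⟨_, x, hx, rfl⟩
    obtain ⟨m, hm1, hm2⟩ := Nat.find_spec hex
    refine ⟨m, hm1, fun m' hm' => ?_⟩
    rw [hm2]
    exact Nat.find_min' hex ⟨m', hm', rfl⟩
  have hmg : T.dist m (g • v) = T.dist m v := by
    have := dist_smul hT hG g m v
    rwa [hm] at this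
  refine ⟨m, T.dist m v, hm, T.dist_comm, hmg, ?_⟩
  by_cases hmv : m = v
  · rw [← hmv, hm, T.dist_self]
  · obtain ⟨a, ha, hav⟩ := exists_next hT hmv
    have hne : a ≠ g • a := by
      intro h
      have := hmin a h.symm
      omega
    have hb : T.Adj m (g • a) := by
      have := hG g m a ha
      rwa [hm] at this
    have hbv : T.dist (g • a) (g • v) + 1 = T.dist m (g • v) := by
      rw [dist_smul hT hG, hmg, hav]
    have := dist_add hT ha hav (T.dist m (g • v)) (g • v) (g • a) rfl hb hbv hne
    rw [this, hmg, T.dist_comm (u := v) (v := m)]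
    ring

/-- If `a`, `b` and `a * b` have fixed vertices then `a` and `b` have a common fixed vertex. -/
theorem common_fixed (hT : T.IsTree)
    (hG : ∀ g : G, ∀ x y : V, T.Adj x y → T.Adj (g • x) (g • y)) {a b : G}
    (ha : ∃ x : V, a • x = x) (hb : ∃ x : V, b • x = x) (hab : ∃ x : V, (a * b) • x = x) :
    ∃ x : V, a • x = x ∧ b • x = x := by
  obtain ⟨v, hv⟩ := hab
  obtain ⟨m, r, hm, h1, h2, h3⟩ := exists_mid hT hG hb v
  obtain ⟨m', r', hm', h1', h2', h3'⟩ := exists_mid hT hG ha (b • v)
  rw [← mul_smul, hv] at h2' h3'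
  rw [T.dist_comm (u := b • v) (v := v)] at h3'
  have hr : r = r' := by omega
  subst hr
  have : m = m' := mid_unique hT r v (b • v) m m' h1 (by rw [T.dist_comm]; exact h2')
    (by omega) (by rw [T.dist_comm (u := m')]; omega)
  subst this
  exact ⟨m, hm', hm⟩

/-- An automorphism of order three has a fixed vertex. -/
theorem fixed_of_pow_three (hT : T.IsTree)
    (hG : ∀ g : G, ∀ x y : V, T.Adj x y → T.Adj (g • x) (g • y)) {g : G} (hg : g ^ 3 = 1) :
    ∃ x : V, g • x = x := by
  classical
  have hne : Nonempty V := hT.connected.nonempty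
  obtain ⟨v, hmin⟩ : ∃ v : V, ∀ w : V, T.dist v (g • v) ≤ T.dist w (g • w) := by
    have hex : ∃ n : ℕ, ∃ v : V, T.dist v (g • v) = n := ⟨_, hne.some, rfl⟩
    obtain ⟨v, hv⟩ := Nat.find_spec hex
    refine ⟨v, fun w => ?_⟩
    rw [hv]
    exact Nat.find_min' hex ⟨w, rfl⟩
  by_contra hcon
  push Not at hcon
  have hd0 : 0 < T.dist v (g • v) := hT.connected.pos_dist_of_ne (hcon v).symm
  set d := T.dist v (g • v) with hd
  have h1 : T.dist (g • v) (g • g • v) = d := dist_smul hT hG g v (g • v)
  have hggg : g • g • g • v = v := by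
    rw [← mul_smul, ← mul_smul]
    have : g * g * g = g ^ 3 := by rw [pow_succ, pow_two]
    rw [this, hg, one_smul]
  have h2 : T.dist (g • g • v) v = d := by
    have := dist_smul hT hG g (g • v) (g • g • v)
    rw [hggg, h1] at this
    exact this
  obtain ⟨p, hp, hpd⟩ := exists_next hT (hcon v).symm
  -- the neighbour of `g v` closer to `v`
  obtain ⟨q, hq, hqd⟩ := exists_next hT (hcon v)
  rw [T.dist_comm (u := g • v) (v := v), ← hd] at hqd
  have hgp : T.Adj (g • v) (g • p) := hG g v p hp
  have hgpd : T.dist (g • p) (g • g • v) + 1 = T.dist (g • v) (g • g • v) := by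
    rw [dist_smul hT hG, h1, hpd]
  have hqgp : q = g • p := by
    by_contra hne'
    have := dist_add hT (x := v) hq (by rw [T.dist_comm (u := g • v) (v := v), ← hd]; exact hqd)
      d (g • g • v) (g • p) h1 hgp hgpd hne'
    rw [T.dist_comm, h2, ← hd] at this
    omega
  rcases Nat.lt_or_ge 1 d with h3 | h3
  · -- `d ≥ 2`
    have hpne : g • v ≠ p := by
      rintro rfl
      rw [T.dist_self] at hpd
      omega
    obtain ⟨c, hc, hcd⟩ := exists_next hT hpne
    rw [T.dist_comm (u := g • v) (v := p)] at hcd
    have h4 := hT.connected.dist_triangle (u := c) (v := p) (w := v)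
    rw [dist_eq_one_iff_adj.mpr hp.symm] at h4
    have h5 := step hT (w := v) hc
    rw [T.dist_comm (u := g • v) (v := v), ← hd] at h5
    have hcq : c = q := next_unique hT (w := v) hc (by
      rw [T.dist_comm (u := g • v) (v := v), ← hd]; omega) hq (by
      rw [T.dist_comm (u := g • v) (v := v), ← hd]; omega)
    have h6 := hmin p
    rw [← hqgp, ← hcq, T.dist_comm (u := p) (v := c)] at h6
    omega
  · have h4 : d = 1 := by omega
    have h5 : p = g • v := by
      rw [← hT.connected.dist_eq_zero_iff]
      omega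
    have h6 : q = v := by
      rw [← hT.connected.dist_eq_zero_iff]
      omega
    rw [h5, h6] at hqgp
    -- v = g g v
    have h7 : g • v = v := by
      have h8 : g • (g • g • v) = g • v := by rw [← hqgp]
      rw [hggg] at h8
      exact h8.symm
    exact hcon v h7

end action

end Pool.Agent.X88.TreeFix
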