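import Pool.Agent.X88.TreeFix
import Pool.Agent.X88.ChainTree

/-!
# Triangle groups over abelian groups

`Tri A` is the group of all maps `z ↦ σ ^ k z + v` of `A × A`, `σ (x, y) = (-y, x - y)`.
-/

set_option autoImplicit false

namespace Pool.Agent.X88.Tri

/-- first coordinate of `σ ^ k (x, y)` -/
def rx {A : Type} [AddCommGroup A] (k : ZMod 3) (x y : A) : A :=
  if k = 0 then x else if k = 1 then -y else y - x

/-- second coordinate of `σ ^ k (x, y)` -/
def ry {A : Type} [AddCommGroup A] (k : ZMod 3) (x y : A) : A :=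
  if k = 0 then y else if k = 1 then x - y else -x

section

variable {A : Type} [AddCommGroup A]

lemma rx_zero (x y : A) : rx 0 x y = x := by simp [rx]
lemma ry_zero (x y : A) : ry 0 x y = y := by simp [ry]
lemma rx_one (x y : A) : rx 1 x y = -y := by simp [rx]
lemma ry_one (x y : A) : ry 1 x y = x - y := by simp [ry]
lemma rx_two (x y : A) : rx 2 x y = y - x := by
  rw [rx, if_neg (by decide), if_neg (by decide)]
lemma ry_two (x y : A) : ry 2 x y = -x := by
  rw [ry, if_neg (by decide), if_neg (by decide)]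

lemma cases3 (k : ZMod 3) : k = 0 ∨ k = 1 ∨ k = 2 := by
  revert k; decide

lemma rx_add (k : ZMod 3) (x y x' y' : A) : rx k (x + x') (y + y') = rx k x y + rx k x' y' := by
  rcases cases3 k with rfl | rfl | rfl
  · simp only [rx_zero]
  · simp only [rx_one]; abel
  · simp only [rx_two]; abel

lemma ry_add (k : ZMod 3) (x y x' y' : A) : ry k (x + x') (y + y') = ry k x y + ry k x' y' := by
  rcases cases3 k with rfl | rfl | rfl
  · simp only [ry_zero]
  · simp only [ry_one]; abel
  · simp only [ry_two]; abel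

lemma e12 : (1 : ZMod 3) + 2 = 0 := by decide
lemma e21 : (2 : ZMod 3) + 1 = 0 := by decide
lemma e22 : (2 : ZMod 3) + 2 = 1 := by decide
lemma e11 : (1 : ZMod 3) + 1 = 2 := by decide

lemma rx_comp (k l : ZMod 3) (x y : A) : rx k (rx l x y) (ry l x y) = rx (k + l) x y := by
  rcases cases3 k with rfl | rfl | rfl <;> rcases cases3 l with rfl | rfl | rfl <;>
    simp only [rx_zero, ry_zero, rx_one, ry_one, rx_two, ry_two, e12, e21, e22, e11, add_zero,
      zero_add] <;> abel

lemma ry_comp (k l : ZMod 3) (x y : A) : ry k (rx l x y) (ry l x y) = ry (k + l) x y := by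
  rcases cases3 k with rfl | rfl | rfl <;> rcases cases3 l with rfl | rfl | rfl <;>
    simp only [rx_zero, ry_zero, rx_one, ry_one, rx_two, ry_two, e12, e21, e22, e11, add_zero,
      zero_add] <;> abel

lemma rx_map {B : Type} [AddCommGroup B] (f : A →+ B) (k : ZMod 3) (x y : A) :
    f (rx k x y) = rx k (f x) (f y) := by
  rcases cases3 k with rfl | rfl | rfl
  · simp only [rx_zero]
  · simp only [rx_one, map_neg]
  · simp only [rx_two, map_sub]

lemma ry_map {B : Type} [AddCommGroup B] (f : A →+ B) (k : ZMod 3) (x y : A) :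
    f (ry k x y) = ry k (f x) (f y) := by
  rcases cases3 k with rfl | rfl | rfl
  · simp only [ry_zero]
  · simp only [ry_one, map_sub]
  · simp only [ry_two, map_neg]

end

/-- The group of all maps `z ↦ σ ^ k z + (x, y)` of `A × A`. -/
@[ext]
structure Tri (A : Type) where
  /-- first coordinate of the translation part -/
  x : A
  /-- second coordinate of the translation part -/
  y : A
  /-- rotation part -/
  k : ZMod 3

variable {A : Type} [AddCommGroup A]

instance : Mul (Tri A) :=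
  ⟨fun g h => ⟨g.x + rx g.k h.x h.y, g.y + ry g.k h.x h.y, g.k + h.k⟩⟩

instance : One (Tri A) := ⟨⟨0, 0, 0⟩⟩

instance : Inv (Tri A) := ⟨fun g => ⟨-rx (-g.k) g.x g.y, -ry (-g.k) g.x g.y, -g.k⟩⟩

lemma mul_def (g h : Tri A) :
    g * h = ⟨g.x + rx g.k h.x h.y, g.y + ry g.k h.x h.y, g.k + h.k⟩ := rfl

lemma one_def : (1 : Tri A) = ⟨0, 0, 0⟩ := rfl

lemma inv_def (g : Tri A) : g⁻¹ = ⟨-rx (-g.k) g.x g.y, -ry (-g.k) g.x g.y, -g.k⟩ := rfl

instance : Group (Tri A) := Group.ofLeftAxioms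
  (by
    intro a b c
    simp only [mul_def, rx_add, ry_add, rx_comp, ry_comp, add_assoc])
  (by
    intro a
    simp only [mul_def, one_def, rx_zero, ry_zero, zero_add])
  (by
    intro a
    rw [inv_def, mul_def, one_def]
    simp only [neg_add_cancel])

/-- functoriality -/
def map {B : Type} [AddCommGroup B] (f : A →+ B) : Tri A →* Tri B where
  toFun g := ⟨f g.x, f g.y, g.k⟩
  map_one' := by simp only [one_def, map_zero]
  map_mul' g h := by simp only [mul_def, map_add, rx_map, ry_map]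

lemma map_apply {B : Type} [AddCommGroup B] (f : A →+ B) (g : Tri A) :
    map f g = ⟨f g.x, f g.y, g.k⟩ := rfl

lemma pow_trans (x y : A) (n : ℕ) : (⟨x, y, 0⟩ : Tri A) ^ n = ⟨n • x, n • y, 0⟩ := by
  induction n with
  | zero => rw [pow_zero, one_def, zero_smul, zero_smul]
  | succ n ih =>
    rw [pow_succ, ih, mul_def]
    simp only [rx_zero, ry_zero, add_zero, succ_nsmul]

lemma zpow_trans (x y : A) (n : ℤ) : (⟨x, y, 0⟩ : Tri A) ^ n = ⟨n • x, n • y, 0⟩ := by
  cases n with
  | ofNat n =>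
    rw [Int.ofNat_eq_natCast, zpow_natCast, pow_trans, natCast_zsmul, natCast_zsmul]
  | negSucc n =>
    rw [zpow_negSucc, pow_trans, inv_def, negSucc_zsmul, negSucc_zsmul]
    simp only [neg_zero, rx_zero, ry_zero]

/-! ### Property (FA) -/

/-- Every action of `Tri ℤ` on a tree (without inversions) has a fixed vertex. -/
theorem fa (V : Type) [MulAction (Tri ℤ) V] (T : SimpleGraph V) (hT : T.IsTree)
    (hG : ∀ g : Tri ℤ, ∀ x y : V, T.Adj x y → T.Adj (g • x) (g • y)) :
    ∃ v : V, ∀ g : Tri ℤ, g • v = v := by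
  set a : Tri ℤ := ⟨0, 0, 1⟩ with ha
  set b : Tri ℤ := ⟨1, 0, 1⟩ with hb
  have ha3 : a ^ 3 = 1 := by
    rw [pow_succ, pow_two, ha]
    simp only [mul_def, rx_one, ry_one, one_def, e11, e21, rx_two, ry_two]
    norm_num
  have hb3 : b ^ 3 = 1 := by
    rw [pow_succ, pow_two, hb]
    simp only [mul_def, rx_one, ry_one, one_def, e11, e21, rx_two, ry_two]
    norm_num
  have hab : a * b = ⟨0, 1, 2⟩ := by
    rw [ha, hb]
    simp only [mul_def, rx_one, ry_one, e11]
    norm_num
  have hab3 : (a * b) ^ 3 = 1 := by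
    rw [pow_succ, pow_two, hab]
    simp only [mul_def, rx_one, ry_one, one_def, e11, e21, e12, e22, rx_two, ry_two]
    norm_num
  obtain ⟨v, hva, hvb⟩ := TreeFix.common_fixed hT hG (TreeFix.fixed_of_pow_three hT hG ha3)
    (TreeFix.fixed_of_pow_three hT hG hb3) (TreeFix.fixed_of_pow_three hT hG hab3)
  refine ⟨v, ?_⟩
  have hmem : ∀ g : Tri ℤ, g ∈ MulAction.stabilizer (Tri ℤ) v := by
    have h1 : a ∈ MulAction.stabilizer (Tri ℤ) v := hva
    have h2 : b ∈ MulAction.stabilizer (Tri ℤ) v := hvb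
    have h3 : (⟨1, 0, 0⟩ : Tri ℤ) ∈ MulAction.stabilizer (Tri ℤ) v := by
      have := mul_mem h2 (inv_mem h1)
      have e : b * a⁻¹ = ⟨1, 0, 0⟩ := by
        rw [mul_inv_eq_iff_eq_mul, ha, hb]
        simp only [mul_def, rx_zero, ry_zero]
        norm_num
      rwa [e] at this
    have h4 : (⟨0, 1, 0⟩ : Tri ℤ) ∈ MulAction.stabilizer (Tri ℤ) v := by
      have := mul_mem (mul_mem h1 h3) (inv_mem h1)
      have e : a * (⟨1, 0, 0⟩ : Tri ℤ) * a⁻¹ = ⟨0, 1, 0⟩ := by
        rw [mul_inv_eq_iff_eq_mul, ha]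
        simp only [mul_def, rx_zero, ry_zero, rx_one, ry_one]
        norm_num
      rwa [e] at this
    intro g
    have h5 := mul_mem (mul_mem (zpow_mem h3 g.x) (zpow_mem h4 g.y))
      (pow_mem h1 g.k.val)
    have e : (⟨1, 0, 0⟩ : Tri ℤ) ^ g.x * (⟨0, 1, 0⟩ : Tri ℤ) ^ g.y * a ^ g.k.val = g := by
      have hak : a ^ g.k.val = ⟨0, 0, g.k⟩ := by
        rcases cases3 g.k with h | h | h
        · rw [h]; rfl
        · rw [h]
          change a ^ 1 = _
          rw [pow_one]
        · rw [h]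
          change a ^ 2 = _
          rw [pow_two, ha]
          simp only [mul_def, rx_one, ry_one, e11]
          norm_num
      rw [hak, zpow_trans, zpow_trans]
      ext
      · simp only [mul_def, rx_zero, smul_eq_mul, mul_one, mul_zero, add_zero]
      · simp only [mul_def, ry_zero, smul_eq_mul, mul_one, mul_zero, add_zero, zero_add]
      · simp only [mul_def, zero_add]
    rwa [e] at h5
  exact fun g => hmem g

/-! ### Finite quotients -/

instance [Finite A] : Finite (Tri A) :=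
  Finite.of_injective (fun g : Tri A => (g.x, g.y, g.k)) fun g h hgh => by
    simp only [Prod.mk.injEq] at hgh
    exact Tri.ext hgh.1 hgh.2.1 hgh.2.2

/-- The kernel of the reduction modulo `m`. -/
def ker (A : Type) [AddCommGroup A] (m : ℕ) : Subgroup (Tri A) :=
  (map (QuotientAddGroup.mk' (nsmulAddMonoidHom (α := A) m).range)).ker

instance (m : ℕ) : (ker A m).Normal := by unfold ker; infer_instance

lemma mem_ker {m : ℕ} {g : Tri A} :
    g ∈ ker A m ↔ (∃ y, m • y = g.x) ∧ (∃ y, m • y = g.y) ∧ g.k = 0 := by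
  unfold ker
  rw [MonoidHom.mem_ker, map_apply, one_def, Tri.mk.injEq]
  simp only [QuotientAddGroup.mk'_apply, QuotientAddGroup.eq_zero_iff, AddMonoidHom.mem_range,
    nsmulAddMonoidHom_apply]

lemma ker_index (e : A) {m : ℕ} (hm : 1 ≤ m)
    (h1 : ∀ b : A, ∃ (k : ℤ) (y : A), b = k • e + m • y) : (ker A m).index ≠ 0 := by
  have hfin : Finite (A ⧸ (nsmulAddMonoidHom (α := A) m).range) := by
    have hm' : NeZero m := ⟨by omega⟩
    refine Finite.of_surjective
      (fun i : Fin m => QuotientAddGroup.mk' (nsmulAddMonoidHom (α := A) m).range ((i : ℕ) • e)) ?_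
    intro q
    obtain ⟨b, rfl⟩ := QuotientAddGroup.mk'_surjective _ q
    obtain ⟨k, y, hb⟩ := h1 b
    have hm0 : (0 : ℤ) < m := by exact_mod_cast hm
    refine ⟨⟨(k % m).toNat, ?_⟩, ?_⟩
    · have := Int.emod_lt_of_pos k hm0
      have := Int.emod_nonneg k hm0.ne'
      omega
    · simp only [QuotientAddGroup.mk'_apply]
      rw [QuotientAddGroup.eq]
      refine ⟨y + (k / m) • e, ?_⟩
      rw [nsmulAddMonoidHom_apply, hb, smul_add]
      have h2 : ((k % m).toNat • e : A) = (k % m) • e := by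
        rw [← natCast_zsmul, Int.toNat_of_nonneg (Int.emod_nonneg k hm0.ne')]
      have h3 : (m • (k / m) • e : A) = (m * (k / m)) • e := by
        rw [mul_smul, natCast_zsmul]
      rw [h2, h3]
      have h4 : k • e = (k % m) • e + ((m : ℤ) * (k / m)) • e := by
        rw [← add_smul, Int.emod_add_mul_ediv]
      rw [h4]
      abel
  unfold ker
  rw [Subgroup.index_ker]
  exact Nat.card_pos.ne'

/-- `Tri A` is residually finite. -/
lemma rf (e : A) (h1 : ∀ m : ℕ, 1 ≤ m → ∀ b : A, ∃ (k : ℤ) (y : A), b = k • e + m • y)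
    (h3 : ∀ b : A, b ≠ 0 → ∃ m : ℕ, 1 ≤ m ∧ ∀ y : A, m • y ≠ b) (g : Tri A) (hg : g ≠ 1) :
    ∃ N : Subgroup (Tri A), N.Normal ∧ N.index ≠ 0 ∧ g ∉ N := by
  by_cases hk : g.k = 0
  · by_cases hx : g.x = 0
    · have hy : g.y ≠ 0 := by
        intro hy
        exact hg (Tri.ext hx hy hk)
      obtain ⟨m, hm, hmy⟩ := h3 _ hy
      refine ⟨ker A m, inferInstance, ker_index e hm (h1 m hm), ?_⟩
      rw [mem_ker]
      rintro ⟨-, ⟨y, hy'⟩, -⟩
      exact hmy y hy'
    · obtain ⟨m, hm, hmy⟩ := h3 _ hx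
      refine ⟨ker A m, inferInstance, ker_index e hm (h1 m hm), ?_⟩
      rw [mem_ker]
      rintro ⟨⟨y, hy'⟩, -, -⟩
      exact hmy y hy'
  · refine ⟨ker A 1, inferInstance, ker_index e le_rfl (h1 1 le_rfl), ?_⟩
    rw [mem_ker]
    rintro ⟨-, -, h⟩
    exact hk h

/-! ### The action on the affine plane -/

instance : MulAction (Tri A) (A × A) where
  smul g p := (g.x + rx g.k p.1 p.2, g.y + ry g.k p.1 p.2)
  one_smul p := by
    change (0 + rx 0 p.1 p.2, 0 + ry 0 p.1 p.2) = p
    rw [rx_zero, ry_zero, zero_add, zero_add]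
  mul_smul g h p := by
    change (g.x + rx g.k h.x h.y + rx (g.k + h.k) p.1 p.2,
      g.y + ry g.k h.x h.y + ry (g.k + h.k) p.1 p.2) =
      (g.x + rx g.k (h.x + rx h.k p.1 p.2) (h.y + ry h.k p.1 p.2),
      g.y + ry g.k (h.x + rx h.k p.1 p.2) (h.y + ry h.k p.1 p.2))
    simp only [rx_add, ry_add, rx_comp, ry_comp, add_assoc]

lemma smul_def (g : Tri A) (p : A × A) :
    g • p = (g.x + rx g.k p.1 p.2, g.y + ry g.k p.1 p.2) := rfl

/-- congruence modulo a subgroup -/
def cong (C : AddSubgroup A) : Setoid (A × A) where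
  r p q := p.1 - q.1 ∈ C ∧ p.2 - q.2 ∈ C
  iseqv := by
    refine ⟨fun p => ?_, ?_, ?_⟩
    · simp only [sub_self]
      exact ⟨C.zero_mem, C.zero_mem⟩
    · rintro p q ⟨h1, h2⟩
      refine ⟨?_, ?_⟩
      · rw [← neg_sub]; exact C.neg_mem h1
      · rw [← neg_sub]; exact C.neg_mem h2
    · rintro p q s ⟨h1, h2⟩ ⟨h3, h4⟩
      refine ⟨?_, ?_⟩
      · rw [← sub_add_sub_cancel p.1 q.1 s.1]; exact C.add_mem h1 h3
      · rw [← sub_add_sub_cancel p.2 q.2 s.2]; exact C.add_mem h2 h4

lemma rx_mem (C : AddSubgroup A) (k : ZMod 3) {x y : A} (hx : x ∈ C) (hy : y ∈ C) :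
    rx k x y ∈ C := by
  rcases cases3 k with rfl | rfl | rfl
  · rw [rx_zero]; exact hx
  · rw [rx_one]; exact C.neg_mem hy
  · rw [rx_two]; exact C.sub_mem hy hx

lemma ry_mem (C : AddSubgroup A) (k : ZMod 3) {x y : A} (hx : x ∈ C) (hy : y ∈ C) :
    ry k x y ∈ C := by
  rcases cases3 k with rfl | rfl | rfl
  · rw [ry_zero]; exact hy
  · rw [ry_one]; exact C.sub_mem hx hy
  · rw [ry_two]; exact C.neg_mem hx

/-- If `A` is the union of a strictly increasing chain of subgroups then `Tri A` acts on a tree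
without inversions and without fixed vertex. -/
theorem not_fa (C : ℕ → AddSubgroup A) (hmono : ∀ n, C n ≤ C (n + 1))
    (htot : ∀ a, ∃ n, a ∈ C n) (hprop : ∀ n, ∃ a, a ∉ C n) :
    ∃ (V : Type) (_ : MulAction (Tri A) V) (T : SimpleGraph V), T.IsTree ∧
      (∀ h : Tri A, ∀ x y : V, T.Adj x y → T.Adj (h • x) (h • y)) ∧
      (∀ h : Tri A, ∀ x y : V, T.Adj x y → ¬ (h • x = y ∧ h • y = x)) ∧
      ¬ ∃ v : V, ∀ h : Tri A, h • v = v := by
  have hmono' : ∀ m n, n ≤ m → C n ≤ C m := fun m n h => monotone_nat_of_le_succ hmono h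
  refine ChainTree.exists_tree (X := A × A) (fun n => cong (C n)) ?_ ?_ ?_ ?_
  · rintro n x y ⟨h1, h2⟩
    exact ⟨hmono n h1, hmono n h2⟩
  · intro x y
    obtain ⟨n, hn⟩ := htot (x.1 - y.1)
    obtain ⟨m, hm⟩ := htot (x.2 - y.2)
    exact ⟨max n m, hmono' _ _ (le_max_left _ _) hn, hmono' _ _ (le_max_right _ _) hm⟩
  · rintro h n x y ⟨h1, h2⟩
    have e1 : (h • x).1 - (h • y).1 = rx h.k (x.1 - y.1) (x.2 - y.2) := by
      have := rx_add h.k (x.1 - y.1) (x.2 - y.2) y.1 y.2
      rw [sub_add_cancel, sub_add_cancel] at this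
      rw [smul_def, smul_def]
      simp only
      rw [this]
      abel
    have e2 : (h • x).2 - (h • y).2 = ry h.k (x.1 - y.1) (x.2 - y.2) := by
      have := ry_add h.k (x.1 - y.1) (x.2 - y.2) y.1 y.2
      rw [sub_add_cancel, sub_add_cancel] at this
      rw [smul_def, smul_def]
      simp only
      rw [this]
      abel
    refine ⟨?_, ?_⟩
    · rw [e1]; exact rx_mem _ _ h1 h2
    · rw [e2]; exact ry_mem _ _ h1 h2
  · intro n x
    obtain ⟨a, ha⟩ := hprop n
    refine ⟨⟨a, 0, 0⟩, ?_⟩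
    rintro ⟨h1, -⟩
    apply ha
    rw [smul_def] at h1
    simp only [rx_zero, add_sub_cancel_right] at h1
    exact h1

end Pool.Agent.X88.Tri
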